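import Pool.Agent.H58.FF.Stm

/-!
The area lemma from the step inequality and the start-up.
-/

namespace Pool.Agent.H58.FF

/-! ### One step of the potential -/

/-- One step. -/
def ArR (l : ℤ) (z : ℕ → ℤ) (t : ℕ) : Prop :=
  ∃ b : ℤ, 0 ≤ b ∧ 9 * z t + 6 * b ≤ 2 * b ^ 2 + 24 ∧
    z t + 2 * b - 2 * (t + 1) - l ≤ z (t + 1)

/-- Improve the bound by one if possible. -/
def arUp (g x : ℤ) : ℤ := if (2 * (x + 1) - 3) ^ 2 ≤ 18 * g - 40 then x + 1 else x

/-- The numerical recursion. -/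
def arRun : ℕ → ℤ → ℤ → ℤ → ℤ → Bool
  | 0, _, g, _, G => decide (G ≤ g)
  | n + 1, t, g, x, G => decide ((2 * x - 3) ^ 2 ≤ 18 * g - 40) && (decide (3 ≤ x) &&
      arRun n (t + 1) (g + 2 * (x + 1) - 2 * (t + 1) - 9)
        (arUp (g + 2 * (x + 1) - 2 * (t + 1) - 9) (arUp (g + 2 * (x + 1) - 2 * (t + 1) - 9)
          (arUp (g + 2 * (x + 1) - 2 * (t + 1) - 9) x))) G)

theorem arRun_spec (z : ℕ → ℤ) : ∀ (n t : ℕ) (g x G : ℤ),
    (∀ s, t ≤ s → s < t + n → ArR 9 z s) → g ≤ z t → arRun n t g x G = true → G ≤ z (t + n) := by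
  intro n
  induction n with
  | zero =>
    intro t g x G _ hg hr
    rw [arRun, decide_eq_true_eq] at hr
    rw [Nat.add_zero]
    omega
  | succ n ih =>
    intro t g x G hs hg hr
    rw [arRun, Bool.and_eq_true, Bool.and_eq_true, decide_eq_true_eq, decide_eq_true_eq] at hr
    obtain ⟨h1, h2, h3⟩ := hr
    obtain ⟨b, hb0, hb1, hb2⟩ := hs t le_rfl (by omega)
    have hb : x + 1 ≤ b := by
      by_contra hcon
      push Not at hcon
      have h4 : b ≤ x := by omega
      have h5 : (2 * b - 3) ^ 2 ≤ (2 * x - 3) ^ 2 := by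
        apply sq_le_sq'
        · omega
        · omega
      nlinarith
    have h6 : t + (n + 1) = (t + 1) + n := by ring
    rw [h6]
    refine ih (t + 1) _ _ G (fun s hs1 hs2 => hs s (by omega) (by omega)) ?_
      (by push_cast; exact h3)
    linarith

theorem ar_long : arRun 392 8 74 19 139758 = true := by
  decide +kernel

theorem ar_short : arRun 6 2 20 10 74 = true ∧ arRun 5 3 27 12 74 = true ∧
    arRun 4 4 34 13 74 = true ∧ arRun 3 5 43 15 74 = true ∧ arRun 2 6 52 16 74 = true ∧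
    arRun 1 7 63 18 74 = true := by
  decide +kernel

/-- The numerical part. -/
theorem ar_num (z : ℕ → ℤ) (h : ∀ s, s < 400 → ArR 9 z s) (t : ℕ) (h2 : 2 ≤ t) (h8 : t ≤ 8)
    (ht : tb t ≤ z t) : 139758 ≤ z 400 := by
  obtain ⟨s2, s3, s4, s5, s6, s7⟩ := ar_short
  have h9 : 74 ≤ z 8 := by
    interval_cases t
    · exact arRun_spec z 6 2 20 10 74 (fun s _ hs => h s (by omega)) ht s2
    · exact arRun_spec z 5 3 27 12 74 (fun s _ hs => h s (by omega)) ht s3
    · exact arRun_spec z 4 4 34 13 74 (fun s _ hs => h s (by omega)) ht s4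
    · exact arRun_spec z 3 5 43 15 74 (fun s _ hs => h s (by omega)) ht s5
    · exact arRun_spec z 2 6 52 16 74 (fun s _ hs => h s (by omega)) ht s6
    · exact arRun_spec z 1 7 63 18 74 (fun s _ hs => h s (by omega)) ht s7
    · exact ht
  exact arRun_spec z 392 8 74 19 139758 (fun s _ hs => h s (by omega)) h9 ar_long

/-! ### The asymptotic part -/

theorem ar_inc (a c : ℝ) (hca : c ^ 2 ≤ 18 * a) (z : ℕ → ℤ) (t : ℕ)
    (ht : 20 < c * t) (h : ArR 21 z t) (hz : a * (t : ℝ) ^ 2 ≤ z t) :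
    (z t : ℝ) + (c - 2) * t - 21 ≤ z (t + 1) := by
  obtain ⟨b, hb0, hb1, hb2⟩ := h
  have hb0' : (0 : ℝ) ≤ b := by exact_mod_cast hb0
  have hb1' : 9 * (z t : ℝ) + 6 * b ≤ 2 * (b : ℝ) ^ 2 + 24 := by exact_mod_cast hb1
  have hb2' : (z t : ℝ) + 2 * b - 2 * (t + 1) - 21 ≤ z (t + 1) := by exact_mod_cast hb2
  have hb : c * t + 2 ≤ 2 * b := by
    by_contra hcon
    push Not at hcon
    have h5 : (2 * (b : ℝ) - 3) ^ 2 ≤ (c * t - 1) ^ 2 := by
      apply sq_le_sq'
      · linarith
      · linarith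
    have h6 : c ^ 2 * (t : ℝ) ^ 2 ≤ 18 * (a * (t : ℝ) ^ 2) := by
      have := mul_le_mul_of_nonneg_right hca (sq_nonneg (t : ℝ))
      linarith
    nlinarith
  linarith

/-- A quadratic lower bound for all late times. -/
def ArG (a : ℝ) : Prop := ∃ t1 : ℕ, ∀ (z : ℕ → ℤ) (T : ℕ),
  (∀ t, 400 ≤ t → t + 1 ≤ T → ArR 21 z t) → (120000 ≤ z 400) →
    ∀ t, t1 ≤ t → t ≤ T → a * (t : ℝ) ^ 2 ≤ z t

theorem ar_base : ArG (3 / 4) := by
  refine ⟨400, fun z T hR h0 t ht hT => ?_⟩
  induction t, ht using Nat.le_induction with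
  | base =>
    have h1 : (120000 : ℝ) ≤ z 400 := by exact_mod_cast h0
    norm_num
    linarith
  | succ t ht ih =>
    have ht' : (400 : ℝ) ≤ t := by exact_mod_cast ht
    have h1 := ar_inc (3 / 4) (367 / 100) (by norm_num) z t (by linarith)
      (hR t ht hT) (ih (by omega))
    have h2 := ih (by omega)
    push_cast
    nlinarith

theorem ar_next (a c a' : ℝ) (hc : 2 < c) (hca : c ^ 2 ≤ 18 * a) (ha' : 2 * a' + 2 < c)
    (h : ArG a) : ArG a' := by
  obtain ⟨t1, h1⟩ := h
  set t0 := max t1 400 with ht0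
  set M : ℝ := (c - 2) / 2 * (t0 : ℝ) ^ 2 with hM
  set K : ℝ := 21 + (c - 2) / 2 with hK
  have hM0 : 0 ≤ M := mul_nonneg (by linarith) (sq_nonneg _)
  have hK0 : 0 ≤ K := by rw [hK]; linarith
  have ha0 : 0 ≤ a := by nlinarith [sq_nonneg c]
  have hδ : 0 < (c - 2) / 2 - a' := by linarith
  obtain ⟨N, hN⟩ := exists_nat_ge ((K + M) / ((c - 2) / 2 - a'))
  refine ⟨max t0 N, fun z T hR h0 t ht hT => ?_⟩
  have key : ∀ s, t0 ≤ s → s ≤ T → (c - 2) / 2 * (s : ℝ) ^ 2 - K * s - M ≤ z s := by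
    intro s hs
    induction s, hs using Nat.le_induction with
    | base =>
      intro hT0
      have h2 := h1 z T hR h0 t0 (le_max_left _ _) hT0
      have h3 : 0 ≤ a * (t0 : ℝ) ^ 2 := mul_nonneg ha0 (sq_nonneg _)
      have h4 : 0 ≤ K * (t0 : ℝ) := mul_nonneg hK0 (Nat.cast_nonneg _)
      linarith
    | succ s hs ih =>
      intro hsT
      have h400 : 400 ≤ s := (le_max_right _ _).trans hs
      have h400' : (400 : ℝ) ≤ s := by exact_mod_cast h400
      have h2 := h1 z T hR h0 s ((le_max_left _ _).trans hs) (by omega)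
      have h3 := ar_inc a c hca z s (by nlinarith) (hR s h400 hsT) h2
      have h4 := ih (by omega)
      push_cast
      rw [hK] at h4 ⊢
      nlinarith
  have h2 := key t ((le_max_left _ _).trans ht) hT
  have htN : (N : ℝ) ≤ t := by exact_mod_cast (le_max_right _ _).trans ht
  have ht1 : (1 : ℝ) ≤ t := by
    have h3 : 400 ≤ t := (le_max_right t1 400).trans ((le_max_left _ _).trans ht)
    exact_mod_cast (by omega : 1 ≤ t)
  have h3 : K + M ≤ ((c - 2) / 2 - a') * t := by
    rw [div_le_iff₀ hδ] at hN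
    nlinarith
  have h4 : K * t + M ≤ ((c - 2) / 2 - a') * (t : ℝ) ^ 2 := by
    have h5 : (K + M) * t ≤ (((c - 2) / 2 - a') * t) * t :=
      mul_le_mul_of_nonneg_right h3 (by linarith)
    nlinarith
  linarith

theorem ar_final : ArG (192 / 100) := by
  have h1 := ar_next (3 / 4) (367 / 100) (83 / 100) (by norm_num) (by norm_num) (by norm_num)
    ar_base
  have h2 := ar_next _ (386 / 100) (92 / 100) (by norm_num) (by norm_num) (by norm_num) h1
  have h3 := ar_next _ (406 / 100) (102 / 100) (by norm_num) (by norm_num) (by norm_num) h2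
  have h4 := ar_next _ (428 / 100) (113 / 100) (by norm_num) (by norm_num) (by norm_num) h3
  have h5 := ar_next _ (450 / 100) (124 / 100) (by norm_num) (by norm_num) (by norm_num) h4
  have h6 := ar_next _ (472 / 100) (135 / 100) (by norm_num) (by norm_num) (by norm_num) h5
  have h7 := ar_next _ (492 / 100) (145 / 100) (by norm_num) (by norm_num) (by norm_num) h6
  have h8 := ar_next _ (510 / 100) (154 / 100) (by norm_num) (by norm_num) (by norm_num) h7
  have h9 := ar_next _ (526 / 100) (162 / 100) (by norm_num) (by norm_num) (by norm_num) h8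
  have h10 := ar_next _ (540 / 100) (169 / 100) (by norm_num) (by norm_num) (by norm_num) h9
  have h11 := ar_next _ (551 / 100) (175 / 100) (by norm_num) (by norm_num) (by norm_num) h10
  have h12 := ar_next _ (561 / 100) (180 / 100) (by norm_num) (by norm_num) (by norm_num) h11
  have h13 := ar_next _ (569 / 100) (184 / 100) (by norm_num) (by norm_num) (by norm_num) h12
  have h14 := ar_next _ (575 / 100) (187 / 100) (by norm_num) (by norm_num) (by norm_num) h13
  have h15 := ar_next _ (580 / 100) (1899 / 1000) (by norm_num) (by norm_num) (by norm_num) h14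
  exact ar_next _ (5845 / 1000) _ (by norm_num) (by norm_num) (by norm_num) h15

/-! ### Geometry -/

theorem ar_dst (p q : Pt) (m : ℤ) : dst p q ≤ m ↔ (-m ≤ p.1 - q.1 ∧ p.1 - q.1 ≤ m) ∧
    (-m ≤ p.2 - q.2 ∧ p.2 - q.2 ≤ m) ∧
    (-m ≤ p.1 - q.1 + (p.2 - q.2) ∧ p.1 - q.1 + (p.2 - q.2) ≤ m) := by
  rw [dst, nrm, max_le_iff, max_le_iff, abs_le, abs_le, abs_le]
  rfl

theorem ar_near (w c p0 : Pt) (m : ℤ) (hc : c ∈ nbs w) (hw : dst w p0 ≤ m) :
    dst c p0 ≤ m + 1 := by
  rw [ar_dst] at hw ⊢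
  simp only [nbs, Finset.mem_insert, Finset.mem_singleton] at hc
  rcases hc with rfl | rfl | rfl | rfl | rfl | rfl <;> dsimp only <;> omega

open Classical in
theorem ar_card (w : Pt) (hw : ¬ isC w) : (cnb w).card ≤ 3 := by
  have hr : (w.1 - w.2) % 3 = 0 ∨ (w.1 - w.2) % 3 = 1 := by
    unfold isC at hw
    omega
  rcases hr with hr | hr
  · have hsub : cnb w ⊆ {(w.1, w.2 + 1), (w.1 - 1, w.2), (w.1 + 1, w.2 - 1)} := by
      intro c hc
      rw [cnb, Finset.mem_filter] at hc
      obtain ⟨hc, hC⟩ := hc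
      simp only [nbs, Finset.mem_insert, Finset.mem_singleton] at hc
      simp only [Finset.mem_insert, Finset.mem_singleton]
      unfold isC at hC
      rcases hc with rfl | rfl | rfl | rfl | rfl | rfl <;> dsimp only at hC <;>
        first
          | (exfalso; omega)
          | simp
    exact (Finset.card_le_card hsub).trans Finset.card_le_three
  · have hsub : cnb w ⊆ {(w.1 + 1, w.2), (w.1 - 1, w.2 + 1), (w.1, w.2 - 1)} := by
      intro c hc
      rw [cnb, Finset.mem_filter] at hc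
      obtain ⟨hc, hC⟩ := hc
      simp only [nbs, Finset.mem_insert, Finset.mem_singleton] at hc
      simp only [Finset.mem_insert, Finset.mem_singleton]
      unfold isC at hC
      rcases hc with rfl | rfl | rfl | rfl | rfl | rfl <;> dsimp only at hC <;>
        first
          | (exfalso; omega)
          | simp
    exact (Finset.card_le_card hsub).trans Finset.card_le_three

open Classical in
theorem ar_sum (W : Pt → ℕ) (w : Pt) (hw : ¬ isC w) (m : ℕ) (h : ∀ c ∈ nbs w, W c ≤ m) :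
    ∑ c ∈ cnb w, W c ≤ 3 * m := by
  have h1 : ∑ c ∈ cnb w, W c ≤ (cnb w).card • m := by
    refine Finset.sum_le_card_nsmul _ _ _ fun c hc => h c ?_
    rw [cnb, Finset.mem_filter] at hc
    exact hc.1
  rw [smul_eq_mul] at h1
  exact h1.trans (Nat.mul_le_mul_right _ (ar_card w hw))

/-! ### The area lemma -/

theorem sareaOf : SAreaOf := by
  intro hStep hStart
  obtain ⟨t1, h1⟩ := ar_final
  refine ⟨405, max t1 400, fun W p0 T f hW3 hW7 hY t ht hT => ?_⟩
  have ht400 : 400 ≤ t := (le_max_right _ _).trans ht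
  have hW2 : ∀ c, 2 ≤ W c := fun c => by rcases hW7 c with h | h <;> omega
  -- the bulk
  have hR9 : ∀ s, s < 400 → ArR 9 (fun t => pot f 9 t) s := by
    intro s hs
    obtain ⟨b, hb0, hb1, hb2⟩ := hStep W p0 T f hW2 9 s (by omega) (fun w hw => by
      have h3 := ar_sum W w (f.P_cls _ w hw) 3 (fun c hc => by
        have h4 := ar_near w c p0 _ hc (f.P_ball _ w hw)
        rw [hW3 c (by push_cast at h4 ⊢; omega)])
      omega)
    exact ⟨b, hb0, by exact_mod_cast hb1, by exact_mod_cast hb2⟩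
  obtain ⟨s0, hs2, hs8, hs⟩ := hStart W p0 T f (by omega) (fun c hc => hW3 c (by omega)) hY
  have h400 := ar_num (fun t => pot f 9 t) hR9 s0 hs2 hs8 hs
  -- near the streets
  have hR21 : ∀ s, 400 ≤ s → s + 1 ≤ T → ArR 21 (fun t => pot f 21 t) s := by
    intro s _ hsT
    obtain ⟨b, hb0, hb1, hb2⟩ := hStep W p0 T f hW2 21 s hsT (fun w hw => by
      have h3 := ar_sum W w (f.P_cls _ w hw) 7 (fun c _ => by
        rcases hW7 c with h | h <;> omega)
      omega)
    exact ⟨b, hb0, by exact_mod_cast hb1, by exact_mod_cast hb2⟩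
  have h21 : 120000 ≤ pot f 21 400 := by
    have h5 : (139758 : ℤ) ≤ pot f 9 400 := h400
    unfold pot at h5 ⊢
    push_cast at h5 ⊢
    have h6 : (0 : ℤ) ≤ (f.P 400).card := Int.natCast_nonneg _
    have h7 : (0 : ℤ) ≤ (f.K 400).card := Int.natCast_nonneg _
    linarith
  have h8 := h1 (fun t => pot f 21 t) T hR21 h21 t ((le_max_left _ _).trans ht) hT
  have h9 : pot f 21 t ≤ 4 * ((f.S t).card : ℤ) := by
    unfold pot
    have h10 := f.hall t hT
    have h11 : ((f.P t).card : ℤ) + (f.K t).card ≤ t := by exact_mod_cast h10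
    have h12 : (0 : ℤ) ≤ pend f t := Int.natCast_nonneg _
    linarith
  have h10 : ((pot f 21 t : ℤ) : ℝ) ≤ 4 * ((f.S t).card : ℝ) := by exact_mod_cast h9
  have h11 : (48 : ℝ) * (t : ℝ) ^ 2 ≤ 100 * ((f.S t).card : ℝ) := by
    have h12 : (192 / 100 : ℝ) * (t : ℝ) ^ 2 ≤ ((pot f 21 t : ℤ) : ℝ) := h8
    linarith
  exact_mod_cast h11

end Pool.Agent.H58.FF
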