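import Pool.Agent.H58.FF.Stm

/-!
The growth inequality of the micro part.
-/

namespace Pool.Agent.H58.FF

open Classical

/-- The six directions, in cyclic order. -/
def e : Fin 6 → Pt := ![(1, 0), (0, 1), (-1, 1), (-1, 0), (0, -1), (1, -1)]

theorem mem_nbs {p v : Pt} : v ∈ nbs p ↔ ∃ i, v = p + e i := by
  constructor
  · intro h
    simp only [nbs, Finset.mem_insert, Finset.mem_singleton] at h
    rcases h with h | h | h | h | h | h
    · exact ⟨0, by rw [h]; ext <;> simp [e]⟩
    · exact ⟨1, by rw [h]; ext <;> simp [e]⟩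
    · exact ⟨2, by rw [h]; ext <;> simp [e] <;> ring⟩
    · exact ⟨3, by rw [h]; ext <;> simp [e] <;> ring⟩
    · exact ⟨4, by rw [h]; ext <;> simp [e] <;> ring⟩
    · exact ⟨5, by rw [h]; ext <;> simp [e] <;> ring⟩
  · rintro ⟨i, rfl⟩
    simp only [nbs, Finset.mem_insert, Finset.mem_singleton]
    fin_cases i
    · left; ext <;> simp [e]
    · right; left; ext <;> simp [e]
    · right; right; left; ext <;> simp [e] <;> ring
    · right; right; right; left; ext <;> simp [e] <;> ring
    · right; right; right; right; left; ext <;> simp [e] <;> ring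
    · right; right; right; right; right; ext <;> simp [e] <;> ring

theorem e_neg (i : Fin 6) : e (i + 3) = - e i := by
  fin_cases i <;> decide

theorem e_succ (i : Fin 6) : e (i + 1) - e i = e (i + 2) := by
  fin_cases i <;> decide

theorem e_pred (i : Fin 6) : e (i - 1) - e i = e (i - 2) := by
  fin_cases i <;> decide

theorem e_inj {i j : Fin 6} (h : e i = e j) : i = j := by
  revert i j; decide

theorem nbs_symm {p v : Pt} (h : v ∈ nbs p) : p ∈ nbs v := by
  obtain ⟨i, rfl⟩ := mem_nbs.1 h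
  exact mem_nbs.2 ⟨i + 3, by rw [e_neg]; abel⟩

theorem not_isC_of_nbs {c v : Pt} (hc : isC c) (h : v ∈ nbs c) : ¬ isC v := by
  simp only [nbs, Finset.mem_insert, Finset.mem_singleton] at h
  unfold isC at *
  rcases h with h | h | h | h | h | h <;> rw [h] <;> simp only <;> omega

theorem card_nbs (p : Pt) : (nbs p).card = 6 := by
  have h : nbs p = Finset.univ.image (fun i => p + e i) := by
    ext v; rw [mem_nbs]; simp [eq_comm]
  rw [h, Finset.card_image_of_injective]
  · simp
  · intro i j hij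
    exact e_inj (add_left_cancel hij)

/-- the parity of the centre neighbours -/
theorem isC_add {v : Pt} (hv : ¬ isC v) :
    (∀ k : Fin 6, isC (v + e k) ↔ k.val % 2 = 1) ∨ (∀ k : Fin 6, isC (v + e k) ↔ k.val % 2 = 0) := by
  unfold isC at *
  have h : (v.1 - v.2) % 3 = 0 ∨ (v.1 - v.2) % 3 = 1 := by omega
  rcases h with h | h
  · left
    intro k
    fin_cases k <;> simp [e] <;> omega
  · right
    intro k
    fin_cases k <;> simp [e] <;> omega

theorem cnb_eq {v : Pt} (hv : ¬ isC v) :
    ∃ a : Fin 6, (a = 0 ∨ a = 1) ∧ cnb v = {v + e a, v + e (a + 2), v + e (a + 4)} := by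
  rcases isC_add hv with h | h
  · refine ⟨1, Or.inr rfl, ?_⟩
    ext c
    simp only [cnb, Finset.mem_filter, mem_nbs, Finset.mem_insert, Finset.mem_singleton]
    constructor
    · rintro ⟨⟨i, rfl⟩, hc⟩
      rw [h] at hc
      fin_cases i <;> simp at hc ⊢
    · rintro (rfl | rfl | rfl)
      · exact ⟨⟨_, rfl⟩, (h _).2 (by decide)⟩
      · exact ⟨⟨_, rfl⟩, (h _).2 (by decide)⟩
      · exact ⟨⟨_, rfl⟩, (h _).2 (by decide)⟩
  · refine ⟨0, Or.inl rfl, ?_⟩
    ext c
    simp only [cnb, Finset.mem_filter, mem_nbs, Finset.mem_insert, Finset.mem_singleton]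
    constructor
    · rintro ⟨⟨i, rfl⟩, hc⟩
      rw [h] at hc
      fin_cases i <;> simp at hc ⊢
    · rintro (rfl | rfl | rfl)
      · exact ⟨⟨_, rfl⟩, (h _).2 (by decide)⟩
      · exact ⟨⟨_, rfl⟩, (h _).2 (by decide)⟩
      · exact ⟨⟨_, rfl⟩, (h _).2 (by decide)⟩

theorem card_cnb {v : Pt} (hv : ¬ isC v) : (cnb v).card = 3 := by
  obtain ⟨a, ha, h⟩ := cnb_eq hv
  rw [h]
  have h1 : a ≠ a + 2 := by rcases ha with rfl | rfl <;> decide
  have h2 : a ≠ a + 4 := by rcases ha with rfl | rfl <;> decide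
  have h3 : a + 2 ≠ a + 4 := by rcases ha with rfl | rfl <;> decide
  have g : ∀ {x y : Fin 6}, x ≠ y → v + e x ≠ v + e y := fun hxy hh =>
    hxy (e_inj (add_left_cancel hh))
  rw [Finset.card_eq_three]
  exact ⟨_, _, _, g h1, g h2, g h3, rfl⟩

/-- `v` is a single end for the centre `c`: exactly one of its two neighbours in the ring of `c`
lies in `A`. -/
def SE (A : Finset Pt) (v c : Pt) : Prop :=
  ∃ i : Fin 6, v = c + e i ∧ (c + e (i + 1) ∈ A ↔ c + e (i - 1) ∉ A)

theorem SE_iff (A : Finset Pt) (v : Pt) (k : Fin 6) :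
    SE A v (v + e k) ↔ (v + e (k - 1) ∈ A ↔ v + e (k + 1) ∉ A) := by
  have key : ∀ k : Fin 6, e k + e (k + 3 + 1) = e (k - 1) ∧ e k + e (k + 3 - 1) = e (k + 1) := by
    decide
  have q1 : v + e k + e (k + 3 + 1) = v + e (k - 1) := by
    rw [add_assoc v (e k), (key k).1]
  have q2 : v + e k + e (k + 3 - 1) = v + e (k + 1) := by
    rw [add_assoc v (e k), (key k).2]
  constructor
  · rintro ⟨i, h1, h2⟩
    have h3 : i = k + 3 := by
      apply e_inj
      rw [e_neg]
      have : v = v + (e k + e i) := by rw [← add_assoc]; exact h1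
      have h4 : e k + e i = 0 := by
        have h5 := congrArg (fun z => z - v) this
        simpa using h5.symm
      exact eq_neg_of_add_eq_zero_right h4
    subst h3
    rw [q1, q2] at h2
    exact h2
  · intro h
    refine ⟨k + 3, ?_, ?_⟩
    · rw [e_neg]; abel
    · rw [q1, q2]
      exact h

theorem SE_card (A : Finset Pt) {v : Pt} (hv : ¬ isC v) (D : Finset Pt) (hD : ∀ c ∈ D, isC c) :
    (D.filter (fun c => SE A v c)).card ≤ 2 := by
  obtain ⟨a, ha, h⟩ := cnb_eq hv
  have hsub : D.filter (fun c => SE A v c) ⊆ cnb v := by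
    intro c hc
    rw [Finset.mem_filter] at hc
    obtain ⟨i, h1, -⟩ := hc.2
    have : v ∈ nbs c := mem_nbs.2 ⟨i, h1⟩
    exact Finset.mem_filter.2 ⟨nbs_symm this, hD c hc.1⟩
  have hex : ∃ c ∈ cnb v, ¬ SE A v c := by
    by_contra hcon
    push Not at hcon
    have g1 := hcon (v + e a) (by rw [h]; simp)
    have g2 := hcon (v + e (a + 2)) (by rw [h]; simp)
    have g3 := hcon (v + e (a + 4)) (by rw [h]; simp)
    rw [SE_iff] at g1 g2 g3
    have k1 : a + 2 - 1 = a + 1 := by rcases ha with rfl | rfl <;> decide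
    have k2 : a + 2 + 1 = a + 3 := by rcases ha with rfl | rfl <;> decide
    have k3 : a + 4 - 1 = a + 3 := by rcases ha with rfl | rfl <;> decide
    have k4 : a + 4 + 1 = a - 1 := by rcases ha with rfl | rfl <;> decide
    rw [k1, k2] at g2
    rw [k3, k4] at g3
    tauto
  obtain ⟨c0, hc0, hc1⟩ := hex
  have hss : D.filter (fun c => SE A v c) ⊆ (cnb v).erase c0 := by
    intro c hc
    refine Finset.mem_erase.2 ⟨?_, hsub hc⟩
    rintro rfl
    exact hc1 (Finset.mem_filter.1 hc).2
  calc _ ≤ ((cnb v).erase c0).card := Finset.card_le_card hss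
    _ = 2 := by rw [Finset.card_erase_of_mem hc0, card_cnb hv]

theorem ringB : ∀ b : Fin 6 → Bool,
    (∃ i, b i = false ∧ b (i + 1) = false ∧ b (i - 1) = false) → (∃ i, b i = true) →
    (∃ i j, i ≠ j ∧ b i = false ∧ b j = false ∧ b (i + 1) = !b (i - 1) ∧
      b (j + 1) = !b (j - 1)) ∧
    (Finset.univ.filter (fun i => b i = true)).card ≤ 3 := by
  decide +kernel

/-- Consequences for a ring. -/
theorem ring_main (A X : Finset Pt) (c : Pt)
    (hX : ∀ i, c + e i ∈ A → c + e (i + 1) ∈ X ∧ c + e (i - 1) ∈ X)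
    (hAX : A ⊆ X) (h1 : ∃ u ∈ nbs c, u ∈ A) (h2 : ¬ nbs c ⊆ X) :
    (∃ v w, v ≠ w ∧ v ∈ X ∧ w ∈ X ∧ v ∉ A ∧ w ∉ A ∧ SE A v c ∧ SE A w c ∧
      (∃ u ∈ A, v ∈ nbs u) ∧ (∃ u ∈ A, w ∈ nbs u)) ∧ ((nbs c).filter (· ∈ A)).card ≤ 3 := by
  have key := ringB (fun i => decide (c + e i ∈ A)) ?_ ?_
  · obtain ⟨⟨i, j, hij, hi, hj, hi2, hj2⟩, hcard⟩ := key
    have half : ∀ i, c + e i ∉ A → (decide (c + e (i + 1) ∈ A)) = !(decide (c + e (i - 1) ∈ A)) →
        c + e i ∈ X ∧ SE A (c + e i) c ∧ ∃ u ∈ A, c + e i ∈ nbs u := by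
      intro i hi hx
      have hx2 : (c + e (i + 1) ∈ A ↔ c + e (i - 1) ∉ A) := by
        by_cases g1 : c + e (i + 1) ∈ A <;> by_cases g2 : c + e (i - 1) ∈ A <;> simp_all
      refine ⟨?_, ⟨i, rfl, hx2⟩, ?_⟩
      · by_cases g : c + e (i + 1) ∈ A
        · have := (hX _ g).2
          rwa [add_sub_cancel_right] at this
        · have g2 : c + e (i - 1) ∈ A := by by_contra g3; exact g (hx2.2 g3)
          have := (hX _ g2).1
          rwa [sub_add_cancel] at this
      · by_cases g : c + e (i + 1) ∈ A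
        · refine ⟨_, g, mem_nbs.2 ⟨i - 1, ?_⟩⟩
          have : ∀ i : Fin 6, e i = e (i + 1) + e (i - 1) := by decide
          rw [add_assoc, ← this]
        · have g2 : c + e (i - 1) ∈ A := by by_contra g3; exact g (hx2.2 g3)
          refine ⟨_, g2, mem_nbs.2 ⟨i + 1, ?_⟩⟩
          have : ∀ i : Fin 6, e i = e (i - 1) + e (i + 1) := by decide
          rw [add_assoc, ← this]
    have hi' : c + e i ∉ A := by simpa using hi
    have hj' : c + e j ∉ A := by simpa using hj
    obtain ⟨a1, a2, a3⟩ := half i hi' hi2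
    obtain ⟨b1, b2, b3⟩ := half j hj' hj2
    refine ⟨⟨c + e i, c + e j, ?_, a1, b1, hi', hj', a2, b2, a3, b3⟩, ?_⟩
    · intro h
      exact hij (e_inj (add_left_cancel h))
    · have : (nbs c).filter (· ∈ A) =
          (Finset.univ.filter (fun i => decide (c + e i ∈ A) = true)).image (fun i => c + e i) := by
        ext v
        simp only [Finset.mem_filter, mem_nbs, Finset.mem_image, Finset.mem_univ, true_and,
          decide_eq_true_eq]
        constructor
        · rintro ⟨⟨i, rfl⟩, h⟩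
          exact ⟨i, h, rfl⟩
        · rintro ⟨i, h, rfl⟩
          exact ⟨⟨i, rfl⟩, h⟩
      rw [this]
      exact le_trans Finset.card_image_le hcard
  · obtain ⟨w, hw, hwX⟩ := Finset.not_subset.1 h2
    obtain ⟨i, rfl⟩ := mem_nbs.1 hw
    refine ⟨i, ?_, ?_, ?_⟩
    · simp only [decide_eq_false_iff_not]
      intro h; exact hwX (hAX h)
    · simp only [decide_eq_false_iff_not]
      intro h; apply hwX
      have := (hX _ h).2
      rwa [add_sub_cancel_right] at this
    · simp only [decide_eq_false_iff_not]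
      intro h; apply hwX
      have := (hX _ h).1
      rwa [sub_add_cancel] at this
  · obtain ⟨u, hu, huA⟩ := h1
    obtain ⟨i, rfl⟩ := mem_nbs.1 hu
    exact ⟨i, by simpa using huA⟩

theorem bdry_mem {Q : Finset Pt} {v : Pt} : v ∈ bdry Q ↔ (∃ u ∈ Q, v ∈ nbs u) ∧ v ∉ Q := by
  unfold bdry
  rw [Finset.mem_sdiff, Finset.mem_biUnion]

theorem sgrow (hI : SIso) : SGrow := by
  intro W p0 T f hW t ht
  set A := f.S t with hA
  set A' := f.S (t + 1) with hA'
  set P' := f.P (t + 1) with hP'
  set K' := f.K (t + 1) with hK'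
  set X : Finset Pt := A' ∪ P' with hX
  have hAA' : A ⊆ A' := f.S_mono t
  have hAX : A ⊆ X := hAA'.trans Finset.subset_union_left
  have monoS : Monotone f.S := monotone_nat_of_le_succ f.S_mono
  have monoP : Monotone f.P := monotone_nat_of_le_succ f.P_mono
  have monoK : Monotone f.K := monotone_nat_of_le_succ f.K_mono
  have hXcls : ∀ v ∈ X, ¬ isC v := by
    intro v hv
    rcases Finset.mem_union.1 hv with h | h
    · exact f.S_cls _ _ h
    · exact f.P_cls _ _ h
  set F1 : Finset Pt := if 1 ≤ t then f.F (t - 1) else ∅ with hF1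
  set F3 : Finset Pt := (X.biUnion nbs).filter (fun c => isC c ∧ nbs c ⊆ X) with hF3
  set QC : Finset Pt := F1 ∪ F3 with hQC
  set Q : Finset Pt := A ∪ QC with hQ
  have hF1c : ∀ c ∈ F1, isC c := by
    intro c hc
    rw [hF1] at hc
    split_ifs at hc with h
    · exact f.F_cls _ _ hc
    · simp at hc
  have hQCc : ∀ c ∈ QC, isC c := by
    intro c hc
    rcases Finset.mem_union.1 hc with h | h
    · exact hF1c c h
    · exact (Finset.mem_filter.1 h).2.1
  have hdisj : Disjoint A QC := by
    rw [Finset.disjoint_left]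
    intro v hv hc
    exact f.S_cls _ _ hv (hQCc v hc)
  -- the forced spread between honeycomb vertices
  have r1 : ∀ u ∈ A, ∀ v ∈ nbs u, ¬ isC v → v ∈ X := by
    intro u hu v hv hc
    exact Finset.mem_union.2 (f.r1 t ht u hu v hv hc)
  set bO : Finset Pt := (bdry Q).filter (fun v => ¬ isC v) with hbO
  set bC : Finset Pt := (bdry Q).filter (fun v => isC v) with hbC
  have hb : (bdry Q).card = bC.card + bO.card := by
    rw [hbO, hbC, Finset.card_filter_add_card_filter_not]
  -- honeycomb boundary vertices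
  have hbO1 : ∀ v ∈ bO, v ∈ X ∧ v ∉ A := by
    intro v hv
    obtain ⟨hv1, hvc⟩ := Finset.mem_filter.1 hv
    obtain ⟨⟨u, hu, huv⟩, hvQ⟩ := bdry_mem.1 hv1
    refine ⟨?_, fun h => hvQ (Finset.mem_union_left _ h)⟩
    rcases Finset.mem_union.1 hu with h | h
    · exact r1 u h v huv hvc
    · rcases Finset.mem_union.1 h with h | h
      · rw [hF1] at h
        split_ifs at h with h1
        · have h2 : t - 1 + 2 = t + 1 := by omega
          have := f.r3 (t - 1) (by omega) u h v huv
          rw [h2] at this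
          exact Finset.mem_union.2 this
        · simp at h
      · exact (Finset.mem_filter.1 h).2.2 huv
  have hbOn : bO.card ≤ (A' \ A).card + P'.card := by
    refine le_trans (Finset.card_le_card (t := (A' \ A) ∪ P') ?_) (Finset.card_union_le _ _)
    intro v hv
    obtain ⟨h1, h2⟩ := hbO1 v hv
    rcases Finset.mem_union.1 h1 with h | h
    · exact Finset.mem_union_left _ (Finset.mem_sdiff.2 ⟨h, h2⟩)
    · exact Finset.mem_union_right _ h
  -- centre boundary vertices
  have hbC1 : ∀ c ∈ bC, isC c ∧ (∃ u ∈ nbs c, u ∈ A) ∧ ¬ nbs c ⊆ X ∧ c ∉ F1 := by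
    intro c hc
    obtain ⟨hc1, hcc⟩ := Finset.mem_filter.1 hc
    obtain ⟨⟨u, hu, huc⟩, hcQ⟩ := bdry_mem.1 hc1
    have huA : u ∈ A := by
      rcases Finset.mem_union.1 hu with h | h
      · exact h
      · exact absurd hcc (not_isC_of_nbs (hQCc u h) huc)
    refine ⟨hcc, ⟨u, nbs_symm huc, huA⟩, ?_, ?_⟩
    · intro h
      apply hcQ
      apply Finset.mem_union_right
      apply Finset.mem_union_right
      exact Finset.mem_filter.2 ⟨Finset.mem_biUnion.2 ⟨u, hAX huA, huc⟩, hcc, h⟩
    · intro h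
      exact hcQ (Finset.mem_union_right _ (Finset.mem_union_left _ h))
  have hring : ∀ c ∈ bC, (∃ v w, v ≠ w ∧ v ∈ bO ∧ w ∈ bO ∧ SE A v c ∧ SE A w c) ∧
      ((nbs c).filter (· ∈ A)).card ≤ 3 := by
    intro c hc
    obtain ⟨h1, h2, h3, h4⟩ := hbC1 c hc
    have hXX : ∀ i, c + e i ∈ A → c + e (i + 1) ∈ X ∧ c + e (i - 1) ∈ X := by
      intro i hi
      have e1 : ∀ i : Fin 6, e (i + 1) = e i + e (i + 2) := by decide
      have e2 : ∀ i : Fin 6, e (i - 1) = e i + e (i - 2) := by decide
      constructor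
      · apply r1 _ hi
        · exact mem_nbs.2 ⟨i + 2, by rw [add_assoc, ← e1]⟩
        · exact not_isC_of_nbs h1 (mem_nbs.2 ⟨_, rfl⟩)
      · apply r1 _ hi
        · exact mem_nbs.2 ⟨i - 2, by rw [add_assoc, ← e2]⟩
        · exact not_isC_of_nbs h1 (mem_nbs.2 ⟨_, rfl⟩)
    obtain ⟨⟨v, w, hvw, hvX, hwX, hvA, hwA, hv, hw, hv2, hw2⟩, hcard⟩ :=
      ring_main A X c hXX hAX h2 h3
    have hO : ∀ v, v ∈ X → v ∉ A → (∃ u ∈ A, v ∈ nbs u) → v ∈ bO := by
      rintro v hvX hvA ⟨u, hu, huv⟩
      refine Finset.mem_filter.2 ⟨bdry_mem.2 ⟨⟨u, Finset.mem_union_left _ hu, huv⟩, ?_⟩,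
        hXcls v hvX⟩
      intro h
      rcases Finset.mem_union.1 h with h | h
      · exact hvA h
      · exact hXcls v hvX (hQCc v h)
    exact ⟨⟨v, w, hvw, hO v hvX hvA hv2, hO w hwX hwA hw2, hv, hw⟩, hcard⟩
  -- double counting of single ends
  have dc : ∀ D ⊆ bC, 2 * D.card ≤ ∑ v ∈ bO, (D.filter (fun c => SE A v c)).card := by
    intro D hD
    have h1 := Finset.sum_card_bipartiteAbove_eq_sum_card_bipartiteBelow
      (s := bO) (t := D) (fun v c => SE A v c)
    have h2 : ∑ v ∈ bO, (D.filter (fun c => SE A v c)).card =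
        ∑ c ∈ D, (bO.filter (fun v => SE A v c)).card := h1
    rw [h2]
    have h3 : ∀ c ∈ D, 2 ≤ (bO.filter (fun v => SE A v c)).card := by
      intro c hc
      obtain ⟨⟨v, w, hvw, hv, hw, hsv, hsw⟩, -⟩ := hring c (hD hc)
      have : ({v, w} : Finset Pt) ⊆ bO.filter (fun v => SE A v c) := by
        intro x hx
        rcases Finset.mem_insert.1 hx with rfl | hx
        · exact Finset.mem_filter.2 ⟨hv, hsv⟩
        · rw [Finset.mem_singleton.1 hx]
          exact Finset.mem_filter.2 ⟨hw, hsw⟩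
      calc 2 = ({v, w} : Finset Pt).card := (Finset.card_pair hvw).symm
        _ ≤ _ := Finset.card_le_card this
    have := Finset.sum_le_sum h3
    rw [Finset.sum_const, smul_eq_mul] at this
    omega
  have hbCO : bC.card ≤ bO.card := by
    have h1 := dc bC (Finset.Subset.refl _)
    have h2 : ∑ v ∈ bO, (bC.filter (fun c => SE A v c)).card ≤ ∑ v ∈ bO, 2 := by
      apply Finset.sum_le_sum
      intro v hv
      exact SE_card A (Finset.mem_filter.1 hv).2 bC (fun c hc => (hbC1 c hc).1)
    rw [Finset.sum_const, smul_eq_mul] at h2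
    omega
  -- the old centres
  set Dy : Finset Pt := bC.filter (fun c => Young f c t) with hDy
  set Do : Finset Pt := bC.filter (fun c => ¬ Young f c t) with hDo
  have hDyDo : bC.card = Dy.card + Do.card := by
    rw [hDy, hDo, Finset.card_filter_add_card_filter_not]
  have hDoK : Do.card ≤ K'.card := by
    apply Finset.card_le_card
    intro c hc
    obtain ⟨hc1, hc2⟩ := Finset.mem_filter.1 hc
    obtain ⟨h1, h2, h3, h4⟩ := hbC1 c hc1
    have h5 : ¬ (W c ≤ t → ∀ u ∈ nbs c, u ∉ f.S (t - W c)) := fun h => hc2 ⟨h2, h⟩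
    push Not at h5
    obtain ⟨h6, u, hu, huS⟩ := h5
    have h7 := f.r2 (t - W c) u huS c (nbs_symm hu) h1 (by omega)
    have h8 : t - W c + W c - 1 = t - 1 := by omega
    rw [h8] at h7
    have hW2 := hW c
    rcases h7 with h7 | h7
    · exfalso
      apply h4
      rw [hF1, if_pos (by omega)]
      exact h7
    · exact monoK (by omega : t - 1 ≤ t + 1) h7
  -- the young centres
  have hDyL : 2 * Dy.card ≤ 2 * (A' \ A).card + leak f t := by
    have h1 := dc Dy (Finset.filter_subset _ _)
    have h2 : ∑ v ∈ bO, (Dy.filter (fun c => SE A v c)).card ≤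
        ∑ v ∈ (A' \ A) ∪ P', (if v ∈ P' then ((cnb v).filter (fun c => Young f c t)).card
          else 2) := by
      have h3 : ∀ v ∈ bO, (Dy.filter (fun c => SE A v c)).card ≤
          (if v ∈ P' then ((cnb v).filter (fun c => Young f c t)).card else 2) := by
        intro v hv
        split_ifs with h
        · apply Finset.card_le_card
          intro c hc
          obtain ⟨hc1, hc2⟩ := Finset.mem_filter.1 hc
          obtain ⟨hc3, hc4⟩ := Finset.mem_filter.1 hc1
          obtain ⟨i, hi, -⟩ := hc2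
          exact Finset.mem_filter.2 ⟨Finset.mem_filter.2
            ⟨nbs_symm (mem_nbs.2 ⟨i, hi⟩), (hbC1 c hc3).1⟩, hc4⟩
        · exact SE_card A (Finset.mem_filter.1 hv).2 Dy
            (fun c hc => (hbC1 c (Finset.mem_filter.1 hc).1).1)
      refine le_trans (Finset.sum_le_sum h3) (Finset.sum_le_sum_of_subset ?_)
      intro v hv
      obtain ⟨h1, h2⟩ := hbO1 v hv
      rcases Finset.mem_union.1 h1 with h | h
      · exact Finset.mem_union_left _ (Finset.mem_sdiff.2 ⟨h, h2⟩)
      · exact Finset.mem_union_right _ h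
    have hdj : Disjoint (A' \ A) P' := by
      rw [Finset.disjoint_left]
      intro v hv hp
      exact Finset.disjoint_left.1 (f.disj (t + 1)) (Finset.mem_sdiff.1 hv).1 hp
    rw [Finset.sum_union hdj] at h2
    have h4 : ∑ v ∈ A' \ A, (if v ∈ P' then ((cnb v).filter (fun c => Young f c t)).card
        else 2) = 2 * (A' \ A).card := by
      rw [Finset.sum_congr rfl (g := fun _ => 2), Finset.sum_const, smul_eq_mul, mul_comm]
      intro v hv
      rw [if_neg (fun hp => Finset.disjoint_left.1 hdj hv hp)]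
    have h5 : ∑ v ∈ P', (if v ∈ P' then ((cnb v).filter (fun c => Young f c t)).card
        else 2) = leak f t := by
      unfold leak
      apply Finset.sum_congr rfl
      intro v hv
      rw [if_pos hv]
    rw [h4, h5] at h2
    omega
  have hn : A.card + (A' \ A).card = A'.card := by
    rw [Finset.card_sdiff_of_subset hAA']
    have := Finset.card_le_card hAA'
    omega
  -- the size of Q
  have hQcard : Q.card = A.card + QC.card := Finset.card_union_of_disjoint hdisj
  have hinc : 3 * A.card ≤ 6 * QC.card + 3 * bC.card := by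
    have h1 := Finset.sum_card_bipartiteAbove_eq_sum_card_bipartiteBelow
      (s := A) (t := QC ∪ bC) (fun v c => c ∈ nbs v)
    have h2 : ∑ v ∈ A, ((QC ∪ bC).filter (fun c => c ∈ nbs v)).card =
        ∑ c ∈ QC ∪ bC, (A.filter (fun v => c ∈ nbs v)).card := h1
    have h3 : ∀ v ∈ A, 3 ≤ ((QC ∪ bC).filter (fun c => c ∈ nbs v)).card := by
      intro v hv
      rw [← card_cnb (f.S_cls _ _ hv)]
      apply Finset.card_le_card
      intro c hc
      obtain ⟨hc1, hc2⟩ := Finset.mem_filter.1 hc
      refine Finset.mem_filter.2 ⟨?_, hc1⟩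
      by_cases hq : c ∈ QC
      · exact Finset.mem_union_left _ hq
      · apply Finset.mem_union_right
        refine Finset.mem_filter.2 ⟨bdry_mem.2 ⟨⟨v, Finset.mem_union_left _ hv, hc1⟩, ?_⟩, hc2⟩
        intro h
        rcases Finset.mem_union.1 h with h | h
        · exact f.S_cls _ _ h hc2
        · exact hq h
    have h4 := Finset.sum_le_sum h3
    rw [Finset.sum_const, smul_eq_mul, h2] at h4
    have h5 : ∑ c ∈ QC ∪ bC, (A.filter (fun v => c ∈ nbs v)).card ≤
        ∑ c ∈ QC, 6 + ∑ c ∈ bC, 3 := by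
      have hdj : Disjoint QC bC := by
        rw [Finset.disjoint_left]
        intro c hc hc2
        have := (bdry_mem.1 (Finset.mem_filter.1 hc2).1).2
        exact this (Finset.mem_union_right _ hc)
      rw [Finset.sum_union hdj]
      have hfl : ∀ c, A.filter (fun v => c ∈ nbs v) = (nbs c).filter (· ∈ A) := by
        intro c
        ext v
        simp only [Finset.mem_filter]
        constructor
        · rintro ⟨h1, h2⟩; exact ⟨nbs_symm h2, h1⟩
        · rintro ⟨h1, h2⟩; exact ⟨h2, nbs_symm h1⟩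
      apply Nat.add_le_add
      · apply Finset.sum_le_sum
        intro c _
        rw [hfl, ← card_nbs c]
        exact Finset.card_filter_le _ _
      · apply Finset.sum_le_sum
        intro c hc
        rw [hfl]
        exact (hring c hc).2
    rw [Finset.sum_const, Finset.sum_const, smul_eq_mul, smul_eq_mul] at h5
    omega
  have hiso := hI Q
  refine ⟨(bdry Q).card, ?_, ?_⟩
  · omega
  · omega

end Pool.Agent.H58.FF
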