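import Mathlib

/-!
Micro part of the girth five firefighter construction: abstract fire processes on the fine
triangular lattice `ℤ × ℤ`. The points of class `2` are the centres of the hexagons of a honeycomb,
the other points are its vertices.
-/

namespace Pool.Agent.H58.FF

open Classical

/-- Points of the fine triangular lattice. -/
abbrev Pt := ℤ × ℤ

/-- The point `p` is a hexagon centre (class two). -/
def isC (p : Pt) : Prop := (p.1 - p.2) % 3 = 2

/-- The six neighbours of a point. -/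
def nbs (p : Pt) : Finset Pt :=
  {(p.1 + 1, p.2), (p.1, p.2 + 1), (p.1 - 1, p.2 + 1), (p.1 - 1, p.2), (p.1, p.2 - 1),
    (p.1 + 1, p.2 - 1)}

/-- The hexagonal norm. -/
def nrm (p : Pt) : ℤ := max |p.1| (max |p.2| |p.1 + p.2|)

/-- Lattice distance. -/
def dst (p q : Pt) : ℤ := nrm (p - q)

/-- The outer vertex boundary of a finite set. -/
noncomputable def bdry (Q : Finset Pt) : Finset Pt := (Q.biUnion nbs) \ Q

/-- An abstract fire process up to time `T`, seen in a flat region around `p0`.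
`S t` = burnt honeycomb vertices, `P t` = honeycomb vertices that are guards touched by the fire,
`F t` = centres whose complex is completely burnt, `K t` = centres whose complex contains a touched
guard, always up to time `t`. `W c` is one more than the time that the complex of the centre `c`
needs to burn completely after the first vertex of its ring. -/
structure Fire (W : Pt → ℕ) (p0 : Pt) (T : ℕ) where
  S : ℕ → Finset Pt
  P : ℕ → Finset Pt
  F : ℕ → Finset Pt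
  K : ℕ → Finset Pt
  S_mono : ∀ t, S t ⊆ S (t + 1)
  P_mono : ∀ t, P t ⊆ P (t + 1)
  F_mono : ∀ t, F t ⊆ F (t + 1)
  K_mono : ∀ t, K t ⊆ K (t + 1)
  S_cls : ∀ t, ∀ p ∈ S t, ¬ isC p
  P_cls : ∀ t, ∀ p ∈ P t, ¬ isC p
  F_cls : ∀ t, ∀ p ∈ F t, isC p
  K_cls : ∀ t, ∀ p ∈ K t, isC p
  S_ball : ∀ t, ∀ p ∈ S t, dst p p0 ≤ t
  P_ball : ∀ t, ∀ p ∈ P t, dst p p0 ≤ t
  disj : ∀ t, Disjoint (S t) (P t)
  hall : ∀ t, t ≤ T → (P t).card + (K t).card ≤ t
  r1 : ∀ t, t + 1 ≤ T → ∀ u ∈ S t, ∀ v ∈ nbs u, ¬ isC v → v ∈ S (t + 1) ∨ v ∈ P (t + 1)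
  r2 : ∀ t, ∀ u ∈ S t, ∀ c ∈ nbs u, isC c → t + W c ≤ T + 1 →
    c ∈ F (t + W c - 1) ∨ c ∈ K (t + W c - 1)
  r3 : ∀ t, t + 2 ≤ T → ∀ c ∈ F t, ∀ v ∈ nbs c, v ∈ S (t + 2) ∨ v ∈ P (t + 2)

/-- The fire starts at the middle of the 2-path between the centre `a` and its ring vertex `o`. -/
def StartY {W : Pt → ℕ} {p0 : Pt} {T : ℕ} (f : Fire W p0 T) : Prop :=
  ∃ a o, isC a ∧ o ∈ nbs a ∧ dst a p0 ≤ 1 ∧ (a ∈ f.F 1 ∨ a ∈ f.K 1) ∧ (o ∈ f.S 1 ∨ o ∈ f.P 1)

/-- The fire starts at the centre `a`. -/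
def StartA {W : Pt → ℕ} {p0 : Pt} {T : ℕ} (f : Fire W p0 T) : Prop :=
  ∃ a, isC a ∧ dst a p0 ≤ 1 ∧ a ∈ f.F 0

/-- The fire starts at the honeycomb vertex `o`. -/
def StartO {W : Pt → ℕ} {p0 : Pt} {T : ℕ} (f : Fire W p0 T) : Prop :=
  ∃ o, ¬ isC o ∧ o ∈ f.S 0

/-- Centre neighbours of a point. -/
noncomputable def cnb (w : Pt) : Finset Pt := (nbs w).filter isC

/-- The centre `c` is young at time `t`: its ring burns, but did not burn at time `t - W c`. -/
def Young {W : Pt → ℕ} {p0 : Pt} {T : ℕ} (f : Fire W p0 T) (c : Pt) (t : ℕ) : Prop :=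
  (∃ u ∈ nbs c, u ∈ f.S t) ∧ (W c ≤ t → ∀ u ∈ nbs c, u ∉ f.S (t - W c))

/-- Twice the leak at time `t`. -/
noncomputable def leak {W : Pt → ℕ} {p0 : Pt} {T : ℕ} (f : Fire W p0 T) (t : ℕ) : ℕ :=
  ∑ w ∈ f.P (t + 1), ((cnb w).filter (fun c => Young f c t)).card

/-- Remaining young times of the centre `c`. -/
noncomputable def rem {W : Pt → ℕ} {p0 : Pt} {T : ℕ} (f : Fire W p0 T) (c : Pt) (t : ℕ) : ℕ :=
  ((Finset.Icc 1 (W c)).filter (fun i => i ≤ t → ∀ u ∈ nbs c, u ∉ f.S (t - i))).card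

/-- Twice the pending leaks. -/
noncomputable def pend {W : Pt → ℕ} {p0 : Pt} {T : ℕ} (f : Fire W p0 T) (t : ℕ) : ℕ :=
  ∑ w ∈ f.P t, ∑ c ∈ cnb w, rem f c t

/-- The potential; `l` = bound of the total (doubled) leak of one guard, `9` in the bulk and `21`
near the streets. -/
noncomputable def pot {W : Pt → ℕ} {p0 : Pt} {T : ℕ} (f : Fire W p0 T) (l : ℤ) (t : ℕ) : ℤ :=
  4 * ((f.S t).card : ℤ) - (pend f t : ℤ) - l * ((t : ℤ) - (f.P t).card - (f.K t).card)

/-- Thresholds of the potential at the times `0, ..., 8`. -/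
def tb : ℕ → ℤ
  | 2 => 20
  | 3 => 27
  | 4 => 34
  | 5 => 43
  | 6 => 52
  | 7 => 63
  | 8 => 74
  | _ => 1000

end Pool.Agent.H58.FF
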