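import Pool.Agent.H58.FF.Stm

/-!
Vertex isoperimetry in the triangular lattice: rows of a finite set.
-/

set_option autoImplicit false

namespace Pool.Agent.H58.FF

open Classical

/-! ### sequences of row lengths -/

/-- bound of a sum of row lengths -/
private def isoB (M : ℤ) : ℕ → ℤ → ℤ
  | 0, _ => 0
  | p + 1, D => isoB M p (D - 1) + min M (M + (D - 1))

private theorem isoB_mono (M : ℤ) (p : ℕ) : ∀ D E : ℤ, D ≤ E → isoB M p D ≤ isoB M p E := by
  induction p with
  | zero => intro D E _; exact le_refl _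
  | succ p ih =>
    intro D E h
    have h1 := ih (D - 1) (E - 1) (by omega)
    show isoB M p (D - 1) + min M (M + (D - 1)) ≤ isoB M p (E - 1) + min M (M + (E - 1))
    omega

private theorem isoB_le (M : ℤ) (p : ℕ) : ∀ D : ℤ, isoB M p D ≤ p * M := by
  induction p with
  | zero => intro D; show (0 : ℤ) ≤ _; simp
  | succ p ih =>
    intro D
    have h1 := ih (D - 1)
    have h2 : min M (M + (D - 1)) ≤ M := min_le_left _ _
    show isoB M p (D - 1) + min M (M + (D - 1)) ≤ _
    push_cast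
    linarith

private theorem isoB_neg (M : ℤ) (p : ℕ) : ∀ D : ℤ, D ≤ 0 →
    2 * isoB M p D ≤ 2 * p * M + 2 * p * D - p * (p + 1) := by
  induction p with
  | zero => intro D _; show 2 * (0 : ℤ) ≤ _; simp
  | succ p ih =>
    intro D hD
    have h1 := ih (D - 1) (by omega)
    have h2 : min M (M + (D - 1)) ≤ M + (D - 1) := min_le_right _ _
    show 2 * (isoB M p (D - 1) + min M (M + (D - 1))) ≤ _
    push_cast
    nlinarith

private theorem isoB_pos (M : ℤ) (p : ℕ) : ∀ D : ℤ, 0 ≤ D → D ≤ p →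
    2 * isoB M p D ≤ 2 * p * M - (p - D) * (p - D + 1) := by
  induction p with
  | zero =>
    intro D h0 h1
    have h2 : D = 0 := by
      push_cast at h1
      omega
    subst h2
    show 2 * (0 : ℤ) ≤ _
    simp
  | succ p ih =>
    intro D h0 h1
    rcases lt_or_eq_of_le h0 with h | h
    · have h2 := ih (D - 1) (by omega) (by push_cast at h1; omega)
      have h3 : min M (M + (D - 1)) ≤ M := min_le_left _ _
      show 2 * (isoB M p (D - 1) + min M (M + (D - 1))) ≤ _
      push_cast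
      nlinarith
    · subst h
      have h2 := isoB_neg M (p + 1) 0 (le_refl _)
      push_cast at h2 ⊢
      nlinarith

/-- number of nonempty rows -/
private noncomputable def isoP (a : ℕ → ℤ) (N : ℕ) : ℕ :=
  ∑ k ∈ Finset.range N, if 0 < a (k + 1) then 1 else 0

private theorem iso_seq (M : ℤ) (N : ℕ) : ∀ a c : ℕ → ℤ, (∀ k, 0 ≤ a k) → (∀ k, 0 ≤ c (k + 1)) →
    (∀ k, 0 < a (k + 1) → 2 ≤ c (k + 1)) → (∀ k, 0 < a k → a k + 1 ≤ c (k + 1) + a (k + 1)) →
    a N = 0 → (∀ k, a k ≤ M) →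
    (isoP a N : ℤ) ≤ ∑ k ∈ Finset.range N, c (k + 1) ∧
    (0 < a 0 → a 0 + 1 + isoP a N ≤ ∑ k ∈ Finset.range N, c (k + 1)) ∧
    ∑ k ∈ Finset.range N, a (k + 1) ≤
      isoB M (isoP a N) (∑ k ∈ Finset.range N, c (k + 1) - isoP a N - M - 1) := by
  induction N with
  | zero =>
    intro a c _ _ _ _ hN _
    refine ⟨?_, ?_, ?_⟩
    · simp [isoP]
    · intro h
      omega
    · simp [isoP, isoB]
  | succ N ih =>
    intro a c ha hc h2 h3 hN hM
    obtain ⟨i1, i2, i3⟩ := ih (fun k => a (k + 1)) (fun k => c (k + 1)) (fun k => ha _)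
      (fun k => hc _) (fun k => h2 _) (fun k => h3 _) hN (fun k => hM _)
    have eP : isoP a (N + 1) = isoP (fun k => a (k + 1)) N + if 0 < a 1 then 1 else 0 := by
      unfold isoP
      rw [Finset.sum_range_succ']
    have eC : ∑ k ∈ Finset.range (N + 1), c (k + 1) =
        ∑ k ∈ Finset.range N, c (k + 1 + 1) + c 1 := by
      rw [Finset.sum_range_succ']
    have eA : ∑ k ∈ Finset.range (N + 1), a (k + 1) =
        ∑ k ∈ Finset.range N, a (k + 1 + 1) + a 1 := by
      rw [Finset.sum_range_succ']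
    rw [eP, eC, eA]
    set U : ℤ := ∑ k ∈ Finset.range N, c (k + 1 + 1) with hU
    set A : ℤ := ∑ k ∈ Finset.range N, a (k + 1 + 1) with hA
    set p : ℕ := isoP (fun k => a (k + 1)) N with hp
    have g1 := h2 0
    have g2 := h3 0
    have g3 := hc 0
    have g4 := ha 1
    rw [zero_add] at g1 g2 g3 i2
    by_cases h1 : 0 < a 1
    · rw [if_pos h1]
      have g5 := g1 h1
      have g6 := i2 h1
      push_cast
      refine ⟨by omega, fun h0 => ?_, ?_⟩
      · have g7 := g2 h0
        omega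
      · have e1 : isoB M (p + 1) (U + c 1 - (↑p + 1) - M - 1) =
            isoB M p (U + c 1 - (↑p + 1) - M - 1 - 1) +
              min M (M + (U + c 1 - (↑p + 1) - M - 1 - 1)) := rfl
        rw [e1]
        have g8 := isoB_mono M p (U - p - M - 1) (U + c 1 - (↑p + 1) - M - 1 - 1) (by omega)
        have g9 := hM 1
        have g10 : a 1 ≤ min M (M + (U + c 1 - (↑p + 1) - M - 1 - 1)) :=
          le_min g9 (by omega)
        linarith
    · rw [if_neg h1]
      have g5 : a 1 = 0 := by omega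
      push_cast
      refine ⟨by omega, fun h0 => ?_, ?_⟩
      · have g7 := g2 h0
        omega
      · rw [g5]
        have g8 := isoB_mono M p (U - p - M - 1) (U + c 1 - (↑p + 0) - M - 1) (by omega)
        simp only [add_zero] at g8 ⊢
        linarith

/-- the arithmetic at the end -/
private theorem iso_arith (M A A' p p' D D' β q : ℤ) (hM : 0 ≤ M) (hp : 0 ≤ p) (hp' : 0 ≤ p')
    (hD : 0 ≤ D) (hD' : 0 ≤ D') (h1 : A ≤ p * M) (h1' : A' ≤ p' * M)
    (h2 : D ≤ p → 2 * A ≤ 2 * p * M - (p - D) * (p - D + 1))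
    (h2' : D' ≤ p' → 2 * A' ≤ 2 * p' * M - (p' - D') * (p' - D' + 1))
    (hq : q = M + A + A') (hβ : 4 + 2 * M + p + p' + D + D' ≤ β) :
    12 * q + 6 * β ≤ β ^ 2 + 12 := by
  obtain ⟨s, hs0, hs1, hs2⟩ : ∃ s : ℤ, 0 ≤ s ∧ p - D ≤ s ∧ 2 * A ≤ 2 * p * M - s * (s + 1) := by
    rcases le_or_gt D p with h | h
    · exact ⟨p - D, by omega, le_refl _, h2 h⟩
    · exact ⟨0, le_refl _, by omega, by linarith⟩
  obtain ⟨s', hs0', hs1', hs2'⟩ : ∃ s : ℤ, 0 ≤ s ∧ p' - D' ≤ s ∧
      2 * A' ≤ 2 * p' * M - s * (s + 1) := by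
    rcases le_or_gt D' p' with h | h
    · exact ⟨p' - D', by omega, le_refl _, h2' h⟩
    · exact ⟨0, le_refl _, by omega, by linarith⟩
  -- the sums
  obtain ⟨P, hP⟩ : ∃ P : ℤ, P = 1 + p + p' := ⟨_, rfl⟩
  obtain ⟨d, hd⟩ : ∃ d : ℤ, d = D + D' := ⟨_, rfl⟩
  obtain ⟨t, ht⟩ : ∃ t : ℤ, t = s + s' := ⟨_, rfl⟩
  have ht0 : 0 ≤ t := by omega
  have ht1 : P - 1 - d ≤ t := by omega
  have hP0 : 1 ≤ P := by omega
  have hd0 : 0 ≤ d := by omega
  have hq4 : 4 * q ≤ 4 * P * M - t ^ 2 - 2 * t := by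
    rw [hq, hP, ht]
    nlinarith [sq_nonneg (s - s')]
  have hy : 2 * M + P + d ≤ β - 3 := by omega
  have hy2 : (2 * M + P + d) ^ 2 ≤ (β - 3) ^ 2 := by
    apply pow_le_pow_left₀ (by omega) hy
  have key : 12 * P * M - 3 * t ^ 2 - 6 * t ≤ (2 * M + P + d) ^ 2 + 3 := by
    rcases le_or_gt d (P - 1) with h | h
    · have h3 : (P - 1 - d) ^ 2 ≤ t ^ 2 := pow_le_pow_left₀ (by omega) ht1 2
      nlinarith [sq_nonneg (2 * (M - P) + d), sq_nonneg d]
    · have h3 : P ≤ d := by omega
      have h4 : (2 * M + 2 * P) ^ 2 ≤ (2 * M + P + d) ^ 2 :=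
        pow_le_pow_left₀ (by omega) (by omega) 2
      nlinarith [sq_nonneg (2 * M - P), sq_nonneg P, sq_nonneg t]
  nlinarith

/-! ### rows -/

/-- the row of a set -/
private noncomputable def row (Q : Finset Pt) (j : ℤ) : Finset ℤ :=
  (Q.filter fun p => p.2 = j).image Prod.fst

private theorem mem_row {Q : Finset Pt} {j x : ℤ} : x ∈ row Q j ↔ (x, j) ∈ Q := by
  unfold row
  rw [Finset.mem_image]
  constructor
  · rintro ⟨⟨a, b⟩, h, rfl⟩
    obtain ⟨h1, h2⟩ := Finset.mem_filter.1 h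
    have h3 : b = j := h2
    subst h3
    exact h1
  · intro h
    exact ⟨(x, j), Finset.mem_filter.2 ⟨h, rfl⟩, rfl⟩

private theorem card_row (Q : Finset Pt) (j : ℤ) :
    (row Q j).card = (Q.filter fun p => p.2 = j).card := by
  unfold row
  refine Finset.card_image_of_injOn ?_
  rintro ⟨a, b⟩ h ⟨a', b'⟩ h' e
  have h1 : b = j := (Finset.mem_filter.1 (Finset.mem_coe.1 h)).2
  have h2 : b' = j := (Finset.mem_filter.1 (Finset.mem_coe.1 h')).2
  have h3 : a = a' := e
  rw [h1, h2, h3]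

private theorem sum_row_le (Q : Finset Pt) (J : Finset ℤ) :
    ∑ j ∈ J, (row Q j).card ≤ Q.card := by
  have h1 : ∑ j ∈ J, (row Q j).card = (Q.filter fun p => p.2 ∈ J).card := by
    rw [← Finset.sum_card_fiberwise_eq_card_filter]
    exact Finset.sum_congr rfl fun j _ => card_row Q j
  rw [h1]
  exact Finset.card_filter_le _ _

private theorem sum_row_eq (Q : Finset Pt) (J : Finset ℤ) (h : ∀ p ∈ Q, p.2 ∈ J) :
    ∑ j ∈ J, (row Q j).card = Q.card := by
  rw [Finset.card_eq_sum_card_fiberwise (f := Prod.snd) (s := Q) (t := J)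
    (fun p hp => h p (Finset.mem_coe.1 hp))]
  exact Finset.sum_congr rfl fun j _ => card_row Q j

private theorem mem_or {Q : Finset Pt} {p q : Pt} (hp : p ∈ Q) (hq : q ∈ nbs p) :
    q ∈ Q ∨ q ∈ bdry Q := by
  by_cases h : q ∈ Q
  · exact Or.inl h
  · exact Or.inr (Finset.mem_sdiff.2 ⟨Finset.mem_biUnion.2 ⟨p, hp, hq⟩, h⟩)

private theorem row_two {Q : Finset Pt} {j : ℤ} (h : (row Q j).Nonempty) :
    2 ≤ (row (bdry Q) j).card := by
  set a := (row Q j).min' h with ha
  set b := (row Q j).max' h with hb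
  have h1 : a ∈ row Q j := Finset.min'_mem _ h
  have h2 : b ∈ row Q j := Finset.max'_mem _ h
  have hab : a ≤ b := Finset.min'_le _ _ h2
  have m1 : a - 1 ∈ row (bdry Q) j := by
    rw [mem_row]
    rcases mem_or (q := (a - 1, j)) (mem_row.1 h1) (by simp [nbs]) with h3 | h3
    · have h4 := Finset.min'_le (row Q j) (a - 1) (mem_row.2 h3)
      rw [← ha] at h4
      omega
    · exact h3
  have m2 : b + 1 ∈ row (bdry Q) j := by
    rw [mem_row]
    rcases mem_or (q := (b + 1, j)) (mem_row.1 h2) (by simp [nbs]) with h3 | h3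
    · have h4 := Finset.le_max' (row Q j) (b + 1) (mem_row.2 h3)
      rw [← hb] at h4
      omega
    · exact h3
  have h5 : ({a - 1, b + 1} : Finset ℤ) ⊆ row (bdry Q) j := by
    intro x hx
    rcases Finset.mem_insert.1 hx with h6 | h6
    · rw [h6]; exact m1
    · rw [Finset.mem_singleton.1 h6]; exact m2
  have h6 := Finset.card_le_card h5
  rwa [Finset.card_pair (by omega)] at h6

private theorem row_up {Q : Finset Pt} {i j : ℤ} (hij : j = i + 1) (h : (row Q i).Nonempty) :
    (row Q i).card + 1 ≤ (row (bdry Q) j).card + (row Q j).card := by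
  subst hij
  set a := (row Q i).min' h with ha
  have h1 : a ∈ row Q i := Finset.min'_mem _ h
  have h2 : a - 1 ∉ row Q i := by
    intro h3
    have h4 := Finset.min'_le (row Q i) (a - 1) h3
    rw [← ha] at h4
    omega
  have h5 : insert (a - 1) (row Q i) ⊆ row (bdry Q) (i + 1) ∪ row Q (i + 1) := by
    intro x hx
    rw [Finset.mem_union, mem_row, mem_row]
    rcases Finset.mem_insert.1 hx with h6 | h6
    · rw [h6]
      exact (mem_or (q := (a - 1, i + 1)) (mem_row.1 h1) (by simp [nbs])).symm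
    · exact (mem_or (q := (x, i + 1)) (mem_row.1 h6) (by simp [nbs])).symm
  have h6 := (Finset.card_le_card h5).trans (Finset.card_union_le _ _)
  rwa [Finset.card_insert_of_notMem h2] at h6

private theorem row_down {Q : Finset Pt} {i j : ℤ} (hij : j = i - 1) (h : (row Q i).Nonempty) :
    (row Q i).card + 1 ≤ (row (bdry Q) j).card + (row Q j).card := by
  subst hij
  set a := (row Q i).max' h with ha
  have h1 : a ∈ row Q i := Finset.max'_mem _ h
  have h2 : a + 1 ∉ row Q i := by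
    intro h3
    have h4 := Finset.le_max' (row Q i) (a + 1) h3
    rw [← ha] at h4
    omega
  have h5 : insert (a + 1) (row Q i) ⊆ row (bdry Q) (i - 1) ∪ row Q (i - 1) := by
    intro x hx
    rw [Finset.mem_union, mem_row, mem_row]
    rcases Finset.mem_insert.1 hx with h6 | h6
    · rw [h6]
      exact (mem_or (q := (a + 1, i - 1)) (mem_row.1 h1) (by simp [nbs])).symm
    · exact (mem_or (q := (x, i - 1)) (mem_row.1 h6) (by simp [nbs])).symm
  have h6 := (Finset.card_le_card h5).trans (Finset.card_union_le _ _)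
  rwa [Finset.card_insert_of_notMem h2] at h6

private theorem sum_Icc_two (f : ℤ → ℤ) (r : ℤ) (N : ℕ) :
    ∑ j ∈ Finset.Icc (r - N) (r + N), f j = f r +
      ∑ k ∈ Finset.range N, f (r + ((k + 1 : ℕ) : ℤ)) +
      ∑ k ∈ Finset.range N, f (r - ((k + 1 : ℕ) : ℤ)) := by
  induction N with
  | zero =>
    simp
  | succ N ih =>
    have h1 : Finset.Icc (r - ((N + 1 : ℕ) : ℤ)) (r + ((N + 1 : ℕ) : ℤ)) =
        insert (r + ((N + 1 : ℕ) : ℤ)) (insert (r - ((N + 1 : ℕ) : ℤ))
          (Finset.Icc (r - (N : ℤ)) (r + (N : ℤ)))) := by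
      ext x
      simp only [Finset.mem_insert, Finset.mem_Icc]
      push_cast
      omega
    rw [h1, Finset.sum_insert, Finset.sum_insert, ih, Finset.sum_range_succ,
      Finset.sum_range_succ]
    · ring
    · rw [Finset.mem_Icc]
      push_cast
      omega
    · rw [Finset.mem_insert, Finset.mem_Icc]
      push_cast
      omega

/-- vertex isoperimetry in the triangular lattice -/
theorem siso : SIso := by
  intro Q
  rcases Finset.eq_empty_or_nonempty Q with rfl | hQ
  · have h1 : bdry ∅ = ∅ := by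
      unfold bdry
      simp
    rw [h1]
    simp
  -- the longest row
  obtain ⟨r, hr, hmax⟩ := Finset.exists_max_image (Q.image Prod.snd) (fun j => (row Q j).card)
    (hQ.image _)
  have hrow0 : ∀ j, j ∉ Q.image Prod.snd → (row Q j).card = 0 := by
    intro j hj
    rw [Finset.card_eq_zero, Finset.eq_empty_iff_forall_notMem]
    intro x hx
    exact hj (Finset.mem_image.2 ⟨(x, j), mem_row.1 hx, rfl⟩)
  have hM : ∀ j, (row Q j).card ≤ (row Q r).card := by
    intro j
    by_cases hj : j ∈ Q.image Prod.snd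
    · exact hmax j hj
    · rw [hrow0 j hj]
      exact Nat.zero_le _
  set N : ℕ := Q.sup (fun p => (p.2 - r).natAbs) + 1 with hN
  have hNj : ∀ j, j ∈ Q.image Prod.snd → (j - r).natAbs < N := by
    intro j hj
    obtain ⟨p, hp, rfl⟩ := Finset.mem_image.1 hj
    exact Nat.lt_succ_of_le (Finset.le_sup (f := fun p : Pt => (p.2 - r).natAbs) hp)
  have hz : ∀ j : ℤ, N ≤ (j - r).natAbs → (row Q j).card = 0 := fun j hj =>
    hrow0 j fun h => absurd (hNj j h) (not_lt.2 hj)
  have hne : ∀ j, 0 < ((row Q j).card : ℤ) → (row Q j).Nonempty := fun j hj =>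
    Finset.card_pos.1 (by exact_mod_cast hj)
  -- above
  obtain ⟨-, u2, u3⟩ := iso_seq ((row Q r).card : ℤ) N (fun k => ((row Q (r + (k : ℤ))).card : ℤ))
    (fun k => ((row (bdry Q) (r + (k : ℤ))).card : ℤ)) (fun k => Nat.cast_nonneg _)
    (fun k => Nat.cast_nonneg _)
    (fun k hk => by exact_mod_cast row_two (hne _ hk))
    (fun k hk => by
      have h1 := row_up (Q := Q) (i := r + (k : ℤ)) (j := r + ((k + 1 : ℕ) : ℤ))
        (by push_cast; ring) (hne _ hk)
      exact_mod_cast h1)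
    (by
      have h1 := hz (r + (N : ℤ)) (by omega)
      exact_mod_cast h1)
    (fun k => by exact_mod_cast hM _)
  obtain ⟨-, v2, v3⟩ := iso_seq ((row Q r).card : ℤ) N (fun k => ((row Q (r - (k : ℤ))).card : ℤ))
    (fun k => ((row (bdry Q) (r - (k : ℤ))).card : ℤ)) (fun k => Nat.cast_nonneg _)
    (fun k => Nat.cast_nonneg _)
    (fun k hk => by exact_mod_cast row_two (hne _ hk))
    (fun k hk => by
      have h1 := row_down (Q := Q) (i := r - (k : ℤ)) (j := r - ((k + 1 : ℕ) : ℤ))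
        (by push_cast; ring) (hne _ hk)
      exact_mod_cast h1)
    (by
      have h1 := hz (r - (N : ℤ)) (by omega)
      exact_mod_cast h1)
    (fun k => by exact_mod_cast hM _)
  have hr0 : (row Q r).Nonempty := by
    obtain ⟨p, hp, hpr⟩ := Finset.mem_image.1 hr
    refine ⟨p.1, mem_row.2 ?_⟩
    rw [← hpr]
    exact hp
  have hMpos : 0 < ((row Q r).card : ℤ) := by exact_mod_cast hr0.card_pos
  have hc0 : (2 : ℤ) ≤ ((row (bdry Q) r).card : ℤ) := by exact_mod_cast row_two hr0
  simp only [Nat.cast_zero, add_zero, sub_zero] at u2 v2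
  have u2' := u2 hMpos
  have v2' := v2 hMpos
  -- the sums
  have hsumQ : (Q.card : ℤ) = ∑ j ∈ Finset.Icc (r - (N : ℤ)) (r + N), ((row Q j).card : ℤ) := by
    rw [← sum_row_eq Q (Finset.Icc (r - (N : ℤ)) (r + N)) (fun p hp => by
      have h1 := hNj p.2 (Finset.mem_image_of_mem _ hp)
      rw [Finset.mem_Icc]
      omega)]
    push_cast
    rfl
  have hsumB : ∑ j ∈ Finset.Icc (r - (N : ℤ)) (r + N), ((row (bdry Q) j).card : ℤ) ≤
      ((bdry Q).card : ℤ) := by
    exact_mod_cast sum_row_le (bdry Q) (Finset.Icc (r - (N : ℤ)) (r + N))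
  rw [sum_Icc_two] at hsumQ hsumB
  set M : ℤ := ((row Q r).card : ℤ) with hMdef
  set Uu : ℤ := ∑ k ∈ Finset.range N, ((row (bdry Q) (r + ((k + 1 : ℕ) : ℤ))).card : ℤ) with hUu
  set Ud : ℤ := ∑ k ∈ Finset.range N, ((row (bdry Q) (r - ((k + 1 : ℕ) : ℤ))).card : ℤ) with hUd
  set Au : ℤ := ∑ k ∈ Finset.range N, ((row Q (r + ((k + 1 : ℕ) : ℤ))).card : ℤ) with hAu
  set Ad : ℤ := ∑ k ∈ Finset.range N, ((row Q (r - ((k + 1 : ℕ) : ℤ))).card : ℤ) with hAd
  set pu : ℕ := isoP (fun k => ((row Q (r + (k : ℤ))).card : ℤ)) N with hpu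
  set pd : ℕ := isoP (fun k => ((row Q (r - (k : ℤ))).card : ℤ)) N with hpd
  have key := iso_arith M Au Ad pu pd (Uu - pu - M - 1) (Ud - pd - M - 1) ((bdry Q).card : ℤ)
    (Q.card : ℤ) hMpos.le (Nat.cast_nonneg _) (Nat.cast_nonneg _) (by linarith) (by linarith)
    (u3.trans (isoB_le _ _ _)) (v3.trans (isoB_le _ _ _))
    (fun h => (mul_le_mul_of_nonneg_left u3 (by norm_num)).trans
      (isoB_pos M pu _ (by linarith) h))
    (fun h => (mul_le_mul_of_nonneg_left v3 (by norm_num)).trans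
      (isoB_pos M pd _ (by linarith) h))
    hsumQ (by linarith)
  exact_mod_cast key

end Pool.Agent.H58.FF
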