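import Pool.Agent.H58.FF.Stm

/-!
Leaks against pending leaks.
-/

namespace Pool.Agent.H58.FF

open Classical

theorem pd_mono {W : Pt → ℕ} {p0 : Pt} {T : ℕ} (f : Fire W p0 T) {s t : ℕ} (h : s ≤ t) :
    f.S s ⊆ f.S t := by
  induction h with
  | refl => exact Finset.Subset.refl _
  | step _ ih => exact ih.trans (f.S_mono _)

theorem pd_rem_le {W : Pt → ℕ} {p0 : Pt} {T : ℕ} (f : Fire W p0 T) (c : Pt) (t : ℕ) :
    rem f c t ≤ W c := by
  unfold rem
  refine (Finset.card_filter_le _ _).trans ?_
  simp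

theorem pd_rem_step {W : Pt → ℕ} {p0 : Pt} {T : ℕ} (f : Fire W p0 T) (c : Pt) (t : ℕ)
    (hW : 1 ≤ W c) :
    rem f c (t + 1) + (if Young f c t then 1 else 0) ≤ rem f c t := by
  by_cases hm : ∃ u ∈ nbs c, u ∈ f.S t
  · have hinj : ((((Finset.Icc 1 (W c)).filter
        (fun i => i ≤ t + 1 → ∀ u ∈ nbs c, u ∉ f.S (t + 1 - i))).image (fun i => i - 1)).card) =
        rem f c (t + 1) := by
      unfold rem
      refine Finset.card_image_of_injOn ?_
      intro i hi j hj hij
      have hi1 := (Finset.mem_Icc.1 (Finset.mem_filter.1 (Finset.mem_coe.1 hi)).1).1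
      have hj1 := (Finset.mem_Icc.1 (Finset.mem_filter.1 (Finset.mem_coe.1 hj)).1).1
      simp only at hij
      omega
    have hsub : ((Finset.Icc 1 (W c)).filter
        (fun i => i ≤ t + 1 → ∀ u ∈ nbs c, u ∉ f.S (t + 1 - i))).image (fun i => i - 1) ⊆
        ((Finset.Icc 1 (W c)).filter
          (fun i => i ≤ t → ∀ u ∈ nbs c, u ∉ f.S (t - i))).erase (W c) := by
      intro j hj
      obtain ⟨i, hi, rfl⟩ := Finset.mem_image.1 hj
      obtain ⟨hi1, hi2⟩ := Finset.mem_filter.1 hi
      rw [Finset.mem_Icc] at hi1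
      have h1 : i ≠ 1 := by
        rintro rfl
        obtain ⟨u, hu, hu2⟩ := hm
        exact hi2 (by omega) u hu (by simpa using hu2)
      refine Finset.mem_erase.2 ⟨by omega, Finset.mem_filter.2 ⟨Finset.mem_Icc.2 ?_, ?_⟩⟩
      · omega
      · intro hle u hu
        have e : t - (i - 1) = t + 1 - i := by omega
        rw [e]
        exact hi2 (by omega) u hu
    have hcard := Finset.card_le_card hsub
    rw [hinj] at hcard
    by_cases hy : Young f c t
    · have hmem : W c ∈ (Finset.Icc 1 (W c)).filter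
          (fun i => i ≤ t → ∀ u ∈ nbs c, u ∉ f.S (t - i)) :=
        Finset.mem_filter.2 ⟨Finset.mem_Icc.2 ⟨hW, le_rfl⟩, hy.2⟩
      have h2 := Finset.card_erase_add_one hmem
      rw [if_pos hy]
      unfold rem
      unfold rem at hcard
      omega
    · rw [if_neg hy, add_zero]
      refine hcard.trans ?_
      unfold rem
      exact Finset.card_le_card (Finset.erase_subset _ _)
  · have hy : ¬ Young f c t := fun h => hm h.1
    rw [if_neg hy, add_zero]
    refine (pd_rem_le f c (t + 1)).trans ?_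
    have hall : (Finset.Icc 1 (W c)).filter
        (fun i => i ≤ t → ∀ u ∈ nbs c, u ∉ f.S (t - i)) = Finset.Icc 1 (W c) := by
      refine Finset.filter_true_of_mem ?_
      intro i _ _ u hu hu2
      exact hm ⟨u, hu, pd_mono f (Nat.sub_le t i) hu2⟩
    unfold rem
    rw [hall]
    simp

theorem spend : SPend := by
  intro W p0 T f hW l t hl
  have hleak : leak f t = ∑ w ∈ f.P (t + 1), ∑ c ∈ cnb w, (if Young f c t then 1 else 0) := by
    unfold leak
    refine Finset.sum_congr rfl ?_
    intro w _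
    rw [Finset.card_filter]
  have hsum : pend f (t + 1) + leak f t =
      ∑ w ∈ f.P (t + 1), ∑ c ∈ cnb w, (rem f c (t + 1) + (if Young f c t then 1 else 0)) := by
    rw [hleak]
    unfold pend
    rw [← Finset.sum_add_distrib]
    refine Finset.sum_congr rfl ?_
    intro w _
    rw [← Finset.sum_add_distrib]
  rw [hsum, ← Finset.sum_sdiff (f.P_mono t)]
  have h1 : ∑ w ∈ f.P (t + 1) \ f.P t,
      ∑ c ∈ cnb w, (rem f c (t + 1) + (if Young f c t then 1 else 0)) ≤
      (f.P (t + 1) \ f.P t).card * l := by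
    rw [← smul_eq_mul]
    refine Finset.sum_le_card_nsmul _ _ _ ?_
    intro w hw
    refine le_trans (Finset.sum_le_sum fun c _ => ?_) (hl w (Finset.mem_sdiff.1 hw).1)
    exact (pd_rem_step f c t (hW c)).trans (pd_rem_le f c t)
  have h2 : ∑ w ∈ f.P t,
      ∑ c ∈ cnb w, (rem f c (t + 1) + (if Young f c t then 1 else 0)) ≤ pend f t := by
    unfold pend
    exact Finset.sum_le_sum fun w _ => Finset.sum_le_sum fun c _ => pd_rem_step f c t (hW c)
  have h3 := Finset.card_sdiff_add_card_eq_card (f.P_mono t)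
  have h4 : l * (f.P (t + 1)).card = (f.P (t + 1) \ f.P t).card * l + l * (f.P t).card := by
    rw [← h3]
    ring
  omega

end Pool.Agent.H58.FF
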