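import Pool.Agent.H58.FF.StDefs

/-!
Start-up search of the micro part: bits of masks, lists of candidates, enumeration of subsets.
-/

set_option autoImplicit false

namespace Pool.Agent.H58.FF.St

open Classical

theorem frc_eq (n : ℕ) (k : ℕ → Bool) : frc n k = k n := by cases n <;> rfl

theorem bt_true {b x y : Bool} (h : bt b x y = true) :
    (b = true ∧ x = true) ∨ (b = false ∧ y = true) := by
  cases b
  · exact Or.inr ⟨rfl, h⟩
  · exact Or.inl ⟨rfl, h⟩

/-- Neighbouring indices. -/
def Adj (i j : ℕ) : Prop :=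
  j = i + 1 ∨ j = i + 17 ∨ j = i + 16 ∨ i = j + 1 ∨ i = j + 17 ∨ i = j + 16

theorem nbr_bit {x j : ℕ} (h : (nbr x).testBit j = true) : ∃ i, x.testBit i = true ∧ Adj i j := by
  have h1 : (((x ||| (x <<< 1)) <<< 16 ||| (x ||| (x <<< 1)) >>> 17) |||
      (x <<< 1 ||| x >>> 1)).testBit j = true := h
  simp only [Nat.testBit_or, Nat.testBit_shiftLeft, Nat.testBit_shiftRight, Bool.or_eq_true,
    Bool.and_eq_true, decide_eq_true_eq] at h1
  rcases h1 with (⟨h2, h1 | ⟨h3, h1⟩⟩ | h1 | ⟨h2, h1⟩) | ⟨h2, h1⟩ | h1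
  · exact ⟨j - 16, h1, by unfold Adj; omega⟩
  · exact ⟨j - 16 - 1, h1, by unfold Adj; omega⟩
  · exact ⟨17 + j, h1, by unfold Adj; omega⟩
  · exact ⟨17 + j - 1, h1, by unfold Adj; omega⟩
  · exact ⟨j - 1, h1, by unfold Adj; omega⟩
  · exact ⟨1 + j, h1, by unfold Adj; omega⟩

theorem sl_bit (x : ℕ) {j : ℕ} (hj : 64 ≤ j) : (sl x).testBit j = x.testBit j := by
  have h1 : sl x = x ^^^ (x % 1152921504606846883) := rfl
  have h2 : x % 1152921504606846883 < 2 ^ j := by
    calc x % 1152921504606846883 < 1152921504606846883 := Nat.mod_lt _ (by norm_num)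
      _ ≤ 2 ^ 64 := by norm_num
      _ ≤ 2 ^ j := Nat.pow_le_pow_right (by norm_num) hj
  rw [h1, Nat.testBit_xor, Nat.testBit_lt_two_pow h2, Bool.xor_false]

theorem dif_bit (x e j : ℕ) : (dif x e).testBit j = (x.testBit j && !e.testBit j) := by
  have h1 : dif x e = x ^^^ (x &&& e) := rfl
  rw [h1, Nat.testBit_xor, Nat.testBit_and]
  cases x.testBit j <;> cases e.testBit j <;> rfl

theorem land_bit (x e j : ℕ) : (Nat.land x e).testBit j = (x.testBit j && e.testBit j) :=
  Nat.testBit_and x e j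

theorem lxor_bit (x e j : ℕ) : (Nat.xor x e).testBit j = (x.testBit j ^^ e.testBit j) :=
  Nat.testBit_xor x e j

theorem low_bit : ∀ q : ℕ, 0 < q → ∃ j, q.testBit j = true ∧
    ∀ i, (q &&& (q - 1)).testBit i = (q.testBit i && decide (i ≠ j)) := by
  intro q
  induction q using Nat.strong_induction_on with
  | _ q ih =>
    intro hq
    rcases Nat.even_or_odd' q with ⟨m, rfl | rfl⟩
    · obtain ⟨j, hj, h⟩ := ih m (by omega) (by omega)
      refine ⟨j + 1, ?_, ?_⟩
      · rw [Nat.testBit_succ, Nat.mul_div_cancel_left m (by norm_num)]; exact hj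
      · intro i
        cases i with
        | zero =>
          rw [Nat.testBit_and, Nat.testBit_zero, Nat.testBit_zero]
          simp
        | succ i =>
          have h1 : (2 * m - 1) / 2 = m - 1 := by omega
          have h2 := h i
          rw [Nat.testBit_and] at h2
          rw [Nat.testBit_and, Nat.testBit_succ, Nat.testBit_succ, h1,
            Nat.mul_div_cancel_left m (by norm_num), h2]
          by_cases hij : i = j <;> simp [hij]
    · refine ⟨0, ?_, ?_⟩
      · rw [Nat.testBit_zero]; simp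
      · intro i
        cases i with
        | zero =>
          rw [Nat.testBit_and, Nat.testBit_zero, Nat.testBit_zero]
          simp
        | succ i =>
          have h1 : (2 * m + 1 - 1) / 2 = m := by omega
          have h2 : (2 * m + 1) / 2 = m := by omega
          rw [Nat.testBit_and, Nat.testBit_succ, Nat.testBit_succ, h1, h2]
          simp

theorem high_bit {x : ℕ} (hx : 18446744073709551615 < x) : ∃ j, 64 ≤ j ∧ x.testBit j = true ∧
    ∀ i, 64 ≤ i → (x &&& (x - 18446744073709551616)).testBit i =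
      (x.testBit i && decide (i ≠ j)) := by
  have hq : 0 < x / 2 ^ 64 := Nat.div_pos (by norm_num; omega) (by norm_num)
  obtain ⟨j, hj, h⟩ := low_bit (x / 2 ^ 64) hq
  have h64 : ∀ i, 64 ≤ i → ∀ z : ℕ, z.testBit i = (z / 2 ^ 64).testBit (i - 64) := by
    intro i hi z
    rw [Nat.testBit_div_two_pow]
    congr 1
    omega
  refine ⟨j + 64, by omega, ?_, ?_⟩
  · rw [h64 _ (by omega)]
    simpa using hj
  · intro i hi
    rw [Nat.testBit_and, h64 i hi x, h64 i hi (x - 18446744073709551616)]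
    have h1 : (x - 18446744073709551616) / 2 ^ 64 = x / 2 ^ 64 - 1 := by
      norm_num; omega
    have h2 := h (i - 64)
    rw [Nat.testBit_and] at h2
    rw [h1, h2]
    congr 1
    simp only [ne_eq, decide_not, Bool.not_eq_eq_eq_not, Bool.not_not]
    rw [decide_eq_decide]
    omega

/-- The bits of a mask from `64` on. -/
def bs (x : ℕ) : Finset ℕ := (Finset.range x).filter (fun j => 64 ≤ j ∧ x.testBit j = true)

theorem mem_bs {x j : ℕ} : j ∈ bs x ↔ 64 ≤ j ∧ x.testBit j = true := by
  unfold bs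
  rw [Finset.mem_filter, Finset.mem_range]
  refine ⟨fun h => h.2, fun h => ⟨?_, h⟩⟩
  exact lt_of_lt_of_le Nat.lt_two_pow_self (Nat.ge_two_pow_of_testBit h.2)

/-- The mask `m` has the only bit `j`, apart from low bits. -/
def Ib (m j : ℕ) : Prop := 64 ≤ j ∧ ∀ i, 64 ≤ i → (m.testBit i = true ↔ i = j)

/-- The list `L` with counter `c'` arises from `acc` and `c` by putting the bits of `x` in. -/
inductive Ex (f : ℕ → CL → CL) : ℕ → CL → ℕ → CL → ℕ → Prop
  | nil (x : ℕ) (acc : CL) (c : ℕ) : bs x = ∅ → Ex f x acc c acc c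
  | cons (x y m j : ℕ) (acc : CL) (c : ℕ) (L : CL) (c' : ℕ) : bs x = insert j (bs y) →
      j ∉ bs y → Ib m j → Ex f y (f m acc) (c + 1) L c' → Ex f x acc c L c'

theorem ext_snd (f : ℕ → CL → CL) : ∀ (fuel x : ℕ) (acc : CL) (c : ℕ) (k : CL → ℕ → Bool),
    ext f fuel x acc c k = true → ∃ L c', Ex f x acc c L c' ∧ k L c' = true := by
  intro fuel
  induction fuel with
  | zero => intro x acc c k h; exact absurd h (by simp [ext])
  | succ fuel ih =>
    intro x acc c k h
    have h1 : bt (Nat.ble x 18446744073709551615) (k acc c)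
      (frc (Nat.land x (Nat.sub x 18446744073709551616)) (exs (ext f fuel) f x acc c k)) = true := h
    rcases bt_true h1 with ⟨h2, h3⟩ | ⟨h2, h3⟩
    · refine ⟨acc, c, Ex.nil x acc c ?_, h3⟩
      have hx : x ≤ 18446744073709551615 := Nat.le_of_ble_eq_true h2
      refine Finset.eq_empty_of_forall_notMem fun j hj => ?_
      rw [mem_bs] at hj
      have h4 := Nat.ge_two_pow_of_testBit hj.2
      have h5 : 2 ^ 64 ≤ 2 ^ j := Nat.pow_le_pow_right (by norm_num) hj.1
      norm_num at h5
      omega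
    · rw [frc_eq] at h3
      have hx : 18446744073709551615 < x := by
        by_contra hc
        rw [Nat.ble_eq_true_of_le (not_lt.mp hc)] at h2
        exact absurd h2 (by simp)
      obtain ⟨j, hj, hjx, hy⟩ := high_bit hx
      have h4 : ext f fuel (x &&& (x - 18446744073709551616))
        (f (sl (x ^^^ (x &&& (x - 18446744073709551616)))) acc) (c + 1) k = true := by
        have h5 := h3
        unfold exs at h5
        rw [frc_eq] at h5
        exact h5
      obtain ⟨L, c', hE, hk⟩ := ih _ _ _ _ h4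
      refine ⟨L, c', Ex.cons x _ _ j acc c L c' ?_ ?_ ⟨hj, ?_⟩ hE, hk⟩
      · ext i
        rw [Finset.mem_insert, mem_bs, mem_bs]
        constructor
        · rintro ⟨hi, hxi⟩
          by_cases hij : i = j
          · exact Or.inl hij
          · right
            refine ⟨hi, ?_⟩
            rw [hy i hi, hxi]
            simpa using hij
        · rintro (rfl | ⟨hi, hxi⟩)
          · exact ⟨hj, hjx⟩
          · rw [hy i hi, Bool.and_eq_true] at hxi
            exact ⟨hi, hxi.1⟩
      · rw [mem_bs]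
        rintro ⟨_, h5⟩
        rw [hy j hj] at h5
        simp at h5
      · intro i hi
        rw [sl_bit _ hi, Nat.testBit_xor, hy i hi]
        by_cases hij : i = j
        · subst hij
          rw [hjx]; simp
        · cases x.testBit i <;> simp [hij]

theorem Ex.cnt {f : ℕ → CL → CL} {x : ℕ} {acc : CL} {c : ℕ} {L : CL} {c' : ℕ}
    (h : Ex f x acc c L c') : c' = c + (bs x).card := by
  induction h with
  | nil x acc c h => simp [h]
  | cons x y m j acc c L c' h1 h2 _ _ ih => rw [ih, h1, Finset.card_insert_of_notMem h2]; omega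

theorem Ex.sum {f : ℕ → CL → CL} {x : ℕ} {acc : CL} {c : ℕ} {L : CL} {c' : ℕ}
    (h : Ex f x acc c L c') (μ : CL → ℕ) (w w' : ℕ → ℕ) (hμ : ∀ m l, μ (f m l) = w m + μ l)
    (hw : ∀ m j, Ib m j → w m = w' j) : μ L = μ acc + ∑ j ∈ bs x, w' j := by
  induction h with
  | nil x acc c h => simp [h]
  | cons x y m j acc c L c' h1 h2 h3 _ ih =>
    rw [ih, h1, Finset.sum_insert h2, hμ, hw m j h3]; ring

theorem Ex.msk {f : ℕ → CL → CL} {x : ℕ} {acc : CL} {c : ℕ} {L : CL} {c' : ℕ}
    (h : Ex f x acc c L c') (κ : CL → ℕ) (v : ℕ → ℕ) (hκ : ∀ m l, κ (f m l) = v m ^^^ κ l)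
    (G : ℕ → Prop) (hv : ∀ m j, Ib m j → ∀ i, 64 ≤ i → (v m).testBit i = decide (i = j ∧ G j))
    (i : ℕ) (hi : 64 ≤ i) :
    (κ L).testBit i = ((κ acc).testBit i ^^ decide (i ∈ bs x ∧ G i)) := by
  induction h with
  | nil x acc c h => simp [h]
  | cons x y m j acc c L c' h1 h2 h3 _ ih =>
    rw [ih, h1, hκ, Nat.testBit_xor, hv m j h3 i hi]
    by_cases hij : i = j
    · subst hij
      by_cases hG : G i
      · cases (κ acc).testBit i <;> simp [hG, h2]
      · simp [hG]
    · simp [hij]

/-- Number of picks of type one. -/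
noncomputable def q1 (G : ℕ → Prop) : CL → ℕ
  | .nil => 0
  | .c1 m l => (if G m then 1 else 0) + q1 G l
  | .c2 _ l => q1 G l
  | .c3 _ l => q1 G l

/-- Number of picks of type two. -/
noncomputable def q2 (G : ℕ → Prop) : CL → ℕ
  | .nil => 0
  | .c1 _ l => q2 G l
  | .c2 m l => (if G m then 1 else 0) + q2 G l
  | .c3 _ l => q2 G l

/-- Number of picks of type three. -/
noncomputable def q3 (G : ℕ → Prop) : CL → ℕ
  | .nil => 0
  | .c1 _ l => q3 G l
  | .c2 _ l => q3 G l
  | .c3 m l => (if G m then 1 else 0) + q3 G l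

/-- Number of candidates of type one and two. -/
def nO : CL → ℕ
  | .nil => 0
  | .c1 _ l => nO l + 1
  | .c2 _ l => nO l + 1
  | .c3 _ l => nO l

/-- Mask of the picks. -/
noncomputable def mk (G : ℕ → Prop) : CL → ℕ
  | .nil => 0
  | .c1 m l => (if G m then m else 0) ^^^ mk G l
  | .c2 m l => (if G m then m else 0) ^^^ mk G l
  | .c3 m l => (if G m then m else 0) ^^^ mk G l

theorem q12_le (G : ℕ → Prop) (L : CL) : q1 G L + q2 G L ≤ nO L := by
  induction L with
  | nil => simp [q1, q2, nO]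
  | c1 m l ih => simp only [q1, q2, nO]; split_ifs <;> omega
  | c2 m l ih => simp only [q1, q2, nO]; split_ifs <;> omega
  | c3 m l ih => simpa only [q1, q2, nO] using ih

theorem mk_zero (G : ℕ → Prop) (L : CL) (h : q1 G L + q2 G L + q3 G L = 0) : mk G L = 0 := by
  induction L with
  | nil => rfl
  | c1 m l ih =>
    simp only [q1, q2, q3] at h
    have h1 : ¬ G m := fun hG => by rw [if_pos hG] at h; omega
    rw [if_neg h1] at h
    simp only [mk, if_neg h1, Nat.zero_xor]
    exact ih (by omega)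
  | c2 m l ih =>
    simp only [q1, q2, q3] at h
    have h1 : ¬ G m := fun hG => by rw [if_pos hG] at h; omega
    rw [if_neg h1] at h
    simp only [mk, if_neg h1, Nat.zero_xor]
    exact ih (by omega)
  | c3 m l ih =>
    simp only [q1, q2, q3] at h
    have h1 : ¬ G m := fun hG => by rw [if_pos hG] at h; omega
    rw [if_neg h1] at h
    simp only [mk, if_neg h1, Nat.zero_xor]
    exact ih (by omega)

theorem tc_true {h0 l0 r s n1 n2 n3 : ℕ} (h : tc h0 l0 r s n1 n2 n3 = true) {p1 p2 : ℕ}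
    (hr : p1 + p2 ≤ r) (hs : p1 + p2 ≤ s) (p3 : ℕ) :
    h0 + 2 * (n1 + p1) + (n2 + p2) ≤ l0 + 9 * (n3 + p3) := by
  have h1 : h0 + (2 * (n1 + (s - (s - r))) + n2) ≤ l0 + 9 * n3 := Nat.le_of_ble_eq_true h
  omega

/-- The result of an enumeration for the picks `G`. -/
def Rs (k : ℕ → ℕ → ℕ → ℕ → Bool) (h0 l0 : ℕ) (G : ℕ → Prop) (L : CL) (g n1 n2 n3 : ℕ) : Prop :=
  h0 + 2 * (n1 + q1 G L) + (n2 + q2 G L) ≤ l0 + 9 * (n3 + q3 G L) ∨
    k (g ^^^ mk G L) (n1 + q1 G L) (n2 + q2 G L) (n3 + q3 G L) = true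

theorem br_snd {k : ℕ → ℕ → ℕ → ℕ → Bool} {h0 l0 r s g n1 n2 n3 : ℕ} {x y : Bool}
    (h : br k h0 l0 r s g n1 n2 n3 x y = true) (G : ℕ → Prop) (L : CL) (hr : nO L ≤ r)
    (hs : q1 G L + q2 G L + q3 G L ≤ s) :
    Rs k h0 l0 G L g n1 n2 n3 ∨ (0 < s ∧ x = true ∧ y = true) := by
  rcases bt_true h with ⟨h1, _⟩ | ⟨_, h2⟩
  · left; left
    exact tc_true h1 ((q12_le G L).trans hr) (by omega) _
  · rcases bt_true h2 with ⟨h3, h4⟩ | ⟨h3, h4⟩
    · left; right
      have hs0 : s = 0 := Nat.eq_of_beq_eq_true h3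
      have h5 : q1 G L + q2 G L + q3 G L = 0 := by omega
      rw [mk_zero G L h5]
      have h6 : q1 G L = 0 := by omega
      have h7 : q2 G L = 0 := by omega
      have h8 : q3 G L = 0 := by omega
      rw [h6, h7, h8, Nat.xor_zero]
      exact h4
    · right
      refine ⟨?_, ?_⟩
      · rcases Nat.eq_zero_or_pos s with hs0 | hs0
        · rw [hs0] at h3; exact absurd h3 (by decide)
        · exact hs0
      · rcases bt_true h4 with ⟨h5, h6⟩ | ⟨_, h6⟩
        · exact ⟨h5, h6⟩
        · exact absurd h6 (by simp)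

theorem en_snd (k : ℕ → ℕ → ℕ → ℕ → Bool) (h0 l0 : ℕ) (G : ℕ → Prop) : ∀ (L : CL)
    (r s g n1 n2 n3 : ℕ), nO L ≤ r → q1 G L + q2 G L + q3 G L ≤ s →
    en k h0 l0 L r s g n1 n2 n3 = true → Rs k h0 l0 G L g n1 n2 n3 := by
  intro L
  induction L with
  | nil =>
    intro r s g n1 n2 n3 hr hs h
    rcases bt_true h with ⟨h1, _⟩ | ⟨_, h2⟩
    · left
      exact tc_true h1 ((q12_le G _).trans hr) (by omega) _
    · right
      simpa [mk, q1, q2, q3] using h2
  | c1 m l ih =>
    intro r s g n1 n2 n3 hr hs h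
    rcases br_snd h G (CL.c1 m l) hr hs with h1 | ⟨h0s, hx, hy⟩
    · exact h1
    · have hr' : nO l ≤ r - 1 := by simp only [nO] at hr; omega
      by_cases hG : G m
      · have hs' : q1 G l + q2 G l + q3 G l ≤ s - 1 := by
          simp only [q1, q2, q3, if_pos hG] at hs; omega
        have h2 := ih _ _ _ _ _ _ hr' hs' hy
        unfold Rs at h2 ⊢
        simp only [q1, q2, q3, mk, if_pos hG]
        have e1 : n1.succ + q1 G l = n1 + (1 + q1 G l) := by omega
        have e2 : Nat.xor g m ^^^ mk G l = g ^^^ (m ^^^ mk G l) := Nat.xor_assoc g m _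
        rw [e1, e2] at h2
        exact h2
      · have hs' : q1 G l + q2 G l + q3 G l ≤ s := by
          simp only [q1, q2, q3, if_neg hG] at hs; omega
        have h2 := ih _ _ _ _ _ _ hr' hs' hx
        unfold Rs at h2 ⊢
        simp only [q1, q2, q3, mk, if_neg hG, Nat.zero_xor, Nat.zero_add]
        exact h2
  | c2 m l ih =>
    intro r s g n1 n2 n3 hr hs h
    rcases br_snd h G (CL.c2 m l) hr hs with h1 | ⟨h0s, hx, hy⟩
    · exact h1
    · have hr' : nO l ≤ r - 1 := by simp only [nO] at hr; omega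
      by_cases hG : G m
      · have hs' : q1 G l + q2 G l + q3 G l ≤ s - 1 := by
          simp only [q1, q2, q3, if_pos hG] at hs; omega
        have h2 := ih _ _ _ _ _ _ hr' hs' hy
        unfold Rs at h2 ⊢
        simp only [q1, q2, q3, mk, if_pos hG]
        have e1 : n2.succ + q2 G l = n2 + (1 + q2 G l) := by omega
        have e2 : Nat.xor g m ^^^ mk G l = g ^^^ (m ^^^ mk G l) := Nat.xor_assoc g m _
        rw [e1, e2] at h2
        exact h2
      · have hs' : q1 G l + q2 G l + q3 G l ≤ s := by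
          simp only [q1, q2, q3, if_neg hG] at hs; omega
        have h2 := ih _ _ _ _ _ _ hr' hs' hx
        unfold Rs at h2 ⊢
        simp only [q1, q2, q3, mk, if_neg hG, Nat.zero_xor, Nat.zero_add]
        exact h2
  | c3 m l ih =>
    intro r s g n1 n2 n3 hr hs h
    rcases br_snd h G (CL.c3 m l) hr hs with h1 | ⟨h0s, hx, hy⟩
    · exact h1
    · have hr' : nO l ≤ r := by simpa only [nO] using hr
      by_cases hG : G m
      · have hs' : q1 G l + q2 G l + q3 G l ≤ s - 1 := by
          simp only [q1, q2, q3, if_pos hG] at hs; omega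
        have h2 := ih _ _ _ _ _ _ hr' hs' hy
        unfold Rs at h2 ⊢
        simp only [q1, q2, q3, mk, if_pos hG]
        have e1 : n3.succ + q3 G l = n3 + (1 + q3 G l) := by omega
        have e2 : Nat.xor g m ^^^ mk G l = g ^^^ (m ^^^ mk G l) := Nat.xor_assoc g m _
        rw [e1, e2] at h2
        exact h2
      · have hs' : q1 G l + q2 G l + q3 G l ≤ s := by
          simp only [q1, q2, q3, if_neg hG] at hs; omega
        have h2 := ih _ _ _ _ _ _ hr' hs' hx
        unfold Rs at h2 ⊢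
        simp only [q1, q2, q3, mk, if_neg hG, Nat.zero_xor, Nat.zero_add]
        exact h2

end Pool.Agent.H58.FF.St
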