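import Pool.Agent.H58.FF.StStep

/-!
Start-up search of the micro part: soundness of the search.
-/

set_option autoImplicit false

namespace Pool.Agent.H58.FF.St

open Classical

variable {W : Pt → ℕ} {p0 : Pt} {T : ℕ}

theorem th_eq {t : ℕ} (h1 : 1 ≤ t) (h2 : t ≤ 8) : ((th t : ℕ) : ℤ) = tb t + 9 * (t : ℤ) := by
  have h3 : t = 1 ∨ t = 2 ∨ t = 3 ∨ t = 4 ∨ t = 5 ∨ t = 6 ∨ t = 7 ∨ t = 8 := by omega
  rcases h3 with rfl | rfl | rfl | rfl | rfl | rfl | rfl | rfl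
  · show ((1009 : ℕ) : ℤ) = 1000 + 9 * ((1 : ℕ) : ℤ); norm_num
  · show ((38 : ℕ) : ℤ) = 20 + 9 * ((2 : ℕ) : ℤ); norm_num
  · show ((54 : ℕ) : ℤ) = 27 + 9 * ((3 : ℕ) : ℤ); norm_num
  · show ((70 : ℕ) : ℤ) = 34 + 9 * ((4 : ℕ) : ℤ); norm_num
  · show ((88 : ℕ) : ℤ) = 43 + 9 * ((5 : ℕ) : ℤ); norm_num
  · show ((106 : ℕ) : ℤ) = 52 + 9 * ((6 : ℕ) : ℤ); norm_num
  · show ((126 : ℕ) : ℤ) = 63 + 9 * ((7 : ℕ) : ℤ); norm_num
  · show ((146 : ℕ) : ℤ) = 74 + 9 * ((8 : ℕ) : ℤ); norm_num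

/-- The predicate on single bit masks given by a predicate on indices. -/
def Gm (G : ℕ → Prop) (m : ℕ) : Prop := ∃ j, Ib m j ∧ G j

theorem Gm_iff {G : ℕ → Prop} {m j : ℕ} (h : Ib m j) : Gm G m ↔ G j := by
  constructor
  · rintro ⟨i, hi, hG⟩
    have h1 : i = j := (h.2 i hi.1).mp ((hi.2 i hi.1).mpr rfl)
    rwa [← h1]
  · exact fun hG => ⟨j, h, hG⟩

theorem sum_ite_card (G : ℕ → Prop) (s : Finset ℕ) :
    ∑ j ∈ s, (if G j then 1 else 0) = (s.filter G).card := by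
  rw [Finset.card_filter]

/-- The list of all candidates. -/
theorem list_snd {k : CL → ℕ → Bool} {N1 N2 N3 : ℕ}
    (h : ext CL.c3 100 N3 CL.nil 0 (fun L _ => ext CL.c2 100 N2 L 0 fun L c =>
      ext CL.c1 100 N1 L c k) = true) (G : ℕ → Prop) :
    ∃ L c, k L c = true ∧ c = (bs N1).card + (bs N2).card ∧ nO L = (bs N1).card + (bs N2).card ∧
      q1 (Gm G) L = ((bs N1).filter G).card ∧ q2 (Gm G) L = ((bs N2).filter G).card ∧
      q3 (Gm G) L = ((bs N3).filter G).card ∧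
      ∀ i, 64 ≤ i → (mk (Gm G) L).testBit i =
        ((decide (i ∈ bs N3 ∧ G i) ^^ decide (i ∈ bs N2 ∧ G i)) ^^ decide (i ∈ bs N1 ∧ G i)) := by
  obtain ⟨L3, c3, E3, h3⟩ := ext_snd _ _ _ _ _ _ h
  obtain ⟨L2, c2, E2, h2⟩ := ext_snd _ _ _ _ _ _ h3
  obtain ⟨L1, c1, E1, h1⟩ := ext_snd _ _ _ _ _ _ h2
  have hv : ∀ m j, Ib m j → ∀ i, 64 ≤ i →
      ((if Gm G m then m else 0 : ℕ)).testBit i = decide (i = j ∧ G j) := by
    intro m j hj i hi
    by_cases hG : G j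
    · rw [if_pos ((Gm_iff hj).mpr hG), Bool.eq_iff_iff, hj.2 i hi]
      simp [hG]
    · rw [if_neg (fun hc => hG ((Gm_iff hj).mp hc))]
      simp [hG]
  have hw : ∀ m j, Ib m j → (if Gm G m then 1 else 0 : ℕ) = if G j then 1 else 0 := by
    intro m j hj
    simp only [Gm_iff hj]
  refine ⟨L1, c1, h1, ?_, ?_, ?_, ?_, ?_, ?_⟩
  · rw [E1.cnt, E2.cnt]; omega
  · rw [E1.sum nO (fun _ => 1) (fun _ => 1) (fun m l => by rw [nO]; omega) (fun _ _ _ => rfl),
      E2.sum nO (fun _ => 1) (fun _ => 1) (fun m l => by rw [nO]; omega) (fun _ _ _ => rfl),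
      E3.sum nO (fun _ => 0) (fun _ => 0) (fun m l => by rw [nO]; omega) (fun _ _ _ => rfl)]
    simp only [nO, Finset.sum_const, smul_eq_mul]
    omega
  · rw [E1.sum (q1 (Gm G)) (fun m => if Gm G m then 1 else 0) (fun j => if G j then 1 else 0)
        (fun m l => by rw [q1]) hw,
      E2.sum (q1 (Gm G)) (fun _ => 0) (fun _ => 0) (fun m l => by rw [q1]; omega)
        (fun _ _ _ => rfl),
      E3.sum (q1 (Gm G)) (fun _ => 0) (fun _ => 0) (fun m l => by rw [q1]; omega)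
        (fun _ _ _ => rfl), sum_ite_card]
    simp only [q1, Finset.sum_const_zero]
    omega
  · rw [E1.sum (q2 (Gm G)) (fun _ => 0) (fun _ => 0) (fun m l => by rw [q2]; omega)
        (fun _ _ _ => rfl),
      E2.sum (q2 (Gm G)) (fun m => if Gm G m then 1 else 0) (fun j => if G j then 1 else 0)
        (fun m l => by rw [q2]) hw,
      E3.sum (q2 (Gm G)) (fun _ => 0) (fun _ => 0) (fun m l => by rw [q2]; omega)
        (fun _ _ _ => rfl), sum_ite_card]
    simp only [q2, Finset.sum_const_zero]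
    omega
  · rw [E1.sum (q3 (Gm G)) (fun _ => 0) (fun _ => 0) (fun m l => by rw [q3]; omega)
        (fun _ _ _ => rfl),
      E2.sum (q3 (Gm G)) (fun _ => 0) (fun _ => 0) (fun m l => by rw [q3]; omega)
        (fun _ _ _ => rfl),
      E3.sum (q3 (Gm G)) (fun m => if Gm G m then 1 else 0) (fun j => if G j then 1 else 0)
        (fun m l => by rw [q3]) hw, sum_ite_card]
    simp only [q3, Finset.sum_const_zero]
    omega
  · intro i hi
    rw [E1.msk (mk (Gm G)) (fun m => if Gm G m then m else 0) (fun m l => by rw [mk]) G hv i hi,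
      E2.msk (mk (Gm G)) (fun m => if Gm G m then m else 0) (fun m l => by rw [mk]) G hv i hi,
      E3.msk (mk (Gm G)) (fun m => if Gm G m then m else 0) (fun m l => by rw [mk]) G hv i hi]
    simp only [mk, Nat.zero_testBit, Bool.false_xor]

section

variable {f : Fire W p0 T} {e : ℕ → Pt}
  (he : Emb e) (hT : 8 ≤ T) (hW : ∀ c, dst c p0 ≤ 12 → W c = 3)

include he hT hW

/-- A node, with the search one level below sound. -/
theorem node_snd {ih : ND} {ρ t : ℕ} {SS PP KK : Finset Pt}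
    {U V A B C D X a1 a2 a3 u eC eD N1 N2 N3 : ℕ} (hρ : ρ ≤ 7) (ht : t ≤ 7)
    (h : IV f e ρ t SS PP KK U V A B C D X a1 a2 a3 u eC eD) (hN : NS U V A B D N1 N2 N3)
    (hr : nd2 ih (t + 1) U V A C X a1 a2 a3 u N1 N2 N3 = true) :
    tb (t + 1) ≤ pot f 9 (t + 1) ∨ ∃ SS PP KK U V A B C D X a1 a2 a3 u eC eD,
      IV f e (ρ + 1) (t + 1) SS PP KK U V A B C D X a1 a2 a3 u eC eD ∧
      ih (t + 1) U V A B C D X a1 a2 a3 u = true := by
  obtain ⟨L, c, h1, hc, hO, hq1, hq2, hq3, hm⟩ := list_snd hr (Gt f e (t + 1))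
  have e1 : q1 (Gm (Gt f e (t + 1))) L = (Jg f e (t + 1) N1).card := hq1
  have e2 : q2 (Gm (Gt f e (t + 1))) L = (Jg f e (t + 1) N2).card := hq2
  have e3 : q3 (Gm (Gt f e (t + 1))) L = (Jg f e (t + 1) N3).card := hq3
  have h2 := h1
  unfold nd3 at h2
  rw [frc_eq, frc_eq] at h2
  have hs := slots he hT ht h hN
  have hu := h.hu
  have h3 := en_snd _ _ _ (Gm (Gt f e (t + 1))) L c (t + 1 - u) 0 0 0 0
    (by omega) (by rw [e1, e2, e3]; omega) h2
  rcases h3 with h3 | h3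
  · left
    refine step_pot he hT hW hρ ht h hN e1 e2 e3 (th := th (t + 1))
      (th_eq (by omega) (by omega)) ?_
    have h4 : (th (t + 1)).add a1 = th (t + 1) + a1 := rfl
    have h5 : X.add (Nat.mul 4 c) = X + 4 * c := rfl
    rw [h4, h5, hc] at h3
    omega
  · right
    rw [Nat.zero_add, Nat.zero_add, Nat.zero_add, Nat.zero_xor] at h3
    refine ⟨_, _, _, _, _, _, _, _, _, _, _, _, _, _, _, _,
      step_next he hT hW hρ ht h hN e1 e2 e3 (g := mk (Gm (Gt f e (t + 1))) L) ?_, ?_⟩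
    · intro j hj
      have hj64 : 64 ≤ j := by
        rcases hj with hj | hj | hj <;> exact (mem_bs.mp hj).1
      rw [hm j hj64]
      have h12 : ¬ (j ∈ bs N1 ∧ j ∈ bs N2) := fun hc =>
        Finset.disjoint_left.mp (N12_disj hN) hc.1 hc.2
      have h13 : ¬ (j ∈ bs N1 ∧ j ∈ bs N3) := fun hc =>
        (J1_U h hN hc.1).2.1 (J3_V h hN hc.2).2.1
      have h23 : ¬ (j ∈ bs N2 ∧ j ∈ bs N3) := fun hc =>
        (J2_U h hN hc.1).2.1 (J3_V h hN hc.2).2.1
      rcases hj with hj | hj | hj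
      · have h4 : j ∉ bs N2 := fun hc => h12 ⟨hj, hc⟩
        have h5 : j ∉ bs N3 := fun hc => h13 ⟨hj, hc⟩
        simp [hj, h4, h5, Gt]
      · have h4 : j ∉ bs N1 := fun hc => h12 ⟨hc, hj⟩
        have h5 : j ∉ bs N3 := fun hc => h23 ⟨hj, hc⟩
        simp [hj, h4, h5, Gt]
      · have h4 : j ∉ bs N1 := fun hc => h13 ⟨hc, hj⟩
        have h5 : j ∉ bs N2 := fun hc => h23 ⟨hc, hj⟩
        simp [hj, h4, h5, Gt]
    · have h4 := h3
      unfold lf at h4
      rw [hc] at h4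
      exact h4

omit he hT hW in
/-- Invariance under changes of the low bits. -/
theorem IV.salt {ρ t : ℕ} {SS PP KK : Finset Pt} {U V A B C D X a1 a2 a3 u eC eD : ℕ}
    (h : IV f e ρ t SS PP KK U V A B C D X a1 a2 a3 u eC eD) :
    IV f e ρ t SS PP KK (sl U) (sl V) (sl A) B (sl C) D X a1 a2 a3 u eC eD where
  hS := h.hS
  hP := h.hP
  hK := h.hK
  hX := h.hX
  hu := h.hu
  hU j hj hb := h.hU j hj (by rwa [sl_bit _ hj] at hb)
  hV j hj hb := h.hV j hj (by rwa [sl_bit _ hj] at hb)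
  hA j hj hb := h.hA j hj (by rwa [sl_bit _ hj] at hb)
  hB := h.hB
  hC j hj hb := h.hC j hj (by rwa [sl_bit _ hj] at hb)
  hD := h.hD
  h1 := h.h1
  h2 := h.h2
  h3 := h.h3

omit he hT hW in
/-- The candidate sets of a node. -/
theorem NS_mk {ρ t : ℕ} {SS PP KK : Finset Pt} {U V A B C D X a1 a2 a3 u eC eD : ℕ}
    (h : IV f e ρ t SS PP KK U V A B C D X a1 a2 a3 u eC eD) :
    NS U V A B D (sl (Nat.land (nbr A) U))
      (sl (dif (Nat.land (nbr D) U) (sl (Nat.land (nbr A) U)))) (sl (Nat.land (nbr B) V)) where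
  n1 j hj hb := by
    rw [sl_bit _ hj, land_bit, Bool.and_eq_true] at hb
    obtain ⟨i, hi, hij⟩ := nbr_bit hb.1
    have h96 := (h.hU j hj hb.2).1
    refine ⟨hb.2, i, ?_, hi, hij⟩
    unfold Adj at hij
    omega
  n2 j hj hb := by
    rw [sl_bit _ hj, dif_bit, Bool.and_eq_true, land_bit, Bool.and_eq_true,
      Bool.not_eq_true'] at hb
    obtain ⟨i, hi, hij⟩ := nbr_bit hb.1.1
    have h96 := (h.hU j hj hb.1.2).1
    refine ⟨hb.1.2, hb.2, i, ?_, hi, hij⟩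
    unfold Adj at hij
    omega
  n3 j hj hb := by
    rw [sl_bit _ hj, land_bit, Bool.and_eq_true] at hb
    obtain ⟨i, hi, hij⟩ := nbr_bit hb.1
    have h96 := (h.hV j hj hb.2).1
    refine ⟨hb.2, i, ?_, hi, hij⟩
    unfold Adj at hij
    omega

/-- Soundness of the search. -/
theorem nd_snd : ∀ (fuel ρ t : ℕ) (SS PP KK : Finset Pt)
    (U V A B C D X a1 a2 a3 u eC eD : ℕ), ρ + fuel ≤ 8 → t + fuel ≤ 8 →
    IV f e ρ t SS PP KK U V A B C D X a1 a2 a3 u eC eD →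
    nd fuel t U V A B C D X a1 a2 a3 u = true →
    ∃ t', t < t' ∧ t' ≤ 8 ∧ tb t' ≤ pot f 9 t' := by
  intro fuel
  induction fuel with
  | zero =>
    intro ρ t SS PP KK U V A B C D X a1 a2 a3 u eC eD _ _ _ h
    exact absurd h (by simp [nd])
  | succ fuel ih =>
    intro ρ t SS PP KK U V A B C D X a1 a2 a3 u eC eD h1 h2 h h3
    have h4 : nd0 (nd fuel) t U V A B C D X a1 a2 a3 u = true := h3
    unfold nd0 at h4
    simp only [frc_eq] at h4
    unfold nd1 at h4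
    simp only [frc_eq] at h4
    have h5 := h.salt
    rcases node_snd he hT hW (by omega) (by omega) h5 (NS_mk h5) h4 with h6 | h6
    · exact ⟨t + 1, by omega, by omega, h6⟩
    · obtain ⟨SS', PP', KK', U', V', A', B', C', D', X', a1', a2', a3', u', eC', eD', h7, h8⟩ := h6
      obtain ⟨t', ht', ht8, hp⟩ := ih (ρ + 1) (t + 1) SS' PP' KK' U' V' A' B' C' D' X' a1' a2' a3'
        u' eC' eD' (by omega) (by omega) h7 h8
      exact ⟨t', by omega, ht8, hp⟩

end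

end Pool.Agent.H58.FF.St
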