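import Pool.Agent.H58.FF.StIni

/-!
Start-up search of the micro part: evaluation by the kernel, part A.
-/

set_option autoImplicit false
set_option maxRecDepth 100000

namespace Pool.Agent.H58.FF.St

theorem ra0 : rA 0 = true := by decide +kernel

theorem ra1 : rA 1 = true := by decide +kernel

theorem ra2 : rA 2 = true := by decide +kernel

theorem ra3 : rA 3 = true := by decide +kernel

theorem ra4 : rA 4 = true := by decide +kernel

theorem ra5 : rA 5 = true := by decide +kernel

theorem ra6 : rA 6 = true := by decide +kernel

theorem ra8 : rA 8 = true := by decide +kernel

theorem ra9 : rA 9 = true := by decide +kernel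

theorem ra10 : rA 10 = true := by decide +kernel

theorem ra12 : rA 12 = true := by decide +kernel

theorem ra16 : rA 16 = true := by decide +kernel

theorem ra17 : rA 17 = true := by decide +kernel

theorem ra18 : rA 18 = true := by decide +kernel

theorem ra20 : rA 20 = true := by decide +kernel

theorem ra24 : rA 24 = true := by decide +kernel

theorem ra32 : rA 32 = true := by decide +kernel

theorem ra33 : rA 33 = true := by decide +kernel

theorem ra34 : rA 34 = true := by decide +kernel

theorem ra36 : rA 36 = true := by decide +kernel

theorem ra40 : rA 40 = true := by decide +kernel

theorem ra48 : rA 48 = true := by decide +kernel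

theorem ro : rO = true := by decide +kernel

theorem rk : rK = true := by decide +kernel

theorem rn : rN = true := by decide +kernel


end Pool.Agent.H58.FF.St
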