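import Pool.Agent.H58.FF.StIni

/-!
Start-up search of the micro part: evaluation by the kernel, part B.
-/

set_option autoImplicit false
set_option maxRecDepth 100000

namespace Pool.Agent.H58.FF.St

theorem ry1 : rY 1 = true := by decide +kernel

theorem ry3 : rY 3 = true := by decide +kernel


end Pool.Agent.H58.FF.St
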