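import Pool.Agent.H58.FF.StIni

/-!
Start-up search of the micro part: evaluation by the kernel, part D.
-/

set_option autoImplicit false
set_option maxRecDepth 100000

namespace Pool.Agent.H58.FF.St

theorem ry9 : rY 9 = true := by decide +kernel

theorem ry11 : rY 11 = true := by decide +kernel

theorem ry13 : rY 13 = true := by decide +kernel

theorem ry17 : rY 17 = true := by decide +kernel


end Pool.Agent.H58.FF.St
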