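import Pool.Agent.H58.FF.StIni

/-!
Start-up search of the micro part: evaluation by the kernel, part E.
-/

set_option autoImplicit false
set_option maxRecDepth 100000

namespace Pool.Agent.H58.FF.St

theorem ry19 : rY 19 = true := by decide +kernel

theorem ry21 : rY 21 = true := by decide +kernel

theorem ry25 : rY 25 = true := by decide +kernel

theorem ry33 : rY 33 = true := by decide +kernel


end Pool.Agent.H58.FF.St
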