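import Pool.Agent.H58.FF.Stm
import Pool.Agent.H58.FF.StNode
import Pool.Agent.H58.FF.StRunA
import Pool.Agent.H58.FF.StRunB
import Pool.Agent.H58.FF.StRunC
import Pool.Agent.H58.FF.StRunD
import Pool.Agent.H58.FF.StRunE
import Pool.Agent.H58.FF.StRunF

/-!
The start-up lemma of the micro part.
-/

set_option autoImplicit false

namespace Pool.Agent.H58.FF.St

open Classical

theorem ry_all : ∀ m, m < 64 → m.testBit 0 = true → cu m ≤ 3 → rY m = true := by
  intro m hm
  interval_cases m
  · exact fun h _ => absurd h (by decide)
  · exact fun _ _ => ry1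
  · exact fun h _ => absurd h (by decide)
  · exact fun _ _ => ry3
  · exact fun h _ => absurd h (by decide)
  · exact fun _ _ => ry5
  · exact fun h _ => absurd h (by decide)
  · exact fun _ _ => ry7
  · exact fun h _ => absurd h (by decide)
  · exact fun _ _ => ry9
  · exact fun h _ => absurd h (by decide)
  · exact fun _ _ => ry11
  · exact fun h _ => absurd h (by decide)
  · exact fun _ _ => ry13
  · exact fun h _ => absurd h (by decide)
  · exact fun _ h => absurd h (by decide)
  · exact fun h _ => absurd h (by decide)
  · exact fun _ _ => ry17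
  · exact fun h _ => absurd h (by decide)
  · exact fun _ _ => ry19
  · exact fun h _ => absurd h (by decide)
  · exact fun _ _ => ry21
  · exact fun h _ => absurd h (by decide)
  · exact fun _ h => absurd h (by decide)
  · exact fun h _ => absurd h (by decide)
  · exact fun _ _ => ry25
  · exact fun h _ => absurd h (by decide)
  · exact fun _ h => absurd h (by decide)
  · exact fun h _ => absurd h (by decide)
  · exact fun _ h => absurd h (by decide)
  · exact fun h _ => absurd h (by decide)
  · exact fun _ h => absurd h (by decide)
  · exact fun h _ => absurd h (by decide)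
  · exact fun _ _ => ry33
  · exact fun h _ => absurd h (by decide)
  · exact fun _ _ => ry35
  · exact fun h _ => absurd h (by decide)
  · exact fun _ _ => ry37
  · exact fun h _ => absurd h (by decide)
  · exact fun _ h => absurd h (by decide)
  · exact fun h _ => absurd h (by decide)
  · exact fun _ _ => ry41
  · exact fun h _ => absurd h (by decide)
  · exact fun _ h => absurd h (by decide)
  · exact fun h _ => absurd h (by decide)
  · exact fun _ h => absurd h (by decide)
  · exact fun h _ => absurd h (by decide)
  · exact fun _ h => absurd h (by decide)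
  · exact fun h _ => absurd h (by decide)
  · exact fun _ _ => ry49
  · exact fun h _ => absurd h (by decide)
  · exact fun _ h => absurd h (by decide)
  · exact fun h _ => absurd h (by decide)
  · exact fun _ h => absurd h (by decide)
  · exact fun h _ => absurd h (by decide)
  · exact fun _ h => absurd h (by decide)
  · exact fun h _ => absurd h (by decide)
  · exact fun _ h => absurd h (by decide)
  · exact fun h _ => absurd h (by decide)
  · exact fun _ h => absurd h (by decide)
  · exact fun h _ => absurd h (by decide)
  · exact fun _ h => absurd h (by decide)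
  · exact fun h _ => absurd h (by decide)
  · exact fun _ h => absurd h (by decide)

theorem ra_all : ∀ m, m < 64 → cu m ≤ 2 → rA m = true := by
  intro m hm
  interval_cases m
  · exact fun _ => ra0
  · exact fun _ => ra1
  · exact fun _ => ra2
  · exact fun _ => ra3
  · exact fun _ => ra4
  · exact fun _ => ra5
  · exact fun _ => ra6
  · exact fun h => absurd h (by decide)
  · exact fun _ => ra8
  · exact fun _ => ra9
  · exact fun _ => ra10
  · exact fun h => absurd h (by decide)
  · exact fun _ => ra12
  · exact fun h => absurd h (by decide)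
  · exact fun h => absurd h (by decide)
  · exact fun h => absurd h (by decide)
  · exact fun _ => ra16
  · exact fun _ => ra17
  · exact fun _ => ra18
  · exact fun h => absurd h (by decide)
  · exact fun _ => ra20
  · exact fun h => absurd h (by decide)
  · exact fun h => absurd h (by decide)
  · exact fun h => absurd h (by decide)
  · exact fun _ => ra24
  · exact fun h => absurd h (by decide)
  · exact fun h => absurd h (by decide)
  · exact fun h => absurd h (by decide)
  · exact fun h => absurd h (by decide)
  · exact fun h => absurd h (by decide)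
  · exact fun h => absurd h (by decide)
  · exact fun h => absurd h (by decide)
  · exact fun _ => ra32
  · exact fun _ => ra33
  · exact fun _ => ra34
  · exact fun h => absurd h (by decide)
  · exact fun _ => ra36
  · exact fun h => absurd h (by decide)
  · exact fun h => absurd h (by decide)
  · exact fun h => absurd h (by decide)
  · exact fun _ => ra40
  · exact fun h => absurd h (by decide)
  · exact fun h => absurd h (by decide)
  · exact fun h => absurd h (by decide)
  · exact fun h => absurd h (by decide)
  · exact fun h => absurd h (by decide)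
  · exact fun h => absurd h (by decide)
  · exact fun h => absurd h (by decide)
  · exact fun _ => ra48
  · exact fun h => absurd h (by decide)
  · exact fun h => absurd h (by decide)
  · exact fun h => absurd h (by decide)
  · exact fun h => absurd h (by decide)
  · exact fun h => absurd h (by decide)
  · exact fun h => absurd h (by decide)
  · exact fun h => absurd h (by decide)
  · exact fun h => absurd h (by decide)
  · exact fun h => absurd h (by decide)
  · exact fun h => absurd h (by decide)
  · exact fun h => absurd h (by decide)
  · exact fun h => absurd h (by decide)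
  · exact fun h => absurd h (by decide)
  · exact fun h => absurd h (by decide)
  · exact fun h => absurd h (by decide)

theorem bits_ex (p : ℕ → Prop) : ∀ n : ℕ, ∃ m, m < 2 ^ n ∧ ∀ i, i < n → (m.testBit i = true ↔ p i) := by
  intro n
  induction n with
  | zero => exact ⟨0, by norm_num, fun i hi => absurd hi (Nat.not_lt_zero i)⟩
  | succ n ih =>
    obtain ⟨m, hm, h⟩ := ih
    by_cases hp : p n
    · refine ⟨2 ^ n + m, by rw [pow_succ]; omega, fun i hi => ?_⟩
      rcases Nat.lt_succ_iff_lt_or_eq.mp hi with hi | rfl
      · rw [Nat.testBit_two_pow_add_gt hi]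
        exact h i hi
      · rw [Nat.testBit_two_pow_add_eq, Nat.testBit_lt_two_pow hm]
        simp [hp]
    · refine ⟨m, by rw [pow_succ]; omega, fun i hi => ?_⟩
      rcases Nat.lt_succ_iff_lt_or_eq.mp hi with hi | rfl
      · exact h i hi
      · rw [Nat.testBit_lt_two_pow hm]
        simp [hp]

/-- The neighbours of the origin. -/
def rg (i : ℕ) : ℕ :=
  if i = 0 then 241 else if i = 1 then 257 else if i = 2 then 256 else if i = 3 then 239
  else if i = 4 then 223 else 224

/-- The centres at distance two of the origin. -/
def ce (i : ℕ) : ℕ :=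
  if i = 0 then 258 else if i = 1 then 273 else if i = 2 then 255 else if i = 3 then 222
  else if i = 4 then 207 else 225

theorem rg_inj : ∀ i, i < 6 → ∀ j, j < 6 → rg i = rg j → i = j := by decide

theorem rg_adj : ∀ i, i < 6 → Adj (rg i) 240 ∧ Adj (rg i) (ce i) ∧ Adj (rg i) (ce ((i + 5) % 6)) ∧
    Adj (rg ((i + 1) % 6)) (ce i) := by
  intro i hi
  unfold Adj
  interval_cases i <;> decide

theorem big_bit {M : ℕ} (hM : M < 2 ^ 385) {j : ℕ} (h : M.testBit j = true) : j < 385 := by
  by_contra hc
  rw [Nat.testBit_lt_two_pow (lt_of_lt_of_le hM (Nat.pow_le_pow_right (by norm_num)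
    (not_lt.mp hc)))] at h
  exact absurd h (by simp)

theorem U1_chk : ∀ j, j < 385 → U1.testBit j = true → 96 ≤ j ∧
    ((j - 96) % 17 + 2 * ((j - 96) / 17)) % 3 ≠ 0 ∧ ∀ i, i < 6 → j ≠ rg i := by
  decide +kernel

theorem U2_chk : ∀ j, j < 385 → U2.testBit j = true → 96 ≤ j ∧
    ((j - 96) % 17 + 2 * ((j - 96) / 17)) % 3 ≠ 0 ∧ j ≠ 241 := by
  decide +kernel

theorem V0_chk : ∀ j, j < 385 → V0.testBit j = true → 96 ≤ j ∧
    ((j - 96) % 17 + 2 * ((j - 96) / 17)) % 3 = 0 := by
  decide +kernel

theorem V1_chk : ∀ j, j < 385 → V1.testBit j = true → 96 ≤ j ∧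
    ((j - 96) % 17 + 2 * ((j - 96) / 17)) % 3 = 0 ∧ j ≠ 240 := by
  decide +kernel

theorem cls_nat {e : ℕ → Pt} (he : Emb e) {j : ℕ} (hj : 96 ≤ j) :
    isC (e j) ↔ ((j - 96) % 17 + 2 * ((j - 96) / 17)) % 3 = 0 := by
  rw [he.cls]
  simp only [pt]
  omega

theorem cA_bit {m j : ℕ} (h : (cA m).testBit j = true) :
    ∃ i, i < 6 ∧ m.testBit i = false ∧ j = rg i := by
  have hcb : ∀ i p, (cb m i p).testBit j = true → m.testBit i = false ∧ j = p := by
    intro i p h1
    unfold cb at h1
    split_ifs at h1 with h2
    · rw [Nat.zero_testBit] at h1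
      exact absurd h1 (by simp)
    · rw [Nat.testBit_two_pow, decide_eq_true_eq] at h1
      exact ⟨by simpa using h2, h1.symm⟩
  unfold cA at h
  simp only [Nat.testBit_or, Bool.or_eq_true] at h
  rcases h with ((((h | h) | h) | h) | h) | h
  · exact ⟨0, by norm_num, hcb _ _ h⟩
  · exact ⟨1, by norm_num, hcb _ _ h⟩
  · exact ⟨2, by norm_num, hcb _ _ h⟩
  · exact ⟨3, by norm_num, hcb _ _ h⟩
  · exact ⟨4, by norm_num, hcb _ _ h⟩
  · exact ⟨5, by norm_num, hcb _ _ h⟩

theorem rg_nrm : ∀ i, i < 6 → nrm (pt (rg i)) ≤ 1 := by
  intro i hi
  rw [nrm_le]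
  interval_cases i <;> decide

theorem cls_240 {e : ℕ → Pt} (he : Emb e) : isC (e 240) := by
  rw [cls_nat he (by norm_num)]

theorem cls_ce {e : ℕ → Pt} (he : Emb e) (i : ℕ) (hi : i < 6) : isC (e (ce i)) := by
  interval_cases i <;> exact (cls_nat he (by decide)).mpr (by decide)

theorem cls_rg {e : ℕ → Pt} (he : Emb e) (i : ℕ) (hi : i < 6) : ¬ isC (e (rg i)) := by
  interval_cases i <;> exact fun hc => absurd ((cls_nat he (by decide)).mp hc) (by decide)

/-- The centres next to a neighbour of the origin. -/
theorem cnb_rg {e : ℕ → Pt} (he : Emb e) (i : ℕ) (hi : i < 6) :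
    cnb (e (rg i)) = {e 240, e (ce i), e (ce ((i + 5) % 6))} := by
  have h6 : (i + 5) % 6 < 6 := Nat.mod_lt _ (by norm_num)
  have hn : nrm (pt (rg i)) ≤ 7 := (rg_nrm i hi).trans (by norm_num)
  obtain ⟨h1, h2, h3, _⟩ := rg_adj i hi
  symm
  refine Finset.eq_of_subset_of_card_le ?_ ?_
  · intro c hc
    rw [mem_cnb]
    simp only [Finset.mem_insert, Finset.mem_singleton] at hc
    rcases hc with rfl | rfl | rfl
    · exact ⟨he.adj _ _ hn h1, cls_240 he⟩
    · exact ⟨he.adj _ _ hn h2, cls_ce he i hi⟩
    · exact ⟨he.adj _ _ hn h3, cls_ce he _ h6⟩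
  · rw [cnb_card (cls_rg he i hi), Finset.card_insert_of_notMem, Finset.card_insert_of_notMem,
      Finset.card_singleton]
    · rw [Finset.mem_singleton]
      intro hc
      have := he.inj hc
      revert this
      interval_cases i <;> decide
    · simp only [Finset.mem_insert, Finset.mem_singleton]
      rintro (hc | hc)
      · have := he.inj hc
        revert this
        interval_cases i <;> decide
      · have := he.inj hc
        revert this
        interval_cases i <;> decide

end Pool.Agent.H58.FF.St
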