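import Mathlib

/-!
Start-up search of the micro part: the search functions. Sets of lattice points are natural
numbers (bit masks); the bits below `64` of a mask carry no meaning. Everything is written with
recursors and with the arithmetic primitives, so that the kernel evaluates it fast.
-/

set_option autoImplicit false

namespace Pool.Agent.H58.FF.St

/-- Boolean choice. -/
def bt (b x y : Bool) : Bool := Bool.rec (motive := fun _ => Bool) y x b

/-- Forced evaluation of a number. -/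
def frc (n : Nat) (k : Nat → Bool) : Bool :=
  Nat.rec (motive := fun _ => Bool) (k (nat_lit 0)) (fun m _ => k (Nat.succ m)) n

/-- Neighbours, second stage. -/
def nb2 (x a : Nat) : Nat :=
  Nat.lor (Nat.lor (Nat.shiftLeft a (nat_lit 16)) (Nat.shiftRight a (nat_lit 17)))
    (Nat.lor (Nat.shiftLeft x (nat_lit 1)) (Nat.shiftRight x (nat_lit 1)))

/-- Neighbours. -/
def nbr (x : Nat) : Nat := nb2 x (Nat.lor x (Nat.shiftLeft x (nat_lit 1)))

/-- Change of the low bits of a mask (for the hash values of the kernel only). -/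
def sl (x : Nat) : Nat := Nat.xor x (Nat.mod x (nat_lit 1152921504606846883))

/-- Difference of masks. -/
def dif (x e : Nat) : Nat := Nat.xor x (Nat.land x e)

/-- Lists of candidates, of three types. -/
inductive CL
  | nil : CL
  | c1 (m : Nat) (l : CL) : CL
  | c2 (m : Nat) (l : CL) : CL
  | c3 (m : Nat) (l : CL) : CL

/-- Thresholds. -/
noncomputable def th (t : Nat) : Nat :=
  Nat.rec (nat_lit 1000) (fun k _ => Nat.rec (nat_lit 1009) (fun k _ =>
  Nat.rec (nat_lit 38) (fun k _ => Nat.rec (nat_lit 54) (fun k _ =>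
  Nat.rec (nat_lit 70) (fun k _ => Nat.rec (nat_lit 88) (fun k _ =>
  Nat.rec (nat_lit 106) (fun k _ => Nat.rec (nat_lit 126) (fun _ _ => nat_lit 146)
    k) k) k) k) k) k) k) t

/-- Minimum. -/
def mn (r s : Nat) : Nat := Nat.sub s (Nat.sub s r)

/-- The one step test. -/
def tc (h0 l0 r s n1 n2 n3 : Nat) : Bool :=
  Nat.ble (Nat.add h0 (Nat.add (Nat.mul (nat_lit 2) (Nat.add n1 (mn r s))) n2))
    (Nat.add l0 (Nat.mul (nat_lit 9) n3))

/-- Extraction of the bits, one step. -/
noncomputable def exs (ih : Nat → CL → Nat → (CL → Nat → Bool) → Bool) (f : Nat → CL → CL)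
    (x : Nat) (acc : CL) (c : Nat) (k : CL → Nat → Bool) (y : Nat) : Bool :=
  frc (sl (Nat.xor x y)) fun m => ih y (f m acc) (Nat.succ c) k

/-- Extraction of the bits. -/
noncomputable def ext (f : Nat → CL → CL) (fuel : Nat) :
    Nat → CL → Nat → (CL → Nat → Bool) → Bool :=
  Nat.rec (motive := fun _ => Nat → CL → Nat → (CL → Nat → Bool) → Bool)
    (fun _ _ _ _ => false)
    (fun _ ih x acc c k => bt (Nat.ble x (nat_lit 18446744073709551615)) (k acc c)
      (frc (Nat.land x (Nat.sub x (nat_lit 18446744073709551616))) (exs ih f x acc c k))) fuel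

/-- One branching. -/
noncomputable def br (k : Nat → Nat → Nat → Nat → Bool) (h0 l0 r s g n1 n2 n3 : Nat)
    (x y : Bool) : Bool :=
  bt (tc h0 l0 r s n1 n2 n3) true (bt (Nat.beq s (nat_lit 0)) (k g n1 n2 n3) (bt x y false))

/-- Enumeration of the subsets of a list. -/
noncomputable def en (k : Nat → Nat → Nat → Nat → Bool) (h0 l0 : Nat) (l : CL) :
    Nat → Nat → Nat → Nat → Nat → Nat → Bool :=
  CL.rec (motive := fun _ => Nat → Nat → Nat → Nat → Nat → Nat → Bool)
    (fun r s g n1 n2 n3 => bt (tc h0 l0 r s n1 n2 n3) true (k g n1 n2 n3))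
    (fun m _ ih r s g n1 n2 n3 => br k h0 l0 r s g n1 n2 n3
      (ih (Nat.sub r (nat_lit 1)) s g n1 n2 n3)
      (ih (Nat.sub r (nat_lit 1)) (Nat.sub s (nat_lit 1)) (Nat.xor g m) (Nat.succ n1) n2 n3))
    (fun m _ ih r s g n1 n2 n3 => br k h0 l0 r s g n1 n2 n3
      (ih (Nat.sub r (nat_lit 1)) s g n1 n2 n3)
      (ih (Nat.sub r (nat_lit 1)) (Nat.sub s (nat_lit 1)) (Nat.xor g m) n1 (Nat.succ n2) n3))
    (fun m _ ih r s g n1 n2 n3 => br k h0 l0 r s g n1 n2 n3
      (ih r s g n1 n2 n3)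
      (ih r (Nat.sub s (nat_lit 1)) (Nat.xor g m) n1 n2 (Nat.succ n3))) l

/-- The type of a search. -/
abbrev ND : Type := Nat → Nat → Nat → Nat → Nat → Nat → Nat → Nat → Nat → Nat → Nat → Nat → Bool

/-- The next node. -/
noncomputable def lf (ih : ND) (t' U V N N3 A C l0 a2 a3 u g n1 n2 n3 : Nat) : Bool :=
  ih t' U V (dif N g) A (dif N3 g) C
    (Nat.add l0 (Nat.add (Nat.mul (nat_lit 5) (Nat.add n1 n2)) (Nat.mul (nat_lit 9) n3)))
    (Nat.add a2 (Nat.add (Nat.mul (nat_lit 5) n1) (Nat.mul (nat_lit 6) n2)))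
    (Nat.add a3 (Nat.add (Nat.mul (nat_lit 3) n1) (Nat.mul (nat_lit 6) n2)))
    (Nat.add a3 (Nat.add (Nat.mul (nat_lit 3) n1) (Nat.mul (nat_lit 6) n2)))
    (Nat.add u (Nat.add n1 (Nat.add n2 n3)))

/-- The enumeration at a node. -/
noncomputable def nd4 (ih : ND) (t' U V A C N1 N2 N3 a2 a3 u l0 h0 c : Nat) (L : CL) : Bool :=
  en (lf ih t' (Nat.xor U (Nat.xor N1 N2)) (Nat.xor V N3) (Nat.xor N1 N2) N3 A C l0 a2 a3 u)
    h0 l0 L c (Nat.sub t' u) (nat_lit 0) (nat_lit 0) (nat_lit 0) (nat_lit 0)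

/-- The bounds at a node. -/
noncomputable def nd3 (ih : ND) (t' U V A C N1 N2 N3 X a1 a2 a3 u c : Nat) (L : CL) : Bool :=
  frc (Nat.add X (Nat.mul (nat_lit 4) c)) fun l0 =>
  frc (Nat.add (th t') a1) fun h0 => nd4 ih t' U V A C N1 N2 N3 a2 a3 u l0 h0 c L

/-- The list of candidates at a node. -/
noncomputable def nd2 (ih : ND) (t' U V A C X a1 a2 a3 u N1 N2 N3 : Nat) : Bool :=
  ext CL.c3 (nat_lit 100) N3 CL.nil (nat_lit 0) fun L _ =>
  ext CL.c2 (nat_lit 100) N2 L (nat_lit 0) fun L c =>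
  ext CL.c1 (nat_lit 100) N1 L c fun L c => nd3 ih t' U V A C N1 N2 N3 X a1 a2 a3 u c L

/-- The sets of candidates at a node. -/
noncomputable def nd1 (ih : ND) (t U V A B C D X a1 a2 a3 u : Nat) : Bool :=
  frc (sl (Nat.land (nbr A) U)) fun N1 => frc (sl (dif (Nat.land (nbr D) U) N1)) fun N2 =>
  frc (sl (Nat.land (nbr B) V)) fun N3 => nd2 ih (Nat.succ t) U V A C X a1 a2 a3 u N1 N2 N3

/-- One node. -/
noncomputable def nd0 (ih : ND) (t U V A B C D X a1 a2 a3 u : Nat) : Bool :=
  frc t fun t => frc (sl U) fun U => frc (sl V) fun V => frc (sl A) fun A =>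
  frc (sl C) fun C => frc X fun X => frc a1 fun a1 => frc a2 fun a2 => frc a3 fun a3 =>
  frc u fun u => nd1 ih t U V A B C D X a1 a2 a3 u

/-- The search: time, free vertices, free centres, vertices burnt now and before, centres burnt
now and before, gain, bounds of the pending leaks at the next three times, number of guards. -/
noncomputable def nd (fuel : Nat) : ND :=
  Nat.rec (motive := fun _ => ND) (fun _ _ _ _ _ _ _ _ _ _ _ _ => false) (fun _ ih => nd0 ih) fuel

end Pool.Agent.H58.FF.St
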