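import Pool.Agent.H58.FF.Defs
import Pool.Agent.H58.FF.StBits

/-!
Start-up search of the micro part: the board, its embeddings into the lattice, bounds of the
pending leaks and of the potential.
-/

set_option autoImplicit false

namespace Pool.Agent.H58.FF.St

open Classical

/-- The point of an index. -/
def pt (j : ℕ) : Pt := (((j : ℤ) - 96) % 17 - 8, ((j : ℤ) - 96) / 17 - 8)

theorem pt_inj : Function.Injective pt := by
  intro i j h
  have h1 := congrArg Prod.fst h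
  have h2 := congrArg Prod.snd h
  simp only [pt] at h1 h2
  omega

theorem nrm_le {p : Pt} {n : ℤ} : nrm p ≤ n ↔
    (-n ≤ p.1 ∧ p.1 ≤ n) ∧ (-n ≤ p.2 ∧ p.2 ≤ n) ∧ (-n ≤ p.1 + p.2 ∧ p.1 + p.2 ≤ n) := by
  unfold nrm
  rw [max_le_iff, max_le_iff, abs_le, abs_le, abs_le]

theorem mem_nbs {p q : Pt} : q ∈ nbs p ↔
    (q.1 = p.1 + 1 ∧ q.2 = p.2) ∨ (q.1 = p.1 ∧ q.2 = p.2 + 1) ∨
    (q.1 = p.1 - 1 ∧ q.2 = p.2 + 1) ∨ (q.1 = p.1 - 1 ∧ q.2 = p.2) ∨
    (q.1 = p.1 ∧ q.2 = p.2 - 1) ∨ (q.1 = p.1 + 1 ∧ q.2 = p.2 - 1) := by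
  simp only [nbs, Finset.mem_insert, Finset.mem_singleton, Prod.ext_iff]

theorem nbs_symm {p q : Pt} (h : q ∈ nbs p) : p ∈ nbs q := by
  rw [mem_nbs] at h ⊢
  rcases h with h | h | h | h | h | h
  · exact Or.inr (Or.inr (Or.inr (Or.inl ⟨by omega, by omega⟩)))
  · exact Or.inr (Or.inr (Or.inr (Or.inr (Or.inl ⟨by omega, by omega⟩))))
  · exact Or.inr (Or.inr (Or.inr (Or.inr (Or.inr ⟨by omega, by omega⟩))))
  · exact Or.inl ⟨by omega, by omega⟩
  · exact Or.inr (Or.inl ⟨by omega, by omega⟩)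
  · exact Or.inr (Or.inr (Or.inl ⟨by omega, by omega⟩))

theorem nrm_nbs {p q : Pt} {n : ℤ} (h : q ∈ nbs p) (hp : nrm p ≤ n) : nrm q ≤ n + 1 := by
  rw [mem_nbs] at h
  rw [nrm_le] at hp ⊢
  rcases h with h | h | h | h | h | h <;> omega

theorem dst_nbs {p q r : Pt} {n : ℤ} (h : q ∈ nbs p) (hp : dst p r ≤ n) : dst q r ≤ n + 1 := by
  rw [mem_nbs] at h
  unfold dst at hp ⊢
  rw [nrm_le] at hp ⊢
  simp only [Prod.fst_sub, Prod.snd_sub] at hp ⊢
  rcases h with h | h | h | h | h | h <;> omega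

theorem pt_adj {i j : ℕ} (h : nrm (pt i) ≤ 7) (ha : Adj i j) : pt j ∈ nbs (pt i) := by
  rw [nrm_le] at h
  rw [mem_nbs]
  unfold Adj at ha
  simp only [pt] at h ⊢
  rcases ha with ha | ha | ha | ha | ha | ha
  · exact Or.inl ⟨by omega, by omega⟩
  · exact Or.inr (Or.inl ⟨by omega, by omega⟩)
  · exact Or.inr (Or.inr (Or.inl ⟨by omega, by omega⟩))
  · exact Or.inr (Or.inr (Or.inr (Or.inl ⟨by omega, by omega⟩)))
  · exact Or.inr (Or.inr (Or.inr (Or.inr (Or.inl ⟨by omega, by omega⟩))))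
  · exact Or.inr (Or.inr (Or.inr (Or.inr (Or.inr ⟨by omega, by omega⟩))))

/-- The six rotations. -/
def rot (k : ℕ) (q : Pt) : Pt :=
  if k = 0 then q else if k = 1 then (-q.2, q.1 + q.2) else if k = 2 then (-q.1 - q.2, q.1)
  else if k = 3 then (-q.1, -q.2) else if k = 4 then (q.2, -q.1 - q.2) else (q.1 + q.2, -q.1)

/-- The embedding of the board. -/
def emb (a : Pt) (k : ℕ) (j : ℕ) : Pt := (a.1 + (rot k (pt j)).1, a.2 + (rot k (pt j)).2)

theorem rot_inj {k : ℕ} {p q : Pt} (h : rot k p = rot k q) : p = q := by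
  unfold rot at h
  split_ifs at h <;> rw [Prod.ext_iff] at h ⊢ <;> (try dsimp only at h) <;> constructor <;> omega

theorem emb_inj (a : Pt) (k : ℕ) : Function.Injective (emb a k) := by
  intro i j h
  refine pt_inj (rot_inj (k := k) ?_)
  unfold emb at h
  rw [Prod.ext_iff] at h ⊢
  simp only [] at h
  constructor <;> omega

theorem rot_nbs (a : Pt) (k : ℕ) {p q : Pt} (h : q ∈ nbs p) :
    ((a.1 + (rot k q).1, a.2 + (rot k q).2) : Pt) ∈ nbs (a.1 + (rot k p).1, a.2 + (rot k p).2) := by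
  rw [mem_nbs] at h ⊢
  unfold rot
  split_ifs <;> rcases h with h | h | h | h | h | h <;> simp only [] <;> first
    | exact Or.inl ⟨by omega, by omega⟩
    | exact Or.inr (Or.inl ⟨by omega, by omega⟩)
    | exact Or.inr (Or.inr (Or.inl ⟨by omega, by omega⟩))
    | exact Or.inr (Or.inr (Or.inr (Or.inl ⟨by omega, by omega⟩)))
    | exact Or.inr (Or.inr (Or.inr (Or.inr (Or.inl ⟨by omega, by omega⟩))))
    | exact Or.inr (Or.inr (Or.inr (Or.inr (Or.inr ⟨by omega, by omega⟩))))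

theorem rot_cls (a : Pt) (k : ℕ) (ha : isC a) (q : Pt) :
    isC (a.1 + (rot k q).1, a.2 + (rot k q).2) ↔ (q.1 - q.2) % 3 = 0 := by
  unfold isC at ha ⊢
  unfold rot
  split_ifs <;> simp only [] <;> omega

/-- What is used of an embedding of the board. -/
structure Emb (e : ℕ → Pt) : Prop where
  inj : Function.Injective e
  adj : ∀ i j, nrm (pt i) ≤ 7 → Adj i j → e j ∈ nbs (e i)
  cls : ∀ j, isC (e j) ↔ ((pt j).1 - (pt j).2) % 3 = 0

theorem emb_emb {a : Pt} (ha : isC a) (k : ℕ) : Emb (emb a k) where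
  inj := emb_inj a k
  adj _ _ hi hij := rot_nbs a k (pt_adj hi hij)
  cls j := rot_cls a k ha (pt j)

section fire

variable {W : Pt → ℕ} {p0 : Pt} {T : ℕ} (f : Fire W p0 T)

theorem S_le {s t : ℕ} (h : s ≤ t) : f.S s ⊆ f.S t := by
  induction t, h using Nat.le_induction with
  | base => exact fun _ h => h
  | succ t _ ih => exact ih.trans (f.S_mono t)

theorem P_le {s t : ℕ} (h : s ≤ t) : f.P s ⊆ f.P t := by
  induction t, h using Nat.le_induction with
  | base => exact fun _ h => h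
  | succ t _ ih => exact ih.trans (f.P_mono t)

theorem rem_three {c : Pt} (hc : W c = 3) (s : ℕ) : rem f c s ≤ 3 := by
  unfold rem
  refine (Finset.card_filter_le _ _).trans ?_
  rw [hc, Nat.card_Icc]

theorem rem_le {c u : Pt} (hc : W c = 3) {s0 s : ℕ} (hu : u ∈ nbs c) (hs0 : u ∈ f.S s0)
    (h : s0 ≤ s) : rem f c s ≤ 3 - (s - s0) := by
  unfold rem
  rw [hc]
  have h1 : (Finset.Icc 1 3).filter (fun i => i ≤ s → ∀ u ∈ nbs c, u ∉ f.S (s - i)) ⊆
      Finset.Icc (s - s0 + 1) 3 := by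
    intro i hi
    rw [Finset.mem_filter, Finset.mem_Icc] at hi
    rw [Finset.mem_Icc]
    refine ⟨?_, hi.1.2⟩
    by_contra hc
    exact hi.2 (by omega) u hu (S_le f (by omega) hs0)
  refine (Finset.card_le_card h1).trans ?_
  rw [Nat.card_Icc]
  omega

/-- The pending leak of one guard. -/
noncomputable def RR (w : Pt) (s : ℕ) : ℕ := ∑ c ∈ cnb w, rem f c s

theorem mem_cnb {w c : Pt} : c ∈ cnb w ↔ c ∈ nbs w ∧ isC c := by
  unfold cnb
  rw [Finset.mem_filter]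

theorem cnb_eq {w : Pt} (hw : ¬ isC w) : cnb w =
    if (w.1 - w.2) % 3 = 0 then {(w.1, w.2 + 1), (w.1 - 1, w.2), (w.1 + 1, w.2 - 1)}
    else {(w.1 + 1, w.2), (w.1 - 1, w.2 + 1), (w.1, w.2 - 1)} := by
  ext c
  rw [mem_cnb, mem_nbs]
  unfold isC at hw ⊢
  split_ifs with h
  · simp only [Finset.mem_insert, Finset.mem_singleton, Prod.ext_iff]
    constructor
    · rintro ⟨h1 | h1 | h1 | h1 | h1 | h1, h2⟩
      · omega
      · exact Or.inl h1
      · omega
      · exact Or.inr (Or.inl h1)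
      · omega
      · exact Or.inr (Or.inr h1)
    · rintro (h1 | h1 | h1)
      · exact ⟨Or.inr (Or.inl h1), by omega⟩
      · exact ⟨Or.inr (Or.inr (Or.inr (Or.inl h1))), by omega⟩
      · exact ⟨Or.inr (Or.inr (Or.inr (Or.inr (Or.inr h1)))), by omega⟩
  · simp only [Finset.mem_insert, Finset.mem_singleton, Prod.ext_iff]
    constructor
    · rintro ⟨h1 | h1 | h1 | h1 | h1 | h1, h2⟩
      · exact Or.inl h1
      · omega
      · exact Or.inr (Or.inl h1)
      · omega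
      · exact Or.inr (Or.inr h1)
      · omega
    · rintro (h1 | h1 | h1)
      · exact ⟨Or.inl h1, by omega⟩
      · exact ⟨Or.inr (Or.inr (Or.inl h1)), by omega⟩
      · exact ⟨Or.inr (Or.inr (Or.inr (Or.inr (Or.inl h1)))), by omega⟩

theorem cnb_card {w : Pt} (hw : ¬ isC w) : (cnb w).card = 3 := by
  rw [cnb_eq hw]
  split_ifs
  · rw [Finset.card_insert_of_notMem, Finset.card_insert_of_notMem, Finset.card_singleton]
    · simp only [Finset.mem_singleton, Prod.ext_iff]; omega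
    · simp only [Finset.mem_insert, Finset.mem_singleton, Prod.ext_iff]; omega
  · rw [Finset.card_insert_of_notMem, Finset.card_insert_of_notMem, Finset.card_singleton]
    · simp only [Finset.mem_singleton, Prod.ext_iff]; omega
    · simp only [Finset.mem_insert, Finset.mem_singleton, Prod.ext_iff]; omega

theorem cnb_opp {w u c : Pt} (hw : ¬ isC w) (hu : ¬ isC u) (h : u ∈ nbs w) (hc : c ∈ nbs w)
    (hC : isC c) (hcu : c ∉ nbs u) : c.1 = 2 * w.1 - u.1 ∧ c.2 = 2 * w.2 - u.2 := by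
  by_contra hne
  apply hcu
  rw [mem_nbs] at h hc ⊢
  unfold isC at hw hu hC
  rcases h with h | h | h | h | h | h <;> rcases hc with hc | hc | hc | hc | hc | hc <;> first
    | (exfalso; omega)
    | exact Or.inl ⟨by omega, by omega⟩
    | exact Or.inr (Or.inl ⟨by omega, by omega⟩)
    | exact Or.inr (Or.inr (Or.inl ⟨by omega, by omega⟩))
    | exact Or.inr (Or.inr (Or.inr (Or.inl ⟨by omega, by omega⟩)))
    | exact Or.inr (Or.inr (Or.inr (Or.inr (Or.inl ⟨by omega, by omega⟩))))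
    | exact Or.inr (Or.inr (Or.inr (Or.inr (Or.inr ⟨by omega, by omega⟩))))

theorem cnb_far {w u : Pt} (hw : ¬ isC w) (hu : ¬ isC u) (h : u ∈ nbs w) :
    ((cnb w).filter (fun c => c ∉ nbs u)).card ≤ 1 := by
  rw [Finset.card_le_one]
  intro c hc d hd
  rw [Finset.mem_filter, mem_cnb] at hc hd
  have h1 := cnb_opp hw hu h hc.1.1 hc.1.2 hc.2
  have h2 := cnb_opp hw hu h hd.1.1 hd.1.2 hd.2
  rw [Prod.ext_iff]
  exact ⟨h1.1.trans h2.1.symm, h1.2.trans h2.2.symm⟩

theorem RR_nine {w : Pt} (hw : ¬ isC w) (hW : ∀ c ∈ nbs w, W c = 3) (s : ℕ) : RR f w s ≤ 9 := by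
  unfold RR
  calc ∑ c ∈ cnb w, rem f c s ≤ ∑ c ∈ cnb w, 3 :=
        Finset.sum_le_sum fun c hc => rem_three f (hW c (mem_cnb.mp hc).1) s
    _ = 9 := by rw [Finset.sum_const, cnb_card hw]; rfl

theorem RR_one {w u : Pt} (hw : ¬ isC w) (hW : ∀ c ∈ nbs w, W c = 3) (hu : ¬ isC u)
    (h : u ∈ nbs w) {s0 s : ℕ} (hs0 : u ∈ f.S s0) (hs : s0 ≤ s) :
    RR f w s ≤ 2 * (3 - (s - s0)) + 3 := by
  unfold RR
  rw [← Finset.sum_filter_add_sum_filter_not (cnb w) (fun c => c ∉ nbs u)]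
  have h1 := cnb_far hw hu h
  have h2 : ((cnb w).filter (fun c => ¬ c ∉ nbs u)).card =
      3 - ((cnb w).filter (fun c => c ∉ nbs u)).card := by
    have h3 := Finset.card_filter_add_card_filter_not (s := cnb w) (fun c => c ∉ nbs u)
    rw [cnb_card hw] at h3
    omega
  have h3 : ∑ c ∈ (cnb w).filter (fun c => c ∉ nbs u), rem f c s ≤
      ((cnb w).filter (fun c => c ∉ nbs u)).card * 3 := by
    rw [← smul_eq_mul, ← Finset.sum_const]
    exact Finset.sum_le_sum fun c hc =>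
      rem_three f (hW c (mem_cnb.mp (Finset.mem_filter.mp hc).1).1) s
  have h4 : ∑ c ∈ (cnb w).filter (fun c => ¬ c ∉ nbs u), rem f c s ≤
      ((cnb w).filter (fun c => ¬ c ∉ nbs u)).card * (3 - (s - s0)) := by
    rw [← smul_eq_mul, ← Finset.sum_const]
    refine Finset.sum_le_sum fun c hc => ?_
    rw [Finset.mem_filter, not_not] at hc
    exact rem_le f (hW c (mem_cnb.mp hc.1).1) (nbs_symm hc.2) hs0 hs
  have h5 : 3 - (s - s0) ≤ 3 := Nat.sub_le _ _
  generalize 3 - (s - s0) = b at *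
  rw [h2] at h4
  have h6 : ((cnb w).filter (fun c => c ∉ nbs u)).card = 0 ∨
    ((cnb w).filter (fun c => c ∉ nbs u)).card = 1 := by omega
  rcases h6 with h6 | h6 <;> rw [h6] at h3 h4 <;> omega

theorem RR_two {w c0 : Pt} (hw : ¬ isC w) (hW : ∀ c ∈ nbs w, W c = 3) (hc0 : c0 ∈ cnb w)
    {s e : ℕ} (hr : rem f c0 s ≤ e) : RR f w s ≤ 6 + e := by
  unfold RR
  rw [← Finset.sum_erase_add _ _ hc0]
  have h1 : ∑ c ∈ (cnb w).erase c0, rem f c s ≤ ∑ c ∈ (cnb w).erase c0, 3 :=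
    Finset.sum_le_sum fun c hc => rem_three f (hW c (mem_cnb.mp (Finset.mem_erase.mp hc).2).1) s
  rw [Finset.sum_const, Finset.card_erase_of_mem hc0, cnb_card hw, smul_eq_mul] at h1
  omega

variable (hW : ∀ c, dst c p0 ≤ 12 → W c = 3)

include hW

theorem W_near {w : Pt} {n : ℤ} (hn : n ≤ 11) (hw : dst w p0 ≤ n) {c : Pt} (hc : c ∈ nbs w) :
    W c = 3 := hW c (le_trans (dst_nbs hc hw) (by omega))

theorem pot_ge {t : ℕ} (ht : t ≤ 8) {SS PP KK : Finset Pt} (hS : SS ⊆ f.S t) (hP : PP ⊆ f.P t)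
    (hK : KK ⊆ f.K t) : 4 * (SS.card : ℤ) - ((∑ w ∈ PP, RR f w t : ℕ) : ℤ) - 9 * t +
      9 * (PP.card + KK.card) ≤ pot f 9 t := by
  have h1 : pend f t = ∑ w ∈ f.P t, RR f w t := rfl
  have h2 : pend f t + 9 * PP.card ≤ ∑ w ∈ PP, RR f w t + 9 * (f.P t).card := by
    rw [h1, ← Finset.sum_sdiff hP]
    have h3 : ∑ w ∈ f.P t \ PP, RR f w t ≤ ∑ w ∈ f.P t \ PP, 9 := by
      refine Finset.sum_le_sum fun w hw => ?_
      have hw' := (Finset.mem_sdiff.mp hw).1
      exact RR_nine f (f.P_cls t w hw')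
        (fun c hc => W_near hW (by omega) (f.P_ball t w hw') hc) t
    rw [Finset.sum_const, Finset.card_sdiff_of_subset hP, smul_eq_mul] at h3
    have h4 := Finset.card_le_card hP
    omega
  have h3 := Finset.card_le_card hS
  have h4 := Finset.card_le_card hK
  unfold pot
  have h5 : (pend f t : ℤ) + 9 * PP.card ≤ ((∑ w ∈ PP, RR f w t : ℕ) : ℤ) + 9 * (f.P t).card := by
    exact_mod_cast h2
  have h6 : (SS.card : ℤ) ≤ (f.S t).card := by exact_mod_cast h3
  have h7 : (KK.card : ℤ) ≤ (f.K t).card := by exact_mod_cast h4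
  linarith

end fire

end Pool.Agent.H58.FF.St
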