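import Pool.Agent.H58.FF.StDefs

/-!
Start-up search of the micro part: the initial data.
-/

set_option autoImplicit false

namespace Pool.Agent.H58.FF.St

/-- All centres of the board. -/
def V0 : Nat :=
  45030864224450833385461760114449844348662559166246224763369478176280824881711097841616292972988115837445061482643456

/-- The centres of the board without the origin. -/
def V1 : Nat :=
  45030864224450833385461760114449844348662557399399159984985148592983324138792582014132396097369157715838860190023680

/-- The vertices of the board that are not neighbours of the origin. -/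
def U1 : Nat :=
  33773148168338125039096320085837383261149538689814618120294845759248802557796694412495040710819622265069702918176768

/-- The vertices of the board without the start vertex. -/
def U2 : Nat :=
  33773148168338125039096320085837383261496915840990539015758449465615617175446291726244366557381284936618198368780288

/-- A bit as a number. -/
def gb (m i : Nat) : Nat := if m.testBit i = true then 1 else 0

/-- A single burnt neighbour of the origin. -/
def cb (m i p : Nat) : Nat := if m.testBit i = true then 0 else 2 ^ p

/-- The burnt neighbours of the origin, where `m` is the set of guards. -/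
def cA (m : Nat) : Nat :=
  cb m 0 241 ||| cb m 1 257 ||| cb m 2 256 ||| cb m 3 239 ||| cb m 4 223 ||| cb m 5 224

/-- The number of guards. -/
def cu (m : Nat) : Nat := gb m 0 + gb m 1 + gb m 2 + gb m 3 + gb m 4 + gb m 5

/-- The gain. -/
def cX (m : Nat) : Nat := 24 + 5 * cu m

/-- A bound of the pending leaks. -/
def cr (m x y : Nat) : Nat :=
  gb m 0 * (x + y * (gb m 1 + gb m 5)) + gb m 1 * (x + y * (gb m 2 + gb m 0)) +
  gb m 2 * (x + y * (gb m 3 + gb m 1)) + gb m 3 * (x + y * (gb m 4 + gb m 2)) +
  gb m 4 * (x + y * (gb m 5 + gb m 3)) + gb m 5 * (x + y * (gb m 0 + gb m 4))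

/-- The search for the start at a centre, two time steps later. -/
noncomputable def rA (m : Nat) : Bool :=
  nd 6 2 U1 V1 (cA m) 0 0 0 (cX m) (cr m 6 1) (cr m 3 2) (cr m 0 3) (cu m)

/-- The search for the start in the middle with a guard at the vertex, at time three. -/
noncomputable def rY (m : Nat) : Bool :=
  nd 5 3 U1 V1 (cA m) 0 0 0 (cX m) (cr m 6 1) (cr m 3 2) (cr m 0 3) (cu m)

/-- The search for the start at a vertex. -/
noncomputable def rO : Bool := nd 7 0 U2 V0 (2 ^ 241) 0 0 0 4 0 0 0 0

/-- The search for the start in the middle without a guard. -/
noncomputable def rN : Bool := nd 7 1 U2 V1 (2 ^ 241) 0 (2 ^ 240) 0 4 0 3 0 0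

/-- The search for the start in the middle with a guard in the centre. -/
noncomputable def rK : Bool := nd 7 1 U2 V1 (2 ^ 241) 0 0 0 13 0 0 0 1

end Pool.Agent.H58.FF.St
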