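import Pool.Agent.H58.FF.StCfg

/-!
The start-up lemma of the micro part: initial states and the final statement.
-/

set_option autoImplicit false

namespace Pool.Agent.H58.FF.St

open Classical

variable {W : Pt → ℕ} {p0 : Pt} {T : ℕ}

theorem sum_ins_le {s : Finset Pt} {a : Pt} (F : Pt → ℕ) :
    ∑ c ∈ insert a s, F c ≤ F a + ∑ c ∈ s, F c := by
  by_cases h : a ∈ s
  · rw [Finset.insert_eq_of_mem h]; exact Nat.le_add_left _ _
  · rw [Finset.sum_insert h]

theorem gb_eq (m i : ℕ) : gb m i = if m.testBit i = true then 1 else 0 := rfl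

theorem gb_sum (m : ℕ) : ∑ i ∈ Finset.range 6, gb m i = cu m := by
  simp only [Finset.sum_range_succ, Finset.sum_range_zero, cu]
  ring

theorem cr_sum (m x y : ℕ) : ∑ i ∈ Finset.range 6,
    gb m i * (x + y * (gb m ((i + 1) % 6) + gb m ((i + 5) % 6))) = cr m x y := by
  simp only [Finset.sum_range_succ, Finset.sum_range_zero, cr]
  norm_num

/-- The guards among the neighbours of the origin. -/
noncomputable def Pg (e : ℕ → Pt) (m : ℕ) : Finset Pt :=
  ((Finset.range 6).filter (fun i => m.testBit i = true)).image (fun i => e (rg i))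

/-- The burnt neighbours of the origin. -/
noncomputable def Sg (e : ℕ → Pt) (m : ℕ) : Finset Pt :=
  ((Finset.range 6).filter (fun i => ¬ m.testBit i = true)).image (fun i => e (rg i))

theorem rg_injOn {e : ℕ → Pt} (he : Emb e) (p : ℕ → Prop) [DecidablePred p] :
    Set.InjOn (fun i => e (rg i)) ((Finset.range 6).filter p : Finset ℕ) := by
  intro i hi j hj hij
  rw [Finset.mem_coe, Finset.mem_filter, Finset.mem_range] at hi hj
  exact rg_inj i hi.1 j hj.1 (he.inj hij)

theorem Pg_card {e : ℕ → Pt} (he : Emb e) (m : ℕ) : (Pg e m).card = cu m := by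
  unfold Pg
  rw [Finset.card_image_of_injOn (rg_injOn he _), Finset.card_filter, ← gb_sum]
  rfl

theorem Sg_card {e : ℕ → Pt} (he : Emb e) (m : ℕ) : (Sg e m).card + cu m = 6 := by
  have h1 := Pg_card he m
  unfold Pg at h1
  rw [Finset.card_image_of_injOn (rg_injOn he _)] at h1
  unfold Sg
  rw [Finset.card_image_of_injOn (rg_injOn he _), ← h1, Nat.add_comm,
    Finset.card_filter_add_card_filter_not, Finset.card_range]

section

variable {f : Fire W p0 T} {e : ℕ → Pt} {t m : ℕ} (he : Emb e)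
  (hW : ∀ c, dst c p0 ≤ 12 → W c = 3) (ht : t ≤ 8) (hm : ∃ i, i < 6 ∧ m.testBit i = false)
  (hP : ∀ i, i < 6 → m.testBit i = true → e (rg i) ∈ f.P t)
  (hS : ∀ i, i < 6 → m.testBit i = false → e (rg i) ∈ f.S t)

include hP in
theorem Pg_sub : Pg e m ⊆ f.P t := by
  intro p hp
  obtain ⟨i, hi, rfl⟩ := Finset.mem_image.mp hp
  rw [Finset.mem_filter, Finset.mem_range] at hi
  exact hP i hi.1 hi.2

include hS in
theorem Sg_sub : Sg e m ⊆ f.S t := by
  intro p hp
  obtain ⟨i, hi, rfl⟩ := Finset.mem_image.mp hp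
  rw [Finset.mem_filter, Finset.mem_range, Bool.not_eq_true] at hi
  exact hS i hi.1 hi.2

include hW ht hP hS

theorem W_ring (i : ℕ) (hi : i < 6) {c : Pt} (hc : c ∈ nbs (e (rg i))) : W c = 3 := by
  refine W_near hW (n := (t : ℤ)) (by omega) ?_ hc
  cases h : m.testBit i with
  | false => exact f.S_ball _ _ (hS i hi h)
  | true => exact f.P_ball _ _ (hP i hi h)

include he hm

theorem RR_cfg (i : ℕ) (hi : i < 6) {s : ℕ} (hs : t ≤ s) :
    RR f (e (rg i)) s ≤ 3 * (3 - (s - t)) + (3 - (3 - (s - t))) *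
      (gb m ((i + 1) % 6) + gb m ((i + 5) % 6)) := by
  have h6 : (i + 5) % 6 < 6 := Nat.mod_lt _ (by norm_num)
  have h7 : (i + 1) % 6 < 6 := Nat.mod_lt _ (by norm_num)
  have hnn : ∀ i, i < 6 → nrm (pt (rg i)) ≤ 7 := fun i hi => (rg_nrm i hi).trans (by norm_num)
  obtain ⟨a1, a2, a3, a4⟩ := rg_adj i hi
  obtain ⟨b1, b2, b3, b4⟩ := rg_adj _ h6
  have hW1 := W_ring hW ht hP hS i hi (he.adj _ _ (hnn i hi) a1)
  have hW2 := W_ring hW ht hP hS i hi (he.adj _ _ (hnn i hi) a2)
  have hW3 := W_ring hW ht hP hS i hi (he.adj _ _ (hnn i hi) a3)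
  have r1 : rem f (e 240) s ≤ 3 - (s - t) := by
    obtain ⟨i0, hi0, hb⟩ := hm
    exact rem_le f hW1 (nbs_symm (he.adj _ _ (hnn i0 hi0) (rg_adj i0 hi0).1)) (hS i0 hi0 hb) hs
  have r2 : rem f (e (ce i)) s ≤ 3 - (s - t) + (3 - (3 - (s - t))) * gb m ((i + 1) % 6) := by
    rw [gb_eq]
    split_ifs with hb
    · have := rem_three f hW2 s
      omega
    · rw [Bool.not_eq_true] at hb
      have := rem_le f hW2 (nbs_symm (he.adj _ _ (hnn _ h7) a4)) (hS _ h7 hb) hs
      omega
  have r3 : rem f (e (ce ((i + 5) % 6))) s ≤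
      3 - (s - t) + (3 - (3 - (s - t))) * gb m ((i + 5) % 6) := by
    rw [gb_eq]
    split_ifs with hb
    · have := rem_three f hW3 s
      omega
    · rw [Bool.not_eq_true] at hb
      have := rem_le f hW3 (nbs_symm (he.adj _ _ (hnn _ h6) b2)) (hS _ h6 hb) hs
      omega
  have h1 : RR f (e (rg i)) s ≤
      rem f (e 240) s + (rem f (e (ce i)) s + rem f (e (ce ((i + 5) % 6))) s) := by
    unfold RR
    rw [cnb_rg he i hi]
    refine (sum_ins_le _).trans ?_
    refine Nat.add_le_add_left ?_ _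
    refine (sum_ins_le _).trans ?_
    rw [Finset.sum_singleton]
  rw [Nat.mul_add]
  omega

theorem sum_cfg {s x y : ℕ} (hs : t ≤ s) (hx : x = 3 * (3 - (s - t)))
    (hy : y = 3 - (3 - (s - t))) : ∑ w ∈ Pg e m, RR f w s ≤ cr m x y := by
  unfold Pg
  rw [Finset.sum_image (rg_injOn he _), Finset.sum_filter, ← cr_sum]
  refine Finset.sum_le_sum fun i hi => ?_
  rw [Finset.mem_range] at hi
  rw [gb_eq m i]
  split_ifs with hb
  · rw [Nat.one_mul, hx, hy]
    exact RR_cfg he hW ht hm hP hS i hi hs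
  · exact Nat.zero_le _

/-- The initial state, where the neighbours of the origin are decided. -/
theorem ini_cfg : IV f e 1 t (Sg e m) (Pg e m) ∅ U1 V1 (cA m) 0 0 0 (cX m) (cr m 6 1) (cr m 3 2)
    (cr m 0 3) (cu m) 0 0 where
  hS := Sg_sub hS
  hP := Pg_sub hP
  hK := Finset.empty_subset _
  hX := by
    have h1 := Pg_card he m
    have h2 := Sg_card he m
    rw [h1, Finset.card_empty]
    unfold cX
    omega
  hu := by rw [Pg_card he m]; exact Nat.le_add_right _ _
  hU := by
    intro j _ hb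
    obtain ⟨h1, h2, h3⟩ := U1_chk j (big_bit (by decide) hb) hb
    refine ⟨h1, fun hc => h2 ((cls_nat he h1).mp hc), ?_, ?_⟩
    · intro hc
      obtain ⟨i, hi, hij⟩ := Finset.mem_image.mp hc
      rw [Finset.mem_filter, Finset.mem_range] at hi
      exact h3 i hi.1 (he.inj hij).symm
    · intro hc
      obtain ⟨i, hi, hij⟩ := Finset.mem_image.mp hc
      rw [Finset.mem_filter, Finset.mem_range] at hi
      exact h3 i hi.1 (he.inj hij).symm
  hV := by
    intro j _ hb
    obtain ⟨h1, h2, _⟩ := V1_chk j (big_bit (by decide) hb) hb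
    exact ⟨h1, (cls_nat he h1).mpr h2, Finset.notMem_empty _⟩
  hA := by
    intro j _ hb
    obtain ⟨i, hi, hb', rfl⟩ := cA_bit hb
    refine ⟨hS i hi hb', ?_⟩
    exact_mod_cast rg_nrm i hi
  hB := by
    intro j _ hb
    rw [Nat.zero_testBit] at hb
    exact absurd hb (by simp)
  hC := by
    intro j _ hb
    rw [Nat.zero_testBit] at hb
    exact absurd hb (by simp)
  hD := by
    intro j _ hb
    rw [Nat.zero_testBit] at hb
    exact absurd hb (by simp)
  h1 := by
    rw [Nat.zero_mul, Nat.add_zero]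
    exact sum_cfg he hW ht hm hP hS (by omega) (by omega) (by omega)
  h2 := by
    rw [Nat.zero_mul, Nat.add_zero]
    exact sum_cfg he hW ht hm hP hS (by omega) (by omega) (by omega)
  h3 := by
    intro s hs
    exact sum_cfg he hW ht hm hP hS (by omega) (by omega) (by omega)

end

theorem zero_bit {P : ℕ → Prop} : ∀ j, 64 ≤ j → (0 : ℕ).testBit j = true → P j := by
  intro j _ hb
  rw [Nat.zero_testBit] at hb
  exact absurd hb (by simp)

theorem pow_bit {p j : ℕ} (h : (2 ^ p : ℕ).testBit j = true) : j = p := by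
  rw [Nat.testBit_two_pow, decide_eq_true_eq] at h
  exact h.symm

section

variable {f : Fire W p0 T} {e : ℕ → Pt} (he : Emb e)

include he

theorem U2_hU {PP : Finset Pt} (hPP : PP = ∅) : ∀ j, 64 ≤ j → U2.testBit j = true →
    96 ≤ j ∧ ¬ isC (e j) ∧ e j ∉ ({e 241} : Finset Pt) ∧ e j ∉ PP := by
  intro j _ hb
  obtain ⟨h1, h2, h3⟩ := U2_chk j (big_bit (by decide) hb) hb
  refine ⟨h1, fun hc => h2 ((cls_nat he h1).mp hc), ?_, ?_⟩
  · rw [Finset.mem_singleton]
    exact fun hc => h3 (he.inj hc)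
  · rw [hPP]
    exact Finset.notMem_empty _

theorem V1_hV {KK : Finset Pt} (hKK : KK ⊆ {e 240}) : ∀ j, 64 ≤ j → V1.testBit j = true →
    96 ≤ j ∧ isC (e j) ∧ e j ∉ KK := by
  intro j _ hb
  obtain ⟨h1, h2, h3⟩ := V1_chk j (big_bit (by decide) hb) hb
  refine ⟨h1, (cls_nat he h1).mpr h2, fun hc => ?_⟩
  have := hKK hc
  rw [Finset.mem_singleton] at this
  exact h3 (he.inj this)

/-- The initial state for the start at a vertex. -/
theorem ini_O (hS : e 241 ∈ f.S 0) :
    IV f e 1 0 {e 241} ∅ ∅ U2 V0 (2 ^ 241) 0 0 0 4 0 0 0 0 0 0 where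
  hS := by rw [Finset.singleton_subset_iff]; exact hS
  hP := Finset.empty_subset _
  hK := Finset.empty_subset _
  hX := by simp
  hu := by simp
  hU := U2_hU he rfl
  hV := by
    intro j _ hb
    obtain ⟨h1, h2⟩ := V0_chk j (big_bit (by decide) hb) hb
    exact ⟨h1, (cls_nat he h1).mpr h2, Finset.notMem_empty _⟩
  hA := by
    intro j _ hb
    rw [pow_bit hb]
    exact ⟨hS, by exact_mod_cast rg_nrm 0 (by norm_num)⟩
  hB := zero_bit
  hC := zero_bit
  hD := zero_bit
  h1 := by simp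
  h2 := by simp
  h3 := by intro s _; simp

/-- The initial state for the start in the middle with a guard in the centre. -/
theorem ini_K (hS : e 241 ∈ f.S 1) (hK : e 240 ∈ f.K 1) :
    IV f e 1 1 {e 241} ∅ {e 240} U2 V1 (2 ^ 241) 0 0 0 13 0 0 0 1 0 0 where
  hS := by rw [Finset.singleton_subset_iff]; exact hS
  hP := Finset.empty_subset _
  hK := by rw [Finset.singleton_subset_iff]; exact hK
  hX := by simp
  hu := by simp
  hU := U2_hU he rfl
  hV := V1_hV he (Finset.Subset.refl _)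
  hA := by
    intro j _ hb
    rw [pow_bit hb]
    exact ⟨hS, by exact_mod_cast rg_nrm 0 (by norm_num)⟩
  hB := zero_bit
  hC := zero_bit
  hD := zero_bit
  h1 := by simp
  h2 := by simp
  h3 := by intro s _; simp

/-- The initial state for the start in the middle without a guard. -/
theorem ini_N (hW : ∀ c, dst c p0 ≤ 12 → W c = 3) (hS : e 241 ∈ f.S 1) (hF : e 240 ∈ f.F 1) :
    IV f e 1 1 {e 241} ∅ ∅ U2 V1 (2 ^ 241) 0 (2 ^ 240) 0 4 0 3 0 0 1 0 where
  hS := by rw [Finset.singleton_subset_iff]; exact hS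
  hP := Finset.empty_subset _
  hK := Finset.empty_subset _
  hX := by simp
  hu := by simp
  hU := U2_hU he rfl
  hV := V1_hV he (Finset.empty_subset _)
  hA := by
    intro j _ hb
    rw [pow_bit hb]
    exact ⟨hS, by exact_mod_cast rg_nrm 0 (by norm_num)⟩
  hB := zero_bit
  hC := by
    intro j _ hb
    rw [pow_bit hb]
    have hn : nrm (pt 241) ≤ 7 := (rg_nrm 0 (by norm_num)).trans (by norm_num)
    have h1 : e 240 ∈ nbs (e 241) := he.adj _ _ hn (rg_adj 0 (by norm_num)).1
    have hw : W (e 240) = 3 := W_near hW (n := ((1 : ℕ) : ℤ)) (by norm_num)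
      (f.S_ball 1 _ hS) h1
    refine ⟨hF, ?_, ?_, ?_⟩
    · rw [nrm_le]; decide
    · exact (rem_le f hw (nbs_symm h1) hS (s := 1 + 2) (by norm_num)).trans (by norm_num)
    · intro s hs
      have := rem_le f hw (nbs_symm h1) hS (s := s) (by omega)
      omega
  hD := zero_bit
  h1 := by simp
  h2 := by simp
  h3 := by intro s _; simp

end

theorem emb_240 (a : Pt) (k : ℕ) : emb a k 240 = a := by
  have h : pt 240 = (0, 0) := by decide
  unfold emb
  rw [h]
  unfold rot
  split_ifs <;> simp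

theorem emb_241 {a o : Pt} (h : o ∈ nbs a) : ∃ k, emb a k 241 = o := by
  have h1 : pt 241 = (1, 0) := by decide
  rw [mem_nbs] at h
  rcases h with h | h | h | h | h | h
  · refine ⟨0, ?_⟩; unfold emb; rw [h1, Prod.ext_iff]; simp only [rot]; norm_num; omega
  · refine ⟨1, ?_⟩; unfold emb; rw [h1, Prod.ext_iff]; simp only [rot]; norm_num; omega
  · refine ⟨2, ?_⟩; unfold emb; rw [h1, Prod.ext_iff]; simp only [rot]; norm_num; omega
  · refine ⟨3, ?_⟩; unfold emb; rw [h1, Prod.ext_iff]; simp only [rot]; norm_num; omega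
  · refine ⟨4, ?_⟩; unfold emb; rw [h1, Prod.ext_iff]; simp only [rot]; norm_num; omega
  · refine ⟨5, ?_⟩; unfold emb; rw [h1, Prod.ext_iff]; simp only [rot]; norm_num; omega

/-- At time one the potential is small. -/
theorem pot_one (f : Fire W p0 T) (hT : 8 ≤ T) : pot f 9 1 < tb 1 := by
  have h1 : f.S 1 ⊆ (Finset.Icc (p0.1 - 1) (p0.1 + 1)) ×ˢ (Finset.Icc (p0.2 - 1) (p0.2 + 1)) := by
    intro p hp
    have h2 := f.S_ball 1 p hp
    unfold dst at h2
    rw [nrm_le] at h2
    simp only [Prod.fst_sub, Prod.snd_sub] at h2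
    push_cast at h2
    rw [Finset.mem_product, Finset.mem_Icc, Finset.mem_Icc]
    omega
  have h2 := Finset.card_le_card h1
  rw [Finset.card_product, Int.card_Icc, Int.card_Icc] at h2
  have h3 : (p0.1 + 1 + 1 - (p0.1 - 1)).toNat = 3 := by omega
  have h4 : (p0.2 + 1 + 1 - (p0.2 - 1)).toNat = 3 := by omega
  rw [h3, h4] at h2
  have h5 := f.hall 1 (by omega)
  have h6 : tb 1 = 1000 := rfl
  rw [h6]
  unfold pot
  omega

/-- A decided ring around a burnt centre. -/
theorem ring_case (f : Fire W p0 T) (hT : 8 ≤ T) (hW : ∀ c, dst c p0 ≤ 12 → W c = 3)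
    {e : ℕ → Pt} (he : Emb e) {t : ℕ} (ht : t = 2 ∨ t = 3)
    (hr : ∀ v ∈ nbs (e 240), v ∈ f.S t ∨ v ∈ f.P t) (hg : t = 3 → e 241 ∈ f.P 3) :
    ∃ t', 2 ≤ t' ∧ t' ≤ 8 ∧ tb t' ≤ pot f 9 t' := by
  obtain ⟨m, hm64, hm⟩ := bits_ex (fun i => e (rg i) ∈ f.P t) 6
  have hP : ∀ i, i < 6 → m.testBit i = true → e (rg i) ∈ f.P t := fun i hi h => (hm i hi).mp h
  have hS : ∀ i, i < 6 → m.testBit i = false → e (rg i) ∈ f.S t := by
    intro i hi h
    have hn : nrm (pt (rg i)) ≤ 7 := (rg_nrm i hi).trans (by norm_num)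
    rcases hr (e (rg i)) (nbs_symm (he.adj _ _ hn (rg_adj i hi).1)) with h1 | h1
    · exact h1
    · rw [(hm i hi).mpr h1] at h
      exact absurd h (by simp)
  have hcu : cu m ≤ t := by
    have h1 := Finset.card_le_card (Pg_sub hP)
    rw [Pg_card he m] at h1
    have h2 := f.hall t (by omega)
    omega
  have hex : ∃ i, i < 6 ∧ m.testBit i = false := by
    by_contra hc
    push Not at hc
    have h1 : ∀ i, i < 6 → gb m i = 1 := by
      intro i hi
      rw [gb_eq, if_pos]
      have := hc i hi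
      simpa using this
    have h2 : cu m = 6 := by
      unfold cu
      rw [h1 0 (by norm_num), h1 1 (by norm_num), h1 2 (by norm_num), h1 3 (by norm_num),
        h1 4 (by norm_num), h1 5 (by norm_num)]
    omega
  have hI := ini_cfg he hW (by omega) hex hP hS
  rcases ht with rfl | rfl
  · have h1 := ra_all m (by norm_num at hm64; exact hm64) hcu
    obtain ⟨t', h2, h3, h4⟩ := nd_snd he hT hW 6 1 2 _ _ _ _ _ _ _ _ _ _ _ _ _ _ _ _
      (by norm_num) (by norm_num) hI h1
    exact ⟨t', by omega, h3, h4⟩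
  · have h1 := ry_all m (by norm_num at hm64; exact hm64) ((hm 0 (by norm_num)).mpr (hg rfl)) hcu
    obtain ⟨t', h2, h3, h4⟩ := nd_snd he hT hW 5 1 3 _ _ _ _ _ _ _ _ _ _ _ _ _ _ _ _
      (by norm_num) (by norm_num) hI h1
    exact ⟨t', by omega, h3, h4⟩

end Pool.Agent.H58.FF.St

namespace Pool.Agent.H58.FF

open St

/-- The start-up lemma. -/
theorem sstart : SStart := by
  intro W p0 T f hT hW hst
  rcases hst with ⟨a, o, ha, ho, _, hFK, hSP⟩ | ⟨a, ha, _, hF⟩ | ⟨o, ho, hS⟩
  · obtain ⟨k, hk⟩ := emb_241 ho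
    have he := emb_emb ha k
    have h240 := emb_240 a k
    rcases hFK with hF | hK
    · rcases hSP with hS | hP
      · rw [← h240] at hF
        rw [← hk] at hS
        obtain ⟨t', h2, h3, h4⟩ := nd_snd he hT hW 7 1 1 _ _ _ _ _ _ _ _ _ _ _ _ _ _ _ _
          (by norm_num) (by norm_num) (ini_N he hW hS hF) rn
        exact ⟨t', by omega, h3, h4⟩
      · refine ring_case f hT hW he (t := 3) (Or.inr rfl) ?_ ?_
        · rw [h240]
          exact fun v hv => f.r3 1 (by omega) a hF v hv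
        · intro _
          rw [hk]
          exact P_le f (by norm_num) hP
    · rcases hSP with hS | hP
      · rw [← h240] at hK
        rw [← hk] at hS
        obtain ⟨t', h2, h3, h4⟩ := nd_snd he hT hW 7 1 1 _ _ _ _ _ _ _ _ _ _ _ _ _ _ _ _
          (by norm_num) (by norm_num) (ini_K he hS hK) rk
        exact ⟨t', by omega, h3, h4⟩
      · exfalso
        have h1 := f.hall 1 (by omega)
        have h2 : 0 < (f.P 1).card := Finset.card_pos.mpr ⟨o, hP⟩
        have h3 : 0 < (f.K 1).card := Finset.card_pos.mpr ⟨a, hK⟩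
        omega
  · have he := emb_emb ha 0
    have h240 := emb_240 a 0
    refine ring_case f hT hW he (t := 2) (Or.inl rfl) ?_ (fun h => absurd h (by norm_num))
    rw [h240]
    exact fun v hv => f.r3 0 (by omega) a hF v hv
  · have hex : ∃ a, isC a ∧ o ∈ nbs a := by
      unfold isC at ho
      by_cases h0 : (o.1 - o.2) % 3 = 0
      · refine ⟨(o.1, o.2 + 1), ?_, ?_⟩
        · unfold isC
          simp only []
          omega
        · rw [mem_nbs]
          exact Or.inr (Or.inr (Or.inr (Or.inr (Or.inl ⟨rfl, by simp⟩))))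
      · refine ⟨(o.1 + 1, o.2), ?_, ?_⟩
        · unfold isC
          simp only []
          omega
        · rw [mem_nbs]
          exact Or.inr (Or.inr (Or.inr (Or.inl ⟨by simp, rfl⟩)))
    obtain ⟨a, ha, hoa⟩ := hex
    obtain ⟨k, hk⟩ := emb_241 hoa
    have he := emb_emb ha k
    rw [← hk] at hS
    obtain ⟨t', h2, h3, h4⟩ := nd_snd he hT hW 7 1 0 _ _ _ _ _ _ _ _ _ _ _ _ _ _ _ _
      (by norm_num) (by norm_num) (ini_O he hS) ro
    refine ⟨t', ?_, h3, h4⟩
    by_contra hc
    have h5 : t' = 1 := by omega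
    rw [h5] at h4
    exact absurd h4 (not_le.mpr (pot_one f hT))

end Pool.Agent.H58.FF
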