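import Pool.Agent.H58.FF.StGeo

/-!
Start-up search of the micro part: the invariant of a node and one time step.
-/

set_option autoImplicit false

namespace Pool.Agent.H58.FF.St

open Classical

variable {W : Pt → ℕ} {p0 : Pt} {T : ℕ}

/-- The invariant of a node. -/
structure IV (f : Fire W p0 T) (e : ℕ → Pt) (ρ t : ℕ) (SS PP KK : Finset Pt)
    (U V A B C D X a1 a2 a3 u eC eD : ℕ) : Prop where
  hS : SS ⊆ f.S t
  hP : PP ⊆ f.P t
  hK : KK ⊆ f.K t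
  hX : X ≤ 4 * SS.card + 9 * (PP.card + KK.card)
  hu : u ≤ PP.card + KK.card
  hU : ∀ j, 64 ≤ j → U.testBit j = true → 96 ≤ j ∧ ¬ isC (e j) ∧ e j ∉ SS ∧ e j ∉ PP
  hV : ∀ j, 64 ≤ j → V.testBit j = true → 96 ≤ j ∧ isC (e j) ∧ e j ∉ KK
  hA : ∀ j, 64 ≤ j → A.testBit j = true → e j ∈ f.S t ∧ nrm (pt j) ≤ ρ
  hB : ∀ j, 64 ≤ j → B.testBit j = true → ∃ s, s + 1 = t ∧ e j ∈ f.S s ∧ nrm (pt j) ≤ ρ
  hC : ∀ j, 64 ≤ j → C.testBit j = true → e j ∈ f.F t ∧ nrm (pt j) ≤ ρ ∧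
    rem f (e j) (t + 2) ≤ eC ∧ ∀ s, t + 3 ≤ s → rem f (e j) s = 0
  hD : ∀ j, 64 ≤ j → D.testBit j = true → (∃ s, s + 1 = t ∧ e j ∈ f.F s) ∧ nrm (pt j) ≤ ρ ∧
    rem f (e j) (t + 1) ≤ eD ∧ ∀ s, t + 2 ≤ s → rem f (e j) s = 0
  h1 : ∑ w ∈ PP, RR f w (t + 1) + eD * (t + 1 - u) ≤ a1
  h2 : ∑ w ∈ PP, RR f w (t + 2) + eC * (t + 2 - u) ≤ a2
  h3 : ∀ s, t + 3 ≤ s → ∑ w ∈ PP, RR f w s ≤ a3

/-- What is used of the candidate sets. -/
structure NS (U V A B D N1 N2 N3 : ℕ) : Prop where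
  n1 : ∀ j, 64 ≤ j → N1.testBit j = true → U.testBit j = true ∧
    ∃ i, 64 ≤ i ∧ A.testBit i = true ∧ Adj i j
  n2 : ∀ j, 64 ≤ j → N2.testBit j = true → U.testBit j = true ∧ N1.testBit j = false ∧
    ∃ i, 64 ≤ i ∧ D.testBit i = true ∧ Adj i j
  n3 : ∀ j, 64 ≤ j → N3.testBit j = true → V.testBit j = true ∧
    ∃ i, 64 ≤ i ∧ B.testBit i = true ∧ Adj i j

/-- The indices of the guards. -/
def Gt (f : Fire W p0 T) (e : ℕ → Pt) (t j : ℕ) : Prop := e j ∈ f.P t ∨ e j ∈ f.K t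

/-- The indices of the guards among the candidates. -/
noncomputable def Jg (f : Fire W p0 T) (e : ℕ → Pt) (t x : ℕ) : Finset ℕ :=
  (bs x).filter (Gt f e t)

/-- The indices of the other candidates. -/
noncomputable def Jb (f : Fire W p0 T) (e : ℕ → Pt) (t x : ℕ) : Finset ℕ :=
  (bs x).filter (fun j => ¬ Gt f e t j)

theorem Jg_add_Jb (f : Fire W p0 T) (e : ℕ → Pt) (t x : ℕ) :
    (Jg f e t x).card + (Jb f e t x).card = (bs x).card :=
  Finset.card_filter_add_card_filter_not _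

theorem mem_Jg {f : Fire W p0 T} {e : ℕ → Pt} {t x j : ℕ} : j ∈ Jg f e t x ↔
    (64 ≤ j ∧ x.testBit j = true) ∧ (e j ∈ f.P t ∨ e j ∈ f.K t) := by
  unfold Jg
  rw [Finset.mem_filter, mem_bs]
  exact Iff.rfl

theorem mem_Jb {f : Fire W p0 T} {e : ℕ → Pt} {t x j : ℕ} : j ∈ Jb f e t x ↔
    (64 ≤ j ∧ x.testBit j = true) ∧ ¬ (e j ∈ f.P t ∨ e j ∈ f.K t) := by
  unfold Jb
  rw [Finset.mem_filter, mem_bs]
  exact Iff.rfl

section

variable {f : Fire W p0 T} {e : ℕ → Pt} {ρ t : ℕ} {SS PP KK : Finset Pt}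
  {U V A B C D X a1 a2 a3 u eC eD N1 N2 N3 : ℕ}
  (he : Emb e) (hT : 8 ≤ T) (hW : ∀ c, dst c p0 ≤ 12 → W c = 3) (hρ : ρ ≤ 7) (ht : t ≤ 7)
  (h : IV f e ρ t SS PP KK U V A B C D X a1 a2 a3 u eC eD)
  (hN : NS U V A B D N1 N2 N3)

include he hρ h hN

theorem one_adj {j : ℕ} (hj : 64 ≤ j) (hb : N1.testBit j = true) :
    ∃ i, e i ∈ f.S t ∧ e j ∈ nbs (e i) ∧ ¬ isC (e j) ∧ nrm (pt j) ≤ (ρ + 1 : ℕ) := by
  obtain ⟨hU, i, hi, hA, hij⟩ := hN.n1 j hj hb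
  obtain ⟨hS, hn⟩ := h.hA i hi hA
  have hn7 : nrm (pt i) ≤ 7 := hn.trans (by exact_mod_cast hρ)
  refine ⟨i, hS, he.adj i j hn7 hij, (h.hU j hj hU).2.1, ?_⟩
  have := nrm_nbs (pt_adj hn7 hij) hn
  push_cast; exact this

theorem two_adj {j : ℕ} (hj : 64 ≤ j) (hb : N2.testBit j = true) :
    ∃ i s, s + 1 = t ∧ e i ∈ f.F s ∧ e j ∈ nbs (e i) ∧ ¬ isC (e j) ∧
      nrm (pt j) ≤ (ρ + 1 : ℕ) ∧ rem f (e i) (t + 1) ≤ eD ∧
      ∀ s, t + 2 ≤ s → rem f (e i) s = 0 := by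
  obtain ⟨hU, _, i, hi, hA, hij⟩ := hN.n2 j hj hb
  obtain ⟨⟨s, hs, hS⟩, hn, h1, h2⟩ := h.hD i hi hA
  have hn7 : nrm (pt i) ≤ 7 := hn.trans (by exact_mod_cast hρ)
  refine ⟨i, s, hs, hS, he.adj i j hn7 hij, (h.hU j hj hU).2.1, ?_, h1, h2⟩
  have := nrm_nbs (pt_adj hn7 hij) hn
  push_cast; exact this

theorem three_adj {j : ℕ} (hj : 64 ≤ j) (hb : N3.testBit j = true) :
    ∃ i s, s + 1 = t ∧ e i ∈ f.S s ∧ e j ∈ nbs (e i) ∧ isC (e j) ∧
      nrm (pt j) ≤ (ρ + 1 : ℕ) := by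
  obtain ⟨hU, i, hi, hA, hij⟩ := hN.n3 j hj hb
  obtain ⟨s, hs, hS, hn⟩ := h.hB i hi hA
  have hn7 : nrm (pt i) ≤ 7 := hn.trans (by exact_mod_cast hρ)
  refine ⟨i, s, hs, hS, he.adj i j hn7 hij, (h.hV j hj hU).2.1, ?_⟩
  have := nrm_nbs (pt_adj hn7 hij) hn
  push_cast; exact this

include hT ht

theorem one_dec {j : ℕ} (hj : 64 ≤ j) (hb : N1.testBit j = true) :
    e j ∈ f.S (t + 1) ∨ e j ∈ f.P (t + 1) := by
  obtain ⟨i, h1, h2, h3, _⟩ := one_adj he hρ h hN hj hb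
  exact f.r1 t (by omega) _ h1 _ h2 h3

theorem two_dec {j : ℕ} (hj : 64 ≤ j) (hb : N2.testBit j = true) :
    e j ∈ f.S (t + 1) ∨ e j ∈ f.P (t + 1) := by
  obtain ⟨i, s, hs, h1, h2, _⟩ := two_adj he hρ h hN hj hb
  subst hs
  exact f.r3 s (by omega) _ h1 _ h2

include hW

theorem three_dec {j : ℕ} (hj : 64 ≤ j) (hb : N3.testBit j = true) :
    e j ∈ f.F (t + 1) ∨ e j ∈ f.K (t + 1) := by
  obtain ⟨i, s, hs, h1, h2, h3, _⟩ := three_adj he hρ h hN hj hb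
  subst hs
  have hw : W (e j) = 3 := W_near hW (n := (s : ℤ)) (by omega) (f.S_ball s _ h1) h2
  have := f.r2 s _ h1 _ h2 h3 (by omega)
  rw [hw] at this
  exact this

end

theorem card_un {e : ℕ → Pt} (he : Function.Injective e) {SS : Finset Pt} {J J' : Finset ℕ}
    (hd : Disjoint J J') (hn : ∀ j ∈ J ∪ J', e j ∉ SS) :
    (SS ∪ (J ∪ J').image e).card = SS.card + (J.card + J'.card) := by
  rw [Finset.card_union_of_disjoint, Finset.card_image_of_injective _ he,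
    Finset.card_union_of_disjoint hd]
  rw [Finset.disjoint_left]
  intro p hp hp'
  obtain ⟨j, hj, rfl⟩ := Finset.mem_image.mp hp'
  exact hn j hj hp

theorem sum_un {e : ℕ → Pt} (he : Function.Injective e) {SS : Finset Pt} {J J' : Finset ℕ}
    (hd : Disjoint J J') (hn : ∀ j ∈ J ∪ J', e j ∉ SS) (F : Pt → ℕ) :
    ∑ w ∈ SS ∪ (J ∪ J').image e, F w =
      ∑ w ∈ SS, F w + (∑ j ∈ J, F (e j) + ∑ j ∈ J', F (e j)) := by
  rw [Finset.sum_union, Finset.sum_image fun a _ b _ hab => he hab, Finset.sum_union hd]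
  rw [Finset.disjoint_left]
  intro p hp hp'
  obtain ⟨j, hj, rfl⟩ := Finset.mem_image.mp hp'
  exact hn j hj hp

theorem sum_le_mul {J : Finset ℕ} {F : ℕ → ℕ} {b : ℕ} (h : ∀ j ∈ J, F j ≤ b) :
    ∑ j ∈ J, F j ≤ J.card * b := by
  have := Finset.sum_le_card_nsmul J F b h
  rwa [smul_eq_mul] at this

section

variable {f : Fire W p0 T} {e : ℕ → Pt} {ρ t : ℕ} {SS PP KK : Finset Pt}
  {U V A B C D X a1 a2 a3 u eC eD N1 N2 N3 : ℕ}
  (he : Emb e) (hT : 8 ≤ T) (hW : ∀ c, dst c p0 ≤ 12 → W c = 3) (hρ : ρ ≤ 7) (ht : t ≤ 7)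
  (h : IV f e ρ t SS PP KK U V A B C D X a1 a2 a3 u eC eD)
  (hN : NS U V A B D N1 N2 N3)

include h hN

theorem J1_U {j : ℕ} (hj : j ∈ bs N1) : 96 ≤ j ∧ ¬ isC (e j) ∧ e j ∉ SS ∧ e j ∉ PP := by
  rw [mem_bs] at hj
  exact h.hU j hj.1 (hN.n1 j hj.1 hj.2).1

theorem J2_U {j : ℕ} (hj : j ∈ bs N2) : 96 ≤ j ∧ ¬ isC (e j) ∧ e j ∉ SS ∧ e j ∉ PP := by
  rw [mem_bs] at hj
  exact h.hU j hj.1 (hN.n2 j hj.1 hj.2).1

theorem J3_V {j : ℕ} (hj : j ∈ bs N3) : 96 ≤ j ∧ isC (e j) ∧ e j ∉ KK := by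
  rw [mem_bs] at hj
  exact h.hV j hj.1 (hN.n3 j hj.1 hj.2).1

theorem J1_P {j : ℕ} (hj : j ∈ Jg f e (t + 1) N1) : e j ∈ f.P (t + 1) := by
  rw [mem_Jg] at hj
  rcases hj.2 with h1 | h1
  · exact h1
  · exact absurd (f.K_cls _ _ h1) (J1_U h hN (mem_bs.mpr hj.1)).2.1

theorem J2_P {j : ℕ} (hj : j ∈ Jg f e (t + 1) N2) : e j ∈ f.P (t + 1) := by
  rw [mem_Jg] at hj
  rcases hj.2 with h1 | h1
  · exact h1
  · exact absurd (f.K_cls _ _ h1) (J2_U h hN (mem_bs.mpr hj.1)).2.1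

theorem J3_K {j : ℕ} (hj : j ∈ Jg f e (t + 1) N3) : e j ∈ f.K (t + 1) := by
  rw [mem_Jg] at hj
  rcases hj.2 with h1 | h1
  · exact absurd (J3_V h hN (mem_bs.mpr hj.1)).2.1 (f.P_cls _ _ h1)
  · exact h1

omit h in
theorem N12_disj : Disjoint (bs N1) (bs N2) := by
  rw [Finset.disjoint_left]
  intro j h1 h2
  rw [mem_bs] at h1 h2
  rw [(hN.n2 j h2.1 h2.2).2.1] at h1
  exact absurd h1.2 (by simp)

omit h in
theorem Jg12_disj : Disjoint (Jg f e (t + 1) N1) (Jg f e (t + 1) N2) :=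
  Disjoint.mono (Finset.filter_subset _ _) (Finset.filter_subset _ _) (N12_disj hN)

omit h in
theorem Jb12_disj : Disjoint (Jb f e (t + 1) N1) (Jb f e (t + 1) N2) :=
  Disjoint.mono (Finset.filter_subset _ _) (Finset.filter_subset _ _) (N12_disj hN)

theorem Jg12_PP : ∀ j ∈ Jg f e (t + 1) N1 ∪ Jg f e (t + 1) N2, e j ∉ PP := by
  intro j hj
  rcases Finset.mem_union.mp hj with hj | hj
  · exact (J1_U h hN (Finset.filter_subset _ _ hj)).2.2.2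
  · exact (J2_U h hN (Finset.filter_subset _ _ hj)).2.2.2

theorem Jb12_SS : ∀ j ∈ Jb f e (t + 1) N1 ∪ Jb f e (t + 1) N2, e j ∉ SS := by
  intro j hj
  rcases Finset.mem_union.mp hj with hj | hj
  · exact (J1_U h hN (Finset.filter_subset _ _ hj)).2.2.1
  · exact (J2_U h hN (Finset.filter_subset _ _ hj)).2.2.1

theorem PP_sub : PP ∪ (Jg f e (t + 1) N1 ∪ Jg f e (t + 1) N2).image e ⊆ f.P (t + 1) := by
  refine Finset.union_subset (h.hP.trans (f.P_mono t)) ?_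
  intro p hp
  obtain ⟨j, hj, rfl⟩ := Finset.mem_image.mp hp
  rcases Finset.mem_union.mp hj with hj | hj
  · exact J1_P h hN hj
  · exact J2_P h hN hj

theorem KK_sub : KK ∪ (Jg f e (t + 1) N3 ∪ ∅).image e ⊆ f.K (t + 1) := by
  refine Finset.union_subset (h.hK.trans (f.K_mono t)) ?_
  intro p hp
  obtain ⟨j, hj, rfl⟩ := Finset.mem_image.mp hp
  rcases Finset.mem_union.mp hj with hj | hj
  · exact J3_K h hN hj
  · exact absurd hj (Finset.notMem_empty j)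

include he

theorem PP_card : (PP ∪ (Jg f e (t + 1) N1 ∪ Jg f e (t + 1) N2).image e).card =
    PP.card + ((Jg f e (t + 1) N1).card + (Jg f e (t + 1) N2).card) :=
  card_un he.inj (Jg12_disj hN) (Jg12_PP h hN)

theorem KK_card : (KK ∪ (Jg f e (t + 1) N3 ∪ ∅).image e).card =
    KK.card + (Jg f e (t + 1) N3).card := by
  rw [card_un he.inj (Finset.disjoint_empty_right _), Finset.card_empty, Nat.add_zero]
  intro j hj
  rw [Finset.union_empty] at hj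
  exact (J3_V h hN (Finset.filter_subset _ _ hj)).2.2

theorem SS_card : (SS ∪ (Jb f e (t + 1) N1 ∪ Jb f e (t + 1) N2).image e).card =
    SS.card + ((Jb f e (t + 1) N1).card + (Jb f e (t + 1) N2).card) :=
  card_un he.inj (Jb12_disj hN) (Jb12_SS h hN)

include hT ht

theorem slots : (Jg f e (t + 1) N1).card + (Jg f e (t + 1) N2).card +
    (Jg f e (t + 1) N3).card + (PP.card + KK.card) ≤ t + 1 := by
  have h1 := f.hall (t + 1) (by omega)
  have h2 := Finset.card_le_card (PP_sub h hN)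
  have h3 := Finset.card_le_card (KK_sub h hN)
  rw [PP_card he h hN] at h2
  rw [KK_card he h hN] at h3
  omega

include hρ

theorem SS_sub : SS ∪ (Jb f e (t + 1) N1 ∪ Jb f e (t + 1) N2).image e ⊆ f.S (t + 1) := by
  refine Finset.union_subset (h.hS.trans (f.S_mono t)) ?_
  intro p hp
  obtain ⟨j, hj, rfl⟩ := Finset.mem_image.mp hp
  rcases Finset.mem_union.mp hj with hj | hj <;> rw [mem_Jb] at hj
  · rcases one_dec he hT hρ ht h hN hj.1.1 hj.1.2 with h1 | h1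
    · exact h1
    · exact absurd (Or.inl h1) hj.2
  · rcases two_dec he hT hρ ht h hN hj.1.1 hj.1.2 with h1 | h1
    · exact h1
    · exact absurd (Or.inl h1) hj.2

include hW

omit hT in
theorem RR1 {s : ℕ} (hs : t ≤ s) : ∀ j ∈ Jg f e (t + 1) N1,
    RR f (e j) s ≤ 2 * (3 - (s - t)) + 3 := by
  intro j hj
  rw [mem_Jg] at hj
  obtain ⟨i, h1, h2, h3, _⟩ := one_adj he hρ h hN hj.1.1 hj.1.2
  have hb := f.P_ball _ _ (J1_P h hN (mem_Jg.mpr hj))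
  refine RR_one f h3 (fun c hc => W_near hW (n := ((t + 1 : ℕ) : ℤ)) (by omega) hb hc)
    (f.S_cls _ _ h1) (nbs_symm h2) h1 hs

omit hT in
theorem RR2a : ∀ j ∈ Jg f e (t + 1) N2, RR f (e j) (t + 1) ≤ 6 + eD := by
  intro j hj
  rw [mem_Jg] at hj
  obtain ⟨i, s, hs, h1, h2, h3, _, h4, _⟩ := two_adj he hρ h hN hj.1.1 hj.1.2
  have hb := f.P_ball _ _ (J2_P h hN (mem_Jg.mpr hj))
  exact RR_two f h3 (fun c hc => W_near hW (n := ((t + 1 : ℕ) : ℤ)) (by omega) hb hc)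
    (mem_cnb.mpr ⟨nbs_symm h2, f.F_cls _ _ h1⟩) h4

omit hT in
theorem RR2b {s : ℕ} (hs : t + 2 ≤ s) : ∀ j ∈ Jg f e (t + 1) N2, RR f (e j) s ≤ 6 := by
  intro j hj
  rw [mem_Jg] at hj
  obtain ⟨i, s', hs', h1, h2, h3, _, _, h4⟩ := two_adj he hρ h hN hj.1.1 hj.1.2
  have hb := f.P_ball _ _ (J2_P h hN (mem_Jg.mpr hj))
  exact RR_two f h3 (fun c hc => W_near hW (n := ((t + 1 : ℕ) : ℤ)) (by omega) hb hc)
    (mem_cnb.mpr ⟨nbs_symm h2, f.F_cls _ _ h1⟩) (h4 s hs).le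

omit hT in
theorem sum1 : ∑ w ∈ PP ∪ (Jg f e (t + 1) N1 ∪ Jg f e (t + 1) N2).image e, RR f w (t + 1) ≤
    ∑ w ∈ PP, RR f w (t + 1) + ((Jg f e (t + 1) N1).card * 7 +
      (Jg f e (t + 1) N2).card * (6 + eD)) := by
  rw [sum_un he.inj (Jg12_disj hN) (Jg12_PP h hN)]
  have h1 := sum_le_mul (RR1 he hW hρ ht h hN (s := t + 1) (by omega))
  have h2 := sum_le_mul (RR2a he hW hρ ht h hN)
  have h3 : 2 * (3 - (t + 1 - t)) + 3 = 7 := by omega
  rw [h3] at h1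
  exact Nat.add_le_add_left (Nat.add_le_add h1 h2) _

omit hT in
theorem sum2 : ∑ w ∈ PP ∪ (Jg f e (t + 1) N1 ∪ Jg f e (t + 1) N2).image e, RR f w (t + 2) ≤
    ∑ w ∈ PP, RR f w (t + 2) + ((Jg f e (t + 1) N1).card * 5 +
      (Jg f e (t + 1) N2).card * 6) := by
  rw [sum_un he.inj (Jg12_disj hN) (Jg12_PP h hN)]
  have h1 := sum_le_mul (RR1 he hW hρ ht h hN (s := t + 2) (by omega))
  have h2 := sum_le_mul (RR2b he hW hρ ht h hN (s := t + 2) (by omega))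
  have h3 : 2 * (3 - (t + 2 - t)) + 3 = 5 := by omega
  rw [h3] at h1
  exact Nat.add_le_add_left (Nat.add_le_add h1 h2) _

omit hT in
theorem sum3 {s : ℕ} (hs : t + 3 ≤ s) :
    ∑ w ∈ PP ∪ (Jg f e (t + 1) N1 ∪ Jg f e (t + 1) N2).image e, RR f w s ≤
    ∑ w ∈ PP, RR f w s + ((Jg f e (t + 1) N1).card * 3 +
      (Jg f e (t + 1) N2).card * 6) := by
  rw [sum_un he.inj (Jg12_disj hN) (Jg12_PP h hN)]
  have h1 := sum_le_mul (RR1 he hW hρ ht h hN (s := s) (by omega))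
  have h2 := sum_le_mul (RR2b he hW hρ ht h hN (s := s) (by omega))
  have h3 : 2 * (3 - (s - t)) + 3 = 3 := by omega
  rw [h3] at h1
  exact Nat.add_le_add_left (Nat.add_le_add h1 h2) _

/-- The resolved case. -/
theorem step_pot {q1 q2 q3 : ℕ} (e1 : q1 = (Jg f e (t + 1) N1).card)
    (e2 : q2 = (Jg f e (t + 1) N2).card) (e3 : q3 = (Jg f e (t + 1) N3).card)
    {th : ℕ} (hth : (th : ℤ) = tb (t + 1) + 9 * ((t + 1 : ℕ) : ℤ))
    (hr : th + a1 + 2 * q1 + q2 ≤ X + 4 * ((bs N1).card + (bs N2).card) + 9 * q3) :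
    tb (t + 1) ≤ pot f 9 (t + 1) := by
  have h1 := pot_ge f hW (t := t + 1) (by omega) (SS_sub he hT hρ ht h hN) (PP_sub h hN)
    (KK_sub h hN)
  rw [PP_card he h hN, KK_card he h hN, SS_card he h hN, ← e1, ← e2, ← e3] at h1
  have h2 := sum1 he hW hρ ht h hN
  rw [← e1, ← e2] at h2
  have h3 := slots he hT ht h hN
  rw [← e1, ← e2, ← e3] at h3
  have h4 := Jg_add_Jb f e (t + 1) N1
  have h5 := Jg_add_Jb f e (t + 1) N2
  rw [← e1] at h4
  rw [← e2] at h5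
  have h6 := h.h1
  have h7 : q2 * eD ≤ eD * (t + 1 - u) := by
    rw [Nat.mul_comm]
    refine Nat.mul_le_mul_left _ ?_
    have := h.hu
    omega
  have h8 := h.hX
  have h9 : q2 * (6 + eD) = 6 * q2 + q2 * eD := by ring
  rw [h9] at h2
  have h10 : (∑ w ∈ PP ∪ (Jg f e (t + 1) N1 ∪ Jg f e (t + 1) N2).image e, RR f w (t + 1)) ≤
      a1 + 7 * q1 + 6 * q2 := by omega
  generalize ∑ w ∈ PP ∪ (Jg f e (t + 1) N1 ∪ Jg f e (t + 1) N2).image e, RR f w (t + 1) = z at *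
  push_cast at h1 hth
  zify at h10 h8 hr h4 h5
  linarith

omit hW in
theorem A_next {g : ℕ} (hg : ∀ j, j ∈ bs N1 ∨ j ∈ bs N2 ∨ j ∈ bs N3 →
      (g.testBit j = true ↔ (e j ∈ f.P (t + 1) ∨ e j ∈ f.K (t + 1)))) (j : ℕ) (hj : 64 ≤ j)
    (hb : (dif (Nat.xor N1 N2) g).testBit j = true) :
    e j ∈ f.S (t + 1) ∧ nrm (pt j) ≤ (ρ + 1 : ℕ) := by
  rw [dif_bit, lxor_bit, Bool.and_eq_true, Bool.not_eq_true'] at hb
  have h1 : j ∈ bs N1 ∨ j ∈ bs N2 := by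
    rw [mem_bs, mem_bs]
    by_cases h1 : N1.testBit j = true
    · exact Or.inl ⟨hj, h1⟩
    · right
      refine ⟨hj, ?_⟩
      rw [Bool.not_eq_true] at h1
      have h2 := hb.1
      rwa [h1, Bool.false_xor] at h2
  have h2 : ¬ (e j ∈ f.P (t + 1) ∨ e j ∈ f.K (t + 1)) := by
    rw [← hg j (by tauto), hb.2]
    simp
  rcases h1 with h1 | h1 <;> rw [mem_bs] at h1
  · refine ⟨?_, ?_⟩
    · rcases one_dec he hT hρ ht h hN h1.1 h1.2 with h3 | h3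
      · exact h3
      · exact absurd (Or.inl h3) h2
    · obtain ⟨_, _, _, _, h3⟩ := one_adj he hρ h hN h1.1 h1.2
      exact h3
  · refine ⟨?_, ?_⟩
    · rcases two_dec he hT hρ ht h hN h1.1 h1.2 with h3 | h3
      · exact h3
      · exact absurd (Or.inl h3) h2
    · obtain ⟨_, _, _, _, _, _, h3, _⟩ := two_adj he hρ h hN h1.1 h1.2
      exact h3

theorem C_next {g : ℕ} (hg : ∀ j, j ∈ bs N1 ∨ j ∈ bs N2 ∨ j ∈ bs N3 →
      (g.testBit j = true ↔ (e j ∈ f.P (t + 1) ∨ e j ∈ f.K (t + 1)))) (j : ℕ) (hj : 64 ≤ j)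
    (hb : (dif N3 g).testBit j = true) :
    e j ∈ f.F (t + 1) ∧ nrm (pt j) ≤ (ρ + 1 : ℕ) ∧
      rem f (e j) (t + 1 + 2) ≤ 0 ∧ ∀ s, t + 1 + 3 ≤ s → rem f (e j) s = 0 := by
  rw [dif_bit, Bool.and_eq_true, Bool.not_eq_true'] at hb
  have h1 : j ∈ bs N3 := mem_bs.mpr ⟨hj, hb.1⟩
  have h2 : ¬ (e j ∈ f.P (t + 1) ∨ e j ∈ f.K (t + 1)) := by
    rw [← hg j (by tauto), hb.2]
    simp
  obtain ⟨i, s, hs, h3, h4, h5, h6⟩ := three_adj he hρ h hN hj hb.1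
  subst hs
  have hw : W (e j) = 3 := W_near hW (n := (s : ℤ)) (by omega) (f.S_ball s _ h3) h4
  refine ⟨?_, h6, ?_, ?_⟩
  · rcases three_dec he hT hW hρ ht h hN hj hb.1 with h7 | h7
    · exact h7
    · exact absurd (Or.inr h7) h2
  · refine (rem_le f hw (nbs_symm h4) h3 (s := s + 1 + 1 + 2) (by omega)).trans ?_
    omega
  · intro s' hs'
    have := rem_le f hw (nbs_symm h4) h3 (s := s') (by omega)
    omega

/-- The next state. -/
theorem step_next {q1 q2 q3 g : ℕ} (e1 : q1 = (Jg f e (t + 1) N1).card)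
    (e2 : q2 = (Jg f e (t + 1) N2).card) (e3 : q3 = (Jg f e (t + 1) N3).card)
    (hg : ∀ j, j ∈ bs N1 ∨ j ∈ bs N2 ∨ j ∈ bs N3 →
      (g.testBit j = true ↔ (e j ∈ f.P (t + 1) ∨ e j ∈ f.K (t + 1)))) :
    IV f e (ρ + 1) (t + 1) (SS ∪ (Jb f e (t + 1) N1 ∪ Jb f e (t + 1) N2).image e)
      (PP ∪ (Jg f e (t + 1) N1 ∪ Jg f e (t + 1) N2).image e)
      (KK ∪ (Jg f e (t + 1) N3 ∪ ∅).image e)
      (Nat.xor U (Nat.xor N1 N2)) (Nat.xor V N3) (dif (Nat.xor N1 N2) g) A (dif N3 g) C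
      (X + 4 * ((bs N1).card + (bs N2).card) + (5 * (q1 + q2) + 9 * q3))
      (a2 + (5 * q1 + 6 * q2)) (a3 + (3 * q1 + 6 * q2)) (a3 + (3 * q1 + 6 * q2))
      (u + (q1 + (q2 + q3))) 0 eC := by
  have hx : ∀ j, 64 ≤ j → (Nat.xor U (Nat.xor N1 N2)).testBit j = true →
      U.testBit j = true ∧ j ∉ bs N1 ∧ j ∉ bs N2 := by
    intro j hj hb
    rw [lxor_bit, lxor_bit] at hb
    rw [mem_bs, mem_bs]
    by_cases h1 : N1.testBit j = true
    · have h2 := (hN.n1 j hj h1).1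
      have h3 : N2.testBit j = false := by
        by_contra h3
        rw [Bool.not_eq_false] at h3
        rw [(hN.n2 j hj h3).2.1] at h1
        exact absurd h1 (by simp)
      rw [h1, h2, h3] at hb
      exact absurd hb (by decide)
    · rw [Bool.not_eq_true] at h1
      by_cases h3 : N2.testBit j = true
      · have h2 := (hN.n2 j hj h3).1
        rw [h1, h2, h3] at hb
        exact absurd hb (by decide)
      · rw [Bool.not_eq_true] at h3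
        rw [h1, h3] at hb
        refine ⟨by simpa using hb, ?_, ?_⟩
        · rintro ⟨_, h4⟩
          rw [h1] at h4
          exact absurd h4 (by simp)
        · rintro ⟨_, h4⟩
          rw [h3] at h4
          exact absurd h4 (by simp)
  have hy : ∀ j, 64 ≤ j → (Nat.xor V N3).testBit j = true →
      V.testBit j = true ∧ j ∉ bs N3 := by
    intro j hj hb
    rw [lxor_bit] at hb
    rw [mem_bs]
    by_cases h1 : N3.testBit j = true
    · have h2 := (hN.n3 j hj h1).1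
      rw [h1, h2] at hb
      exact absurd hb (by decide)
    · rw [Bool.not_eq_true] at h1
      rw [h1] at hb
      refine ⟨by simpa using hb, ?_⟩
      rintro ⟨_, h4⟩
      rw [h1] at h4
      exact absurd h4 (by simp)
  have hnm : ∀ (M M' : Finset ℕ) (Z : Finset Pt) (j : ℕ), e j ∉ Z → j ∉ M → j ∉ M' →
      e j ∉ Z ∪ (M ∪ M').image e := by
    intro M M' Z j h1 h2 h3 h4
    rcases Finset.mem_union.mp h4 with h4 | h4
    · exact h1 h4
    · obtain ⟨i, hi, hij⟩ := Finset.mem_image.mp h4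
      rw [he.inj hij] at hi
      rcases Finset.mem_union.mp hi with h5 | h5
      · exact h2 h5
      · exact h3 h5
  have hPc := PP_card he h hN
  have hKc := KK_card he h hN
  have hSc := SS_card he h hN
  rw [← e1, ← e2] at hPc
  rw [← e3] at hKc
  have h4 := Jg_add_Jb f e (t + 1) N1
  have h5 := Jg_add_Jb f e (t + 1) N2
  rw [← e1] at h4
  rw [← e2] at h5
  constructor
  · exact SS_sub he hT hρ ht h hN
  · exact PP_sub h hN
  · exact KK_sub h hN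
  · have := h.hX
    rw [hPc, hKc, hSc]
    omega
  · have := h.hu
    rw [hPc, hKc]
    omega
  · intro j hj hb
    obtain ⟨h6, h7, h8⟩ := hx j hj hb
    obtain ⟨h9, h10, h11, h12⟩ := h.hU j hj h6
    refine ⟨h9, h10, hnm _ _ _ j h11 ?_ ?_, hnm _ _ _ j h12 ?_ ?_⟩
    · exact fun hc => h7 (Finset.filter_subset _ _ hc)
    · exact fun hc => h8 (Finset.filter_subset _ _ hc)
    · exact fun hc => h7 (Finset.filter_subset _ _ hc)
    · exact fun hc => h8 (Finset.filter_subset _ _ hc)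
  · intro j hj hb
    obtain ⟨h6, h7⟩ := hy j hj hb
    obtain ⟨h9, h10, h11⟩ := h.hV j hj h6
    refine ⟨h9, h10, hnm _ _ _ j h11 ?_ (Finset.notMem_empty j)⟩
    exact fun hc => h7 (Finset.filter_subset _ _ hc)
  · exact A_next he hT hρ ht h hN hg
  · intro j hj hb
    obtain ⟨h6, h7⟩ := h.hA j hj hb
    refine ⟨t, rfl, h6, ?_⟩
    push_cast; linarith
  · exact C_next he hT hW hρ ht h hN hg
  · intro j hj hb
    obtain ⟨h6, h7, h8, h9⟩ := h.hC j hj hb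
    refine ⟨⟨t, rfl, h6⟩, ?_, h8, ?_⟩
    · push_cast; linarith
    · intro s hs
      exact h9 s (by omega)
  · have h6 := sum2 he hW hρ ht h hN
    have h7 := h.h2
    rw [← e1, ← e2] at h6
    have h8 : eC * (t + 1 + 1 - (u + (q1 + (q2 + q3)))) ≤ eC * (t + 2 - u) :=
      Nat.mul_le_mul_left _ (by omega)
    have h9 : t + 1 + 1 = t + 2 := rfl
    rw [h9] at h8 ⊢
    omega
  · have h6 := sum3 he hW hρ ht h hN (s := t + 3) le_rfl
    have h7 := h.h3 (t + 3) le_rfl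
    rw [← e1, ← e2] at h6
    have h9 : t + 1 + 2 = t + 3 := rfl
    rw [h9, Nat.zero_mul]
    omega
  · intro s hs
    have h6 := sum3 he hW hρ ht h hN (s := s) (by omega)
    have h7 := h.h3 s (by omega)
    rw [← e1, ← e2] at h6
    omega

end

end Pool.Agent.H58.FF.St
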