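import Pool.Agent.H58.FF.Stm

/-!
# Micro part of the girth five firefighter construction: one step of the potential
-/

namespace Pool.Agent.H58.FF

theorem sstep (h1 : SGrow) (h2 : SPend) : SStep := by
  intro W p0 T f hW l t ht hl
  obtain ⟨b, hb1, hb2⟩ := h1 W p0 T f hW t ht
  have hp := h2 W p0 T f (fun c => le_trans one_le_two (hW c)) l t hl
  have hH := f.hall t (by omega)
  have hH' := f.hall (t + 1) ht
  have hK : (f.K t).card ≤ (f.K (t + 1)).card := Finset.card_le_card (f.K_mono t)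
  have hlK : (l : ℤ) * (f.K t).card ≤ (l : ℤ) * (f.K (t + 1)).card := by
    exact_mod_cast Nat.mul_le_mul_left l hK
  have hlH : (l : ℤ) * ((f.P t).card + (f.K t).card) ≤ (l : ℤ) * t := by
    exact_mod_cast Nat.mul_le_mul_left l hH
  zify at hb1 hb2 hp hH hH'
  refine ⟨(b : ℤ), Int.natCast_nonneg b, ?_, ?_⟩
  · unfold pot
    have h3 : (0 : ℤ) ≤ (pend f t : ℤ) := Int.natCast_nonneg _
    nlinarith [hb1, hlH, h3]
  · unfold pot
    push_cast
    nlinarith [hb2, hp, hH', hlK]

end Pool.Agent.H58.FF
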