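import Pool.Agent.H58.FF.Defs

/-!
Statements of the micro part.
-/

namespace Pool.Agent.H58.FF

open Classical

/-- Vertex isoperimetry in the triangular lattice. -/
def SIso : Prop := ∀ Q : Finset Pt, 12 * Q.card + 6 * (bdry Q).card ≤ (bdry Q).card ^ 2 + 12

/-- The growth inequality. -/
def SGrow : Prop := ∀ (W : Pt → ℕ) (p0 : Pt) (T : ℕ) (f : Fire W p0 T), (∀ c, 2 ≤ W c) →
  ∀ t, t + 1 ≤ T → ∃ b : ℕ, 18 * (f.S t).card + 3 * b ≤ b ^ 2 + 12 ∧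
    2 * b + 4 * (f.S t).card ≤
      4 * (f.S (t + 1)).card + 2 * ((f.P (t + 1)).card + (f.K (t + 1)).card) + leak f t

/-- Leaks against pending leaks. -/
def SPend : Prop := ∀ (W : Pt → ℕ) (p0 : Pt) (T : ℕ) (f : Fire W p0 T), (∀ c, 1 ≤ W c) →
  ∀ (l t : ℕ), (∀ w ∈ f.P (t + 1), ∑ c ∈ cnb w, W c ≤ l) →
    pend f (t + 1) + leak f t + l * (f.P t).card ≤ pend f t + l * (f.P (t + 1)).card

/-- One step of the potential. -/
def SStep : Prop := ∀ (W : Pt → ℕ) (p0 : Pt) (T : ℕ) (f : Fire W p0 T), (∀ c, 2 ≤ W c) →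
  ∀ (l t : ℕ), t + 1 ≤ T → (∀ w ∈ f.P (t + 1), ∑ c ∈ cnb w, W c ≤ l) →
    ∃ b : ℤ, 0 ≤ b ∧ 9 * pot f l t + 6 * b ≤ 2 * b ^ 2 + 24 ∧
      pot f l t + 2 * b - 2 * (t + 1) - l ≤ pot f l (t + 1)

/-- The start-up: an exhaustive search over at most eight time steps. -/
def SStart : Prop := ∀ (W : Pt → ℕ) (p0 : Pt) (T : ℕ) (f : Fire W p0 T), 8 ≤ T →
  (∀ c, dst c p0 ≤ 12 → W c = 3) → (StartY f ∨ StartA f ∨ StartO f) →
    ∃ t, 2 ≤ t ∧ t ≤ 8 ∧ tb t ≤ pot f 9 t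

/-- The area lemma. -/
def SArea : Prop := ∃ D0 t1 : ℕ, ∀ (W : Pt → ℕ) (p0 : Pt) (T : ℕ) (f : Fire W p0 T),
  (∀ c, dst c p0 ≤ D0 → W c = 3) → (∀ c, W c = 3 ∨ W c = 7) →
    (StartY f ∨ StartA f ∨ StartO f) → ∀ t, t1 ≤ t → t ≤ T → 48 * t ^ 2 ≤ 100 * (f.S t).card

/-- The area lemma follows from the step inequality and the start-up. -/
def SAreaOf : Prop := SStep → SStart → SArea

end Pool.Agent.H58.FF
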